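import Mathlib

/-!
# Codes with a free abelian group of automorphisms (helper91): one step of the cube lemma
-/

namespace Pool.Agent.Lib.MP_0430e4_lc.Free

open Finset

/-- The elements of `S` which stay in `S` after adding `d`. -/
noncomputable def inter {G : Type*} [AddCommGroup G] [DecidableEq G] (S : Finset G) (d : G) :
    Finset G := S.filter fun x => x + d ∈ S

/-- second moment over the directions in a subgroup `K` -/
theorem sum_inter {G : Type*} [AddCommGroup G] [Fintype G] [DecidableEq G] (S : Finset G)
    (K : AddSubgroup G) [Fintype K] :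
    ((S.card : ℝ) ^ 2) * (Fintype.card K : ℝ) ≤
      (Fintype.card G : ℝ) * ∑ d : K, ((inter S (d : G)).card : ℝ) := by
  classical
  -- fibres over the cosets
  let π : G → G ⧸ K := fun x => (x : G ⧸ K)
  have hcard : (Fintype.card G : ℝ) = (Fintype.card (G ⧸ K) : ℝ) * (Fintype.card K : ℝ) := by
    have := AddSubgroup.card_eq_card_quotient_mul_card_addSubgroup K
    rw [Nat.card_eq_fintype_card, Nat.card_eq_fintype_card, Nat.card_eq_fintype_card] at this
    exact_mod_cast this
  have h1 : (S.card : ℝ) = ∑ c : G ⧸ K, ((S.filter fun x => π x = c).card : ℝ) := by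
    have := Finset.card_eq_sum_card_fiberwise (s := S) (t := (univ : Finset (G ⧸ K))) (f := π)
      (fun x _ => by simp)
    exact_mod_cast this
  have h2 : ((S.card : ℝ)) ^ 2 ≤ (Fintype.card (G ⧸ K) : ℝ) *
      ∑ c : G ⧸ K, ((S.filter fun x => π x = c).card : ℝ) ^ 2 := by
    rw [h1]
    have := sq_sum_le_card_mul_sum_sq (s := (univ : Finset (G ⧸ K)))
      (f := fun c => ((S.filter fun x => π x = c).card : ℝ))
    rwa [card_univ] at this
  have h3 : ∑ c : G ⧸ K, ((S.filter fun x => π x = c).card : ℝ) ^ 2 =
      ∑ d : K, ((inter S (d : G)).card : ℝ) := by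
    have e1 : ∑ c : G ⧸ K, ((S.filter fun x => π x = c).card) ^ 2 =
        ((S ×ˢ S).filter fun z => π z.1 = π z.2).card := by
      rw [Finset.card_eq_sum_card_fiberwise (s := (S ×ˢ S).filter fun z => π z.1 = π z.2)
        (t := (univ : Finset (G ⧸ K))) (f := fun z => π z.1) (fun x _ => by simp)]
      apply Finset.sum_congr rfl
      intro c _
      rw [sq, ← Finset.card_product]
      congr 1
      ext z
      simp only [mem_product, mem_filter]
      constructor
      · rintro ⟨⟨h1, h2⟩, h3, h4⟩
        exact ⟨⟨⟨h1, h3⟩, h2.trans h4.symm⟩, h2⟩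
      · rintro ⟨⟨⟨h1, h3⟩, h4⟩, h2⟩
        exact ⟨⟨h1, h2⟩, h3, h4 ▸ h2⟩
    have e2 : ((S ×ˢ S).filter fun z => π z.1 = π z.2).card = ∑ d : K, (inter S (d : G)).card := by
      rw [← Finset.card_sigma]
      refine Finset.card_bij' (fun z hz => ⟨⟨-z.1 + z.2, ?_⟩, z.1⟩)
        (fun z _ => (z.2, z.2 + (z.1 : G))) ?_ ?_ ?_ ?_
      · exact QuotientAddGroup.eq.1 (mem_filter.1 hz).2
      · intro z hz
        have := mem_filter.1 hz
        rw [mem_sigma]
        refine ⟨mem_univ _, ?_⟩
        unfold inter
        rw [mem_filter]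
        refine ⟨(mem_product.1 this.1).1, ?_⟩
        simpa using (mem_product.1 this.1).2
      · intro z hz
        have h1 := (mem_sigma.1 hz).2
        unfold inter at h1
        rw [mem_filter] at h1
        rw [mem_filter, mem_product]
        refine ⟨h1, ?_⟩
        change (z.2 : G ⧸ K) = ((z.2 + (z.1 : G) : G) : G ⧸ K)
        rw [QuotientAddGroup.eq]
        simp
      · intro z hz
        simp
      · intro z hz
        ext <;> simp
    exact_mod_cast e1.trans e2
  rw [h3] at h2
  rw [hcard]
  have hK : (0 : ℝ) ≤ (Fintype.card K : ℝ) := Nat.cast_nonneg _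
  nlinarith [mul_le_mul_of_nonneg_right h2 hK]

/-- One step: if `S` has density at least `α` and few directions of `K` are forbidden, some
allowed direction `d ∈ K` keeps density `α² / 2`. -/
theorem cube_step {G : Type*} [AddCommGroup G] [Fintype G] [DecidableEq G] (S : Finset G)
    (K : AddSubgroup G) [Fintype K] {α : ℝ} (hα : 0 < α) (hS : α * Fintype.card G ≤ S.card)
    (bad : Finset K) (hbad : (bad.card : ℝ) ≤ α / 2 * Fintype.card K) :
    ∃ d : K, d ∉ bad ∧ α ^ 2 / 2 * Fintype.card G ≤ ((inter S (d : G)).card : ℝ) := by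
  classical
  by_contra hcon
  push Not at hcon
  have hG : (0 : ℝ) < Fintype.card G := by exact_mod_cast Fintype.card_pos
  have hK : (0 : ℝ) < Fintype.card K := by exact_mod_cast Fintype.card_pos
  have h0 := sum_inter S K
  have hSG : (S.card : ℝ) ≤ Fintype.card G := by exact_mod_cast card_le_univ S
  have hα1 : α ≤ 1 := by
    by_contra h
    push Not at h
    nlinarith
  have hgood : (univ.filter fun d : K => d ∉ bad).Nonempty := by
    by_contra h
    rw [not_nonempty_iff_eq_empty, filter_eq_empty_iff] at h
    push Not at h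
    have h2 : bad = univ := by ext d; simp [h (mem_univ d)]
    rw [h2, card_univ] at hbad
    nlinarith
  have h1 : ∑ d : K, ((inter S (d : G)).card : ℝ) <
      (bad.card : ℝ) * S.card + (Fintype.card K : ℝ) * (α ^ 2 / 2 * Fintype.card G) := by
    rw [← Finset.sum_filter_add_sum_filter_not univ (fun d => d ∈ bad)]
    apply add_lt_add_of_le_of_lt
    · have : (univ.filter fun d : K => d ∈ bad) = bad := by ext; simp
      rw [this, ← nsmul_eq_mul, ← Finset.sum_const]
      apply Finset.sum_le_sum
      intro d _
      exact_mod_cast Finset.card_filter_le _ _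
    · calc ∑ d ∈ univ.filter (fun d : K => d ∉ bad), ((inter S (d : G)).card : ℝ)
          < ∑ _d ∈ univ.filter (fun d : K => d ∉ bad), (α ^ 2 / 2 * Fintype.card G : ℝ) := by
            apply Finset.sum_lt_sum_of_nonempty hgood
            intro d hd
            exact hcon d (mem_filter.1 hd).2
        _ = ((univ.filter (fun d : K => d ∉ bad)).card : ℝ) * (α ^ 2 / 2 * Fintype.card G) := by
            rw [Finset.sum_const, nsmul_eq_mul]
        _ ≤ _ := by
            apply mul_le_mul_of_nonneg_right _ (by positivity)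
            exact_mod_cast (Finset.card_filter_le _ _).trans card_univ.le
  have hS0 : (0 : ℝ) < S.card := lt_of_lt_of_le (by positivity) hS
  have h2 : (bad.card : ℝ) * S.card ≤ α / 2 * Fintype.card K * S.card :=
    mul_le_mul_of_nonneg_right hbad hS0.le
  have h3 : (S.card : ℝ) ^ 2 * Fintype.card K < (Fintype.card G : ℝ) *
      (α / 2 * Fintype.card K * S.card + Fintype.card K * (α ^ 2 / 2 * Fintype.card G)) := by
    refine h0.trans_lt ?_
    apply mul_lt_mul_of_pos_left _ hG
    linarith
  have h4 : (S.card : ℝ) ^ 2 < (Fintype.card G : ℝ) *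
      (α / 2 * S.card + (α ^ 2 / 2 * Fintype.card G)) := by
    have h5 : (Fintype.card G : ℝ) *
      (α / 2 * Fintype.card K * S.card + Fintype.card K * (α ^ 2 / 2 * Fintype.card G)) =
      (Fintype.card G : ℝ) * (α / 2 * S.card + (α ^ 2 / 2 * Fintype.card G)) *
        Fintype.card K := by ring
    rw [h5] at h3
    exact lt_of_mul_lt_mul_right h3 hK.le
  -- with x = α |G| ≤ |S|
  have h6 : (Fintype.card G : ℝ) * (α / 2 * S.card + (α ^ 2 / 2 * Fintype.card G)) =
      (α * Fintype.card G) * S.card / 2 + (α * Fintype.card G) * (α * Fintype.card G) / 2 := by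
    ring
  rw [h6] at h4
  have hx0 : 0 < α * (Fintype.card G : ℝ) := by positivity
  generalize α * (Fintype.card G : ℝ) = x at *
  generalize (S.card : ℝ) = y at *
  nlinarith

end Pool.Agent.Lib.MP_0430e4_lc.Free
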