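import Mathlib
import Pool.Agent.Lib.MP_0430e4_lc.Free.Cube

/-!
# Codes with a free abelian group of automorphisms (helper91): linear forms, weights
-/

namespace Pool.Agent.Lib.MP_0430e4_lc.Free

open Finset Module

section forms

variable {k : Type*} [Field k] {m : ℕ} {κ : Type*}

/-- evaluation of a family of linear forms -/
def ev (d : κ → (Fin m → k)) (x : Fin m → k) : κ → k := fun i => d i ⬝ᵥ x

/-- evaluation as a linear map -/
def evL (d : κ → (Fin m → k)) : (Fin m → k) →ₗ[k] (κ → k) where
  toFun := ev d
  map_add' x y := by funext i; exact dotProduct_add _ _ _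
  map_smul' c x := by funext i; exact dotProduct_smul _ _ _

theorem ev_surjective [Fintype κ] {d : κ → (Fin m → k)} (hd : LinearIndependent k d) :
    Function.Surjective (ev d) := by
  classical
  have h1 : (Matrix.of d).rank = Fintype.card κ := LinearIndependent.rank_matrix hd
  rw [Matrix.rank] at h1
  have h2 : LinearMap.range (Matrix.of d).mulVecLin = ⊤ := by
    apply Submodule.eq_top_of_finrank_eq
    rw [h1]
    simp
  intro z
  have h3 : z ∈ LinearMap.range (Matrix.of d).mulVecLin := by rw [h2]; trivial
  obtain ⟨x, hx⟩ := h3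
  refine ⟨x, ?_⟩
  rw [← hx]
  rfl

/-- preimages under a surjective homomorphism -/
theorem card_preimage_hom {G H : Type*} [AddCommGroup G] [Fintype G] [AddCommGroup H] [Fintype H]
    [DecidableEq H] (φ : G →+ H) (hs : Function.Surjective φ) (T : Finset H) :
    (univ.filter fun x => φ x ∈ T).card * Fintype.card H = T.card * Fintype.card G := by
  classical
  have h1 : ∀ z : H, (univ.filter fun x => φ x = z).card =
      (univ.filter fun x => φ x = 0).card := by
    intro z
    exact AddMonoidHom.card_fiber_eq_of_mem_range φ (hs z) (hs 0)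
  have h2 : ∀ T : Finset H, (univ.filter fun x => φ x ∈ T).card =
      T.card * (univ.filter fun x => φ x = 0).card := by
    intro T
    rw [Finset.card_eq_sum_card_fiberwise (s := univ.filter fun x => φ x ∈ T) (t := T)
      (f := φ) (fun x hx => by simpa using hx)]
    rw [← smul_eq_mul, ← Finset.sum_const]
    apply Finset.sum_congr rfl
    intro z hz
    rw [← h1 z]
    congr 1
    ext x
    simp only [mem_filter, mem_univ, true_and]
    constructor
    · exact fun h => h.2
    · intro h; exact ⟨h ▸ hz, h⟩
  have h3 := h2 univ
  simp only [mem_univ, filter_true] at h3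
  rw [card_univ, card_univ] at h3
  rw [h2 T, h3]
  ring

/-- number of points where the values of independent forms lie in a given set -/
theorem card_ev_mem [Fintype k] [DecidableEq k] [Fintype κ] [DecidableEq κ]
    {d : κ → (Fin m → k)} (hd : LinearIndependent k d) (T : Finset (κ → k)) :
    (univ.filter fun x => ev d x ∈ T).card * Fintype.card (κ → k) =
      T.card * Fintype.card (Fin m → k) :=
  card_preimage_hom (evL d).toAddMonoidHom (ev_surjective hd) T

theorem card_span [Fintype k] {j : Type*} [Fintype j] {d : j → (Fin m → k)} (hd : LinearIndependent k d) :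
    Nat.card (Submodule.span k (Set.range d)) = (Fintype.card k) ^ (Fintype.card j) := by
  classical
  have : Fintype (Submodule.span k (Set.range d)) := Fintype.ofFinite _
  rw [Nat.card_eq_fintype_card, Module.card_eq_pow_finrank (K := k), finrank_span_eq_card hd]

end forms

section weight

variable {F : Type*} [Field F] {A : Type*} {ℓ : ℕ}

/-- the Hamming weight -/
noncomputable def wt (f : A → Fin ℓ → F) : ℕ := Set.ncard {q : A × Fin ℓ | f q.1 q.2 ≠ 0}

theorem wt_le [Fintype A] [DecidableEq A] (f : A → Fin ℓ → F) (T : Finset A)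
    (h : ∀ x, x ∉ T → f x = 0) : wt f ≤ ℓ * T.card := by
  classical
  have h1 : {q : A × Fin ℓ | f q.1 q.2 ≠ 0} ⊆ ((T ×ˢ (univ : Finset (Fin ℓ)) : Finset _) : Set _) := by
    intro q hq
    rw [mem_coe, mem_product]
    refine ⟨?_, mem_univ _⟩
    by_contra hT
    exact hq (by rw [h _ hT]; rfl)
  have h2 := Set.ncard_le_ncard h1 (Finset.finite_toSet _)
  rw [Set.ncard_coe_finset, card_product, card_univ, Fintype.card_fin] at h2
  unfold wt
  rw [mul_comm]
  exact h2

/-- invariance under translations -/
def Inv [AddCommGroup A] (C : Submodule F (A → Fin ℓ → F)) : Prop :=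
  ∀ a, ∀ f ∈ C, (fun x => f (x + a)) ∈ C

end weight

end Pool.Agent.Lib.MP_0430e4_lc.Free
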