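import Mathlib

/-!
# Codes with a free abelian group of automorphisms (helper91): the definitions of the statement
-/

namespace Pool.Agent.Lib.MP_0430e4_lc.Free

open Module

/-- `C` has rate at least `ε` and relative minimum distance at least `δ` -/
def Good {X : Type} [Fintype X] (ε δ : ℝ) (C : Submodule (ZMod 2) (X → ZMod 2)) : Prop :=
  ε * Fintype.card X ≤ finrank (ZMod 2) C ∧
    ∀ f ∈ C, f ≠ 0 → δ * Fintype.card X ≤ hammingNorm f

/-- `G` is an abelian group of permutations of the coordinates, no element of which except `1`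
fixes a coordinate, and which preserves `C` -/
structure FreeAbelian {X : Type} (G : Subgroup (Equiv.Perm X))
    (C : Submodule (ZMod 2) (X → ZMod 2)) : Prop where
  comm : ∀ g ∈ G, ∀ h ∈ G, g * h = h * g
  free : ∀ g ∈ G, g ≠ 1 → ∀ x, g x ≠ x
  aut : ∀ g ∈ G, ∀ f ∈ C, f ∘ g ∈ C

end Pool.Agent.Lib.MP_0430e4_lc.Free
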