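import Mathlib

/-!
# Codes with a free abelian group of automorphisms (helper91): expanding Cayley graphs of
logarithmic degree
-/

namespace Pool.Agent.Lib.MP_0430e4_lc.Free

open Finset

section expo

variable {A : Type*} [AddCommGroup A] [Fintype A]

theorem norm_chi (χ : AddChar A ℂ) (a : A) : ‖χ a‖ = 1 := AddChar.norm_apply χ a

/-- convexity -/
theorem exp_le_chord {θ y : ℝ} (hy : |y| ≤ 1) :
    Real.exp (θ * y) ≤ Real.cosh θ + y * Real.sinh θ := by
  have hy' := abs_le.1 hy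
  have h := convexOn_exp.2 (Set.mem_univ θ) (Set.mem_univ (-θ))
    (show (0 : ℝ) ≤ (1 + y) / 2 by linarith) (show (0 : ℝ) ≤ (1 - y) / 2 by linarith)
    (by ring)
  simp only [smul_eq_mul] at h
  have e1 : (1 + y) / 2 * θ + (1 - y) / 2 * -θ = θ * y := by ring
  rw [e1] at h
  refine h.trans (le_of_eq ?_)
  rw [Real.cosh_eq, Real.sinh_eq]
  ring

omit [AddCommGroup A] in
theorem sum_exp_le {Y : A → ℝ} (hY : ∀ a, |Y a| ≤ 1) (hY0 : ∑ a, Y a = 0) (θ : ℝ) :
    ∑ a, Real.exp (θ * Y a) ≤ Fintype.card A * Real.exp (θ ^ 2 / 2) := by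
  calc ∑ a, Real.exp (θ * Y a) ≤ ∑ a, (Real.cosh θ + Y a * Real.sinh θ) :=
        Finset.sum_le_sum fun a _ => exp_le_chord (hY a)
    _ = Fintype.card A * Real.cosh θ := by
        rw [Finset.sum_add_distrib, ← Finset.sum_mul, hY0, zero_mul, add_zero, Finset.sum_const,
          card_univ, nsmul_eq_mul]
    _ ≤ _ := mul_le_mul_of_nonneg_left (Real.cosh_le_exp_half_sq θ) (Nat.cast_nonneg _)

omit [AddCommGroup A] in
/-- large deviations -/
theorem deviation {Y : A → ℝ} (hY : ∀ a, |Y a| ≤ 1) (hY0 : ∑ a, Y a = 0) {μ : ℝ}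
    (hμ : 0 < μ) (ℓ : ℕ) :
    ((univ.filter fun s : Fin ℓ → A => μ * ℓ < ∑ i, Y (s i)).card : ℝ) * Real.exp (μ ^ 2 * ℓ / 2) ≤
      (Fintype.card A : ℝ) ^ ℓ := by
  classical
  have h1 : ∑ s : Fin ℓ → A, ∏ i, Real.exp (μ * Y (s i)) =
      (∑ a, Real.exp (μ * Y a)) ^ ℓ := by
    have h2 := Finset.prod_univ_sum (fun _ : Fin ℓ => (univ : Finset A))
      (fun _ a => Real.exp (μ * Y a))
    rw [Fintype.piFinset_univ] at h2
    rw [← h2, Finset.prod_const, card_univ, Fintype.card_fin]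
  have h2 : ∑ s : Fin ℓ → A, ∏ i, Real.exp (μ * Y (s i)) ≤
      (Fintype.card A : ℝ) ^ ℓ * Real.exp (μ ^ 2 * ℓ / 2) := by
    rw [h1]
    calc (∑ a, Real.exp (μ * Y a)) ^ ℓ ≤ (Fintype.card A * Real.exp (μ ^ 2 / 2)) ^ ℓ :=
          pow_le_pow_left₀ (Finset.sum_nonneg fun a _ => (Real.exp_pos _).le)
            (sum_exp_le hY hY0 μ) ℓ
      _ = (Fintype.card A : ℝ) ^ ℓ * Real.exp (μ ^ 2 * ℓ / 2) := by
          rw [mul_pow, ← Real.exp_nat_mul]
          congr 2
          ring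
  have h3 : ((univ.filter fun s : Fin ℓ → A => μ * ℓ < ∑ i, Y (s i)).card : ℝ) *
      Real.exp (μ ^ 2 * ℓ) ≤ ∑ s : Fin ℓ → A, ∏ i, Real.exp (μ * Y (s i)) := by
    rw [← nsmul_eq_mul, ← Finset.sum_const]
    calc ∑ _s ∈ univ.filter (fun s : Fin ℓ → A => μ * ℓ < ∑ i, Y (s i)), Real.exp (μ ^ 2 * ℓ)
        ≤ ∑ s ∈ univ.filter (fun s : Fin ℓ → A => μ * ℓ < ∑ i, Y (s i)),
            ∏ i, Real.exp (μ * Y (s i)) := by
          apply Finset.sum_le_sum
          intro s hs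
          rw [← Real.exp_sum, Real.exp_le_exp, ← Finset.mul_sum]
          have := (mem_filter.1 hs).2
          nlinarith
      _ ≤ _ := Finset.sum_le_sum_of_subset_of_nonneg (filter_subset _ _)
          (fun s _ _ => Finset.prod_nonneg fun i _ => (Real.exp_pos _).le)
  have h4 := h3.trans h2
  have h5 : Real.exp (μ ^ 2 * ℓ) = Real.exp (μ ^ 2 * ℓ / 2) * Real.exp (μ ^ 2 * ℓ / 2) := by
    rw [← Real.exp_add]; congr 1; ring
  rw [h5, ← mul_assoc] at h4
  exact le_of_mul_le_mul_right h4 (Real.exp_pos _)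

theorem sq_le_of_re_im {z : ℂ} {r lam : ℝ} (hlam : 2 * r ^ 2 ≤ lam ^ 2) (hl : 0 ≤ lam)
    (h : ∀ u ∈ ({1, -1, Complex.I, -Complex.I} : Finset ℂ), (u * z).re ≤ r) : ‖z‖ ≤ lam := by
  have h1 := h 1 (by simp)
  have h2 := h (-1) (by simp)
  have h3 := h Complex.I (by simp)
  have h4 := h (-Complex.I) (by simp)
  simp only [one_mul, neg_mul, Complex.neg_re, Complex.mul_re, Complex.I_re, Complex.I_im,
    zero_mul, zero_sub] at h1 h2 h3 h4
  have h5 : ‖z‖ ^ 2 ≤ lam ^ 2 := by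
    rw [← Complex.normSq_eq_norm_sq, Complex.normSq_apply]
    nlinarith
  exact (pow_le_pow_iff_left₀ (norm_nonneg _) hl (by norm_num)).1 h5

/-- **Expanding Cayley graphs of logarithmic degree** (Alon–Roichman). -/
theorem exists_expander {lam : ℝ} (hlam : 0 < lam) (ℓ : ℕ) (hℓ : 1 ≤ ℓ)
    (h : 18 / lam ^ 2 * Real.log (Fintype.card A) ≤ ℓ) :
    ∃ s : Fin ℓ → A, ∀ χ : AddChar A ℂ, χ ≠ 0 → ‖∑ i, χ (s i)‖ ≤ lam * ℓ := by
  classical
  by_cases hA : Fintype.card A = 1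
  · refine ⟨fun _ => 0, ?_⟩
    intro χ hχ
    exfalso
    apply hχ
    have hs : Subsingleton A := Fintype.card_le_one_iff_subsingleton.1 hA.le
    ext a
    rw [Subsingleton.elim a 0, AddChar.map_zero_eq_one, AddChar.map_zero_eq_one]
  have hA2 : 2 ≤ Fintype.card A := by
    have : 0 < Fintype.card A := Fintype.card_pos
    omega
  set μ : ℝ := 2 * lam / 3 with hμ
  have hμ0 : 0 < μ := by positivity
  let U : Finset ℂ := {1, -1, Complex.I, -Complex.I}
  have hU : U.card ≤ 4 := Finset.card_le_four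
  have hUn : ∀ u ∈ U, ‖u‖ = 1 := by
    intro u hu
    simp only [U, mem_insert, mem_singleton] at hu
    rcases hu with rfl | rfl | rfl | rfl <;> simp
  let Y (u : ℂ) (χ : AddChar A ℂ) (a : A) : ℝ := (u * χ a).re
  have hY : ∀ u ∈ U, ∀ χ a, |Y u χ a| ≤ 1 := by
    intro u hu χ a
    refine (Complex.abs_re_le_norm _).trans ?_
    rw [norm_mul, hUn u hu, norm_chi, one_mul]
  have hY0 : ∀ u, ∀ χ : AddChar A ℂ, χ ≠ 0 → ∑ a, Y u χ a = 0 := by
    intro u χ hχ
    simp only [Y]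
    rw [← Complex.re_sum, ← Finset.mul_sum, AddChar.sum_eq_zero_iff_ne_zero.2 hχ, mul_zero,
      Complex.zero_re]
  let bad : Finset (Fin ℓ → A) := ((univ.filter fun χ : AddChar A ℂ => χ ≠ 0) ×ˢ U).biUnion
    fun q => univ.filter fun s : Fin ℓ → A => μ * ℓ < ∑ i, Y q.2 q.1 (s i)
  have hbad : (bad.card : ℝ) * Real.exp (μ ^ 2 * ℓ / 2) ≤
      4 * Fintype.card A * (Fintype.card A : ℝ) ^ ℓ := by
    have h1 : (bad.card : ℝ) ≤ ∑ q ∈ (univ.filter fun χ : AddChar A ℂ => χ ≠ 0) ×ˢ U,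
        ((univ.filter fun s : Fin ℓ → A => μ * ℓ < ∑ i, Y q.2 q.1 (s i)).card : ℝ) := by
      exact_mod_cast card_biUnion_le
    calc (bad.card : ℝ) * Real.exp (μ ^ 2 * ℓ / 2)
        ≤ (∑ q ∈ (univ.filter fun χ : AddChar A ℂ => χ ≠ 0) ×ˢ U,
          ((univ.filter fun s : Fin ℓ → A => μ * ℓ < ∑ i, Y q.2 q.1 (s i)).card : ℝ)) *
          Real.exp (μ ^ 2 * ℓ / 2) := mul_le_mul_of_nonneg_right h1 (Real.exp_pos _).le
      _ = ∑ q ∈ (univ.filter fun χ : AddChar A ℂ => χ ≠ 0) ×ˢ U,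
          ((univ.filter fun s : Fin ℓ → A => μ * ℓ < ∑ i, Y q.2 q.1 (s i)).card : ℝ) *
          Real.exp (μ ^ 2 * ℓ / 2) := by rw [Finset.sum_mul]
      _ ≤ ∑ _q ∈ (univ.filter fun χ : AddChar A ℂ => χ ≠ 0) ×ˢ U, (Fintype.card A : ℝ) ^ ℓ := by
          apply Finset.sum_le_sum
          intro q hq
          rw [mem_product, mem_filter] at hq
          exact deviation (hY q.2 hq.2 q.1) (hY0 q.2 q.1 hq.1.2) hμ0 ℓ
      _ = (((univ.filter fun χ : AddChar A ℂ => χ ≠ 0).card * U.card : ℕ) : ℝ) *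
          (Fintype.card A : ℝ) ^ ℓ := by
          rw [Finset.sum_const, card_product, nsmul_eq_mul]
      _ ≤ 4 * Fintype.card A * (Fintype.card A : ℝ) ^ ℓ := by
          apply mul_le_mul_of_nonneg_right _ (by positivity)
          have h2 : (univ.filter fun χ : AddChar A ℂ => χ ≠ 0).card ≤ Fintype.card A := by
            rw [← AddChar.card_eq (α := A)]
            exact card_le_univ _
          have h3 : (univ.filter fun χ : AddChar A ℂ => χ ≠ 0).card * U.card ≤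
              4 * Fintype.card A := by
            calc _ ≤ Fintype.card A * 4 := Nat.mul_le_mul h2 hU
              _ = _ := mul_comm _ _
          exact_mod_cast h3
  have hbig : 4 * (Fintype.card A : ℝ) < Real.exp (μ ^ 2 * ℓ / 2) := by
    have hA2' : (2 : ℝ) ≤ Fintype.card A := by exact_mod_cast hA2
    have hlog2 : 0 < Real.log 2 := Real.log_pos (by norm_num)
    have h1 : Real.log (4 * (Fintype.card A : ℝ)) ≤ 3 * Real.log (Fintype.card A) := by
      rw [Real.log_mul (by norm_num) (by positivity), show (4 : ℝ) = 2 ^ 2 by norm_num,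
        Real.log_pow]
      have h2 := Real.log_le_log (by norm_num) hA2'
      push_cast
      linarith
    rw [← Real.log_lt_iff_lt_exp (by positivity)]
    have h2 : μ ^ 2 * ℓ / 2 ≥ 4 * Real.log (Fintype.card A) := by
      have h3 : (18 / lam ^ 2 * Real.log (Fintype.card A)) * (μ ^ 2 / 2) ≤ ℓ * (μ ^ 2 / 2) :=
        mul_le_mul_of_nonneg_right h (by positivity)
      have h4 : (18 / lam ^ 2 * Real.log (Fintype.card A)) * (μ ^ 2 / 2) =
          4 * Real.log (Fintype.card A) := by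
        rw [hμ]; field_simp; ring
      rw [h4] at h3
      linarith
    have h3 : 0 < Real.log (Fintype.card A) := Real.log_pos (by linarith)
    linarith
  have hlt : bad.card < Fintype.card (Fin ℓ → A) := by
    have hA0 : (0 : ℝ) < (Fintype.card A : ℝ) ^ ℓ := by
      have : (0 : ℝ) < Fintype.card A := by exact_mod_cast (by omega : 0 < Fintype.card A)
      positivity
    have h1 : (bad.card : ℝ) < (Fintype.card A : ℝ) ^ ℓ := by
      by_contra hcon
      push Not at hcon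
      have h2 : (Fintype.card A : ℝ) ^ ℓ * Real.exp (μ ^ 2 * ℓ / 2) ≤
          4 * Fintype.card A * (Fintype.card A : ℝ) ^ ℓ :=
        (mul_le_mul_of_nonneg_right hcon (Real.exp_pos _).le).trans hbad
      have h3 : (Fintype.card A : ℝ) ^ ℓ * (4 * (Fintype.card A : ℝ)) <
          (Fintype.card A : ℝ) ^ ℓ * Real.exp (μ ^ 2 * ℓ / 2) := mul_lt_mul_of_pos_left hbig hA0
      linarith
    rw [Fintype.card_fun, Fintype.card_fin]
    exact_mod_cast h1
  obtain ⟨s, hs⟩ : ∃ s, s ∉ bad := by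
    by_contra hcon
    push Not at hcon
    have : bad = univ := Finset.eq_univ_iff_forall.2 hcon
    rw [this, card_univ] at hlt
    exact lt_irrefl _ hlt
  refine ⟨s, ?_⟩
  intro χ hχ
  have hℓ0 : (0 : ℝ) ≤ ℓ := Nat.cast_nonneg _
  apply sq_le_of_re_im (r := μ * ℓ)
  · rw [hμ]
    have : 0 ≤ (lam * ℓ) ^ 2 := sq_nonneg _
    nlinarith
  · positivity
  · intro u hu
    have h1 : (χ, u) ∈ (univ.filter fun χ : AddChar A ℂ => χ ≠ 0) ×ˢ U := by
      rw [mem_product, mem_filter]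
      exact ⟨⟨mem_univ _, hχ⟩, hu⟩
    have h2 : ¬ μ * ℓ < ∑ i, Y u χ (s i) := by
      intro h3
      apply hs
      rw [mem_biUnion]
      exact ⟨_, h1, mem_filter.2 ⟨mem_univ _, h3⟩⟩
    push Not at h2
    rw [Finset.mul_sum, Complex.re_sum]
    exact h2

end expo

end Pool.Agent.Lib.MP_0430e4_lc.Free
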