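import Mathlib
import Pool.Agent.Lib.MP_0430e4_lc.Free.Basic

/-!
# Codes with a free abelian group of automorphisms (helper91): elementary abelian groups of odd order
-/

namespace Pool.Agent.Lib.MP_0430e4_lc.Free

open Finset Module

section odd

variable {p : ℕ} [Fact p.Prime] {F : Type*} [Field F] {ζ : F} {m ℓ : ℕ}

/-- the character `t ↦ ζ ^ t` -/
noncomputable def psi (hζ : IsPrimitiveRoot ζ p) : AddChar (ZMod p) F :=
  AddChar.zmodChar p hζ.pow_eq_one

theorem psi_eq_one (hζ : IsPrimitiveRoot ζ p) {t : ZMod p} : psi hζ t = 1 ↔ t = 0 := by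
  unfold psi
  rw [AddChar.zmodChar_apply, hζ.pow_eq_one_iff_dvd]
  constructor
  · intro h
    rw [← ZMod.val_eq_zero]
    exact Nat.eq_zero_of_dvd_of_lt h (ZMod.val_lt t)
  · rintro rfl
    simp

theorem psi_ne_zero (hζ : IsPrimitiveRoot ζ p) (t : ZMod p) : psi hζ t ≠ 0 := by
  unfold psi
  rw [AddChar.zmodChar_apply]
  exact pow_ne_zero _ (hζ.ne_zero (Fact.out : p.Prime).ne_zero)

theorem sum_psi (hζ : IsPrimitiveRoot ζ p) (y : Fin m → ZMod p) :
    ∑ b : Fin m → ZMod p, psi hζ (b ⬝ᵥ y) = if y = 0 then (p : F) ^ m else 0 := by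
  split_ifs with h
  · subst h
    simp [ZMod.card]
  · obtain ⟨i, hi⟩ := Function.ne_iff.1 h
    have h1 : psi hζ ((Pi.single i (1 : ZMod p)) ⬝ᵥ y) ≠ 1 := by
      rw [Ne, psi_eq_one]
      simpa using hi
    have h2 : psi hζ ((Pi.single i (1 : ZMod p)) ⬝ᵥ y) *
        ∑ b : Fin m → ZMod p, psi hζ (b ⬝ᵥ y) = ∑ b : Fin m → ZMod p, psi hζ (b ⬝ᵥ y) := by
      rw [mul_sum]
      conv_rhs => rw [← Equiv.sum_comp (Equiv.addLeft (Pi.single i (1 : ZMod p)))]
      apply Finset.sum_congr rfl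
      intro b _
      rw [Equiv.coe_addLeft, add_dotProduct, AddChar.map_add_eq_mul]
    have h3 : (psi hζ ((Pi.single i (1 : ZMod p)) ⬝ᵥ y) - 1) *
        ∑ b : Fin m → ZMod p, psi hζ (b ⬝ᵥ y) = 0 := by
      rw [sub_mul, h2, one_mul, sub_self]
    rcases mul_eq_zero.1 h3 with h4 | h4
    · exact absurd (sub_eq_zero.1 h4) h1
    · exact h4

/-- the isotypic part of a code at the character `b` -/
noncomputable def Vb (hζ : IsPrimitiveRoot ζ p) (C : Submodule F ((Fin m → ZMod p) → Fin ℓ → F))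
    (b : Fin m → ZMod p) : Submodule F (Fin ℓ → F) where
  carrier := {v | (fun x => psi hζ (b ⬝ᵥ x) • v) ∈ C}
  add_mem' {u v} hu hv := by
    have : (fun x => psi hζ (b ⬝ᵥ x) • (u + v)) =
        (fun x => psi hζ (b ⬝ᵥ x) • u) + (fun x => psi hζ (b ⬝ᵥ x) • v) := by
      funext x; exact smul_add _ _ _
    rw [Set.mem_ofPred_eq, this]
    exact C.add_mem hu hv
  zero_mem' := by
    have : (fun x : Fin m → ZMod p => psi hζ (b ⬝ᵥ x) • (0 : Fin ℓ → F)) = 0 := by
      funext x; exact smul_zero _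
    rw [Set.mem_ofPred_eq, this]
    exact C.zero_mem
  smul_mem' c v hv := by
    have : (fun x => psi hζ (b ⬝ᵥ x) • (c • v)) = c • (fun x => psi hζ (b ⬝ᵥ x) • v) := by
      funext x; exact smul_comm _ _ _
    rw [Set.mem_ofPred_eq, this]
    exact C.smul_mem c hv

theorem mem_Vb {hζ : IsPrimitiveRoot ζ p} {C : Submodule F ((Fin m → ZMod p) → Fin ℓ → F)}
    {b : Fin m → ZMod p} {v : Fin ℓ → F} :
    v ∈ Vb hζ C b ↔ (fun x => psi hζ (b ⬝ᵥ x) • v) ∈ C := Iff.rfl

/-- the Fourier coefficients -/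
noncomputable def hatL (hζ : IsPrimitiveRoot ζ p) (b : Fin m → ZMod p) :
    ((Fin m → ZMod p) → Fin ℓ → F) →ₗ[F] (Fin ℓ → F) :=
  ∑ a : Fin m → ZMod p, psi hζ (-(b ⬝ᵥ a)) • LinearMap.proj a

theorem hatL_apply (hζ : IsPrimitiveRoot ζ p) (b : Fin m → ZMod p)
    (f : (Fin m → ZMod p) → Fin ℓ → F) :
    hatL hζ b f = ∑ a : Fin m → ZMod p, psi hζ (-(b ⬝ᵥ a)) • f a := by
  unfold hatL
  rw [LinearMap.sum_apply]
  rfl

theorem hatL_mem (hζ : IsPrimitiveRoot ζ p) {C : Submodule F ((Fin m → ZMod p) → Fin ℓ → F)}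
    (hC : Inv C) (b : Fin m → ZMod p) {f : (Fin m → ZMod p) → Fin ℓ → F} (hf : f ∈ C) :
    hatL hζ b f ∈ Vb hζ C b := by
  rw [mem_Vb]
  have h1 : (fun x => psi hζ (b ⬝ᵥ x) • hatL hζ b f) =
      ∑ a : Fin m → ZMod p, psi hζ (-(b ⬝ᵥ a)) • (fun x => f (x + a)) := by
    funext x
    rw [hatL_apply, Finset.sum_apply, Finset.smul_sum]
    rw [← Equiv.sum_comp (Equiv.addLeft x)]
    apply Finset.sum_congr rfl
    intro a _
    rw [Equiv.coe_addLeft, smul_smul, ← AddChar.map_add_eq_mul]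
    change _ = psi hζ (-(b ⬝ᵥ a)) • f (x + a)
    congr 2
    rw [dotProduct_add]
    ring
  rw [h1]
  exact C.sum_mem fun a _ => C.smul_mem _ (hC a f hf)

theorem inversion (hζ : IsPrimitiveRoot ζ p) (f : (Fin m → ZMod p) → Fin ℓ → F)
    (x : Fin m → ZMod p) :
    ∑ b : Fin m → ZMod p, psi hζ (b ⬝ᵥ x) • hatL hζ b f = ((p : F) ^ m) • f x := by
  simp only [hatL_apply, Finset.smul_sum]
  rw [Finset.sum_comm]
  have h1 : ∀ a : Fin m → ZMod p, ∑ b : Fin m → ZMod p,
      psi hζ (b ⬝ᵥ x) • psi hζ (-(b ⬝ᵥ a)) • f a = (if x - a = 0 then (p : F) ^ m else 0) • f a := by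
    intro a
    rw [← sum_psi hζ (x - a), Finset.sum_smul]
    apply Finset.sum_congr rfl
    intro b _
    rw [smul_smul, ← AddChar.map_add_eq_mul]
    congr 2
    rw [dotProduct_sub]
    ring
  simp only [h1]
  rw [Finset.sum_eq_single x]
  · rw [sub_self, if_pos rfl]
  · intro a _ ha
    rw [if_neg (sub_ne_zero.2 (Ne.symm ha)), zero_smul]
  · intro h; exact absurd (mem_univ x) h

theorem finrank_le_sum_Vb (hζ : IsPrimitiveRoot ζ p)
    {C : Submodule F ((Fin m → ZMod p) → Fin ℓ → F)} (hC : Inv C) :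
    finrank F C ≤ ∑ b : Fin m → ZMod p, finrank F (Vb hζ C b) := by
  have hp0 : (p : F) ≠ 0 := by
    have := hζ.neZero'
    exact this.ne
  let Φ : C →ₗ[F] (∀ b : Fin m → ZMod p, Vb hζ C b) :=
    LinearMap.pi fun b => ((hatL hζ b).comp C.subtype).codRestrict (Vb hζ C b)
      (fun f => hatL_mem hζ hC b f.2)
  have hΦ : Function.Injective Φ := by
    rw [← LinearMap.ker_eq_bot, LinearMap.ker_eq_bot']
    intro f hf
    have h1 : ∀ b, hatL hζ b (f : (Fin m → ZMod p) → Fin ℓ → F) = 0 := by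
      intro b
      have := congrFun hf b
      exact congrArg Subtype.val this
    apply Subtype.ext
    funext x
    have h2 := inversion hζ (f : (Fin m → ZMod p) → Fin ℓ → F) x
    simp only [h1, smul_zero, Finset.sum_const_zero] at h2
    have h3 := smul_eq_zero.1 h2.symm
    rcases h3 with h3 | h3
    · exact absurd h3 (pow_ne_zero _ hp0)
    · exact h3
  have h4 := LinearMap.finrank_le_finrank_of_injective hΦ
  rwa [finrank_pi_fintype] at h4

/-- multiplication of a word by `1 - χ` -/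
theorem core_odd_aux (hζ : IsPrimitiveRoot ζ p)
    {C : Submodule F ((Fin m → ZMod p) → Fin ℓ → F)} (v : Fin ℓ → F)
    (S : Finset (Fin m → ZMod p)) (hS : ∀ b ∈ S, v ∈ Vb hζ C b) {α : ℝ} (hα : 0 < α)
    (hSα : α * (p : ℝ) ^ m ≤ S.card) (k : ℕ) :
    ∀ j : ℕ, j ≤ k → ((p : ℝ) ^ k ≤ (α / 2) ^ (2 ^ k) * (p : ℝ) ^ m) → ∃ (d : Fin j → (Fin m → ZMod p)) (T : Finset (Fin m → ZMod p)),
      LinearIndependent (ZMod p) d ∧ 2 * (α / 2) ^ (2 ^ j) * (p : ℝ) ^ m ≤ T.card ∧
      ∀ b ∈ T, (fun x => (psi hζ (b ⬝ᵥ x) * ∏ i, (1 - psi hζ (d i ⬝ᵥ x))) • v) ∈ C := by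
  classical
  have hp1 : (1 : ℝ) ≤ p := by exact_mod_cast (Fact.out : p.Prime).one_lt.le
  have hcard : (Fintype.card (Fin m → ZMod p) : ℝ) = (p : ℝ) ^ m := by
    rw [Fintype.card_fun, Fintype.card_fin, ZMod.card]; push_cast; rfl
  have hα1 : α ≤ 1 := by
    have h1 : (S.card : ℝ) ≤ (p : ℝ) ^ m := by
      rw [← hcard]; exact_mod_cast card_le_univ S
    have h2 : (0 : ℝ) < (p : ℝ) ^ m := by positivity
    by_contra h
    push Not at h
    nlinarith
  intro j
  induction j with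
  | zero =>
    intro _ _
    refine ⟨Fin.elim0, S, linearIndependent_empty_type, ?_, ?_⟩
    · rw [pow_zero, pow_one]
      calc 2 * (α / 2) * (p : ℝ) ^ m = α * (p : ℝ) ^ m := by ring
        _ ≤ _ := hSα
    · intro b hb
      simp only [univ_eq_empty, prod_empty, mul_one]
      exact hS b hb
  | succ j ih =>
    intro hj hk
    obtain ⟨d, T, hd, hT, hw⟩ := ih (by omega) hk
    set αj : ℝ := 2 * (α / 2) ^ (2 ^ j) with hαj
    have hαj0 : 0 < αj := by positivity
    let K : AddSubgroup (Fin m → ZMod p) := ⊤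
    have hfK : Fintype K := Fintype.ofFinite _
    have hKcard : (Fintype.card K : ℝ) = (p : ℝ) ^ m := by
      rw [← hcard, ← Nat.card_eq_fintype_card, ← Nat.card_eq_fintype_card]
      congr 1
      exact Nat.card_congr AddSubgroup.topEquiv.toEquiv
    let bad : Finset K := univ.filter fun x => (x : Fin m → ZMod p) ∈
      Submodule.span (ZMod p) (Set.range d)
    have hbad : (bad.card : ℝ) ≤ αj / 2 * Fintype.card K := by
      have h1 : bad.card ≤ p ^ j := by
        have h2 := card_span hd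
        rw [ZMod.card, Fintype.card_fin] at h2
        have h3 := Nat.card_le_card_of_injective
          (fun x : bad => (⟨((x : K) : Fin m → ZMod p), (mem_filter.1 x.2).2⟩ :
            Submodule.span (ZMod p) (Set.range d))) (by
              intro x y hxy
              have h4 := congrArg (fun z : Submodule.span (ZMod p) (Set.range d) =>
                (z : Fin m → ZMod p)) hxy
              exact Subtype.ext (Subtype.ext h4))
        rw [Nat.card_eq_fintype_card, Fintype.card_coe, h2] at h3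
        exact h3
      have h3 : (bad.card : ℝ) ≤ (p : ℝ) ^ k := by
        calc (bad.card : ℝ) ≤ (p : ℝ) ^ j := by exact_mod_cast h1
          _ ≤ _ := pow_le_pow_right₀ hp1 (by omega)
      refine h3.trans (hk.trans ?_)
      rw [hKcard, hαj]
      have h4 : (α / 2) ^ (2 ^ k) ≤ (α / 2) ^ (2 ^ j) :=
        pow_le_pow_of_le_one (by positivity) (by linarith) (Nat.pow_le_pow_right (by norm_num) (by omega))
      have h5 : (0 : ℝ) ≤ (p : ℝ) ^ m := by positivity
      calc (α / 2) ^ 2 ^ k * (p : ℝ) ^ m ≤ (α / 2) ^ (2 ^ j) * (p : ℝ) ^ m :=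
            mul_le_mul_of_nonneg_right h4 h5
        _ = _ := by ring
    obtain ⟨d', hd', hT'⟩ := cube_step T K hαj0 (by rw [hcard]; exact hT) bad hbad
    have hd'n : (d' : Fin m → ZMod p) ∉ Submodule.span (ZMod p) (Set.range d) := by
      intro h; exact hd' (by simp [bad, h])
    refine ⟨Fin.snoc d (d' : Fin m → ZMod p), inter T (d' : Fin m → ZMod p),
      linearIndependent_finSnoc.2 ⟨hd, hd'n⟩, ?_, ?_⟩
    · rw [hcard] at hT'
      refine le_trans (le_of_eq ?_) hT'
      rw [hαj]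
      ring
    · intro b hb
      unfold inter at hb
      rw [mem_filter] at hb
      have h1 := C.sub_mem (hw b hb.1) (hw _ hb.2)
      convert h1 using 1
      funext x
      rw [Fin.prod_univ_castSucc]
      simp only [Fin.snoc_castSucc, Fin.snoc_last, Pi.sub_apply]
      rw [← sub_smul, add_dotProduct, AddChar.map_add_eq_mul]
      congr 1
      ring

/-- **Core, odd case.** A translation-invariant code over `F ∋ ζ_p` on `(Z/p)^m × [ℓ]` of rate at
least `ε` contains a word of relative weight at most `((p-1)/p)^k` as soon as `ℓ` is small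
compared with `m`. -/
theorem core_odd [Fintype F] (hζ : IsPrimitiveRoot ζ p)
    {C : Submodule F ((Fin m → ZMod p) → Fin ℓ → F)} (hC : Inv C) (hℓ : 1 ≤ ℓ) {ε : ℝ}
    (hε : 0 < ε) (hrate : ε * (ℓ * (p : ℝ) ^ m) ≤ finrank F C) (k : ℕ)
    (hk : (p : ℝ) ^ k ≤ (ε / (Fintype.card F : ℝ) ^ ℓ / 2) ^ (2 ^ k) * (p : ℝ) ^ m) :
    ∃ f ∈ C, f ≠ 0 ∧ wt f * p ^ k ≤ ℓ * ((p - 1) ^ k * p ^ m) := by
  classical
  have hF1 : (0 : ℝ) < (Fintype.card F : ℝ) ^ ℓ := by
    have : 0 < Fintype.card F := Fintype.card_pos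
    positivity
  have hpm : (0 : ℝ) < (p : ℝ) ^ m := by
    have : (0 : ℝ) < p := by exact_mod_cast (Fact.out : p.Prime).pos
    positivity
  -- the characters which occur
  let T : Finset (Fin m → ZMod p) := univ.filter fun b => Vb hζ C b ≠ ⊥
  have hT : ε * (p : ℝ) ^ m ≤ T.card := by
    have h1 := finrank_le_sum_Vb hζ hC
    have h2 : ∑ b : Fin m → ZMod p, finrank F (Vb hζ C b) ≤ T.card * ℓ := by
      rw [← Finset.sum_filter_add_sum_filter_not univ (fun b => Vb hζ C b ≠ ⊥)]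
      have h3 : ∑ b ∈ univ.filter (fun b => ¬ Vb hζ C b ≠ ⊥), finrank F (Vb hζ C b) = 0 := by
        apply Finset.sum_eq_zero
        intro b hb
        have := (mem_filter.1 hb).2
        push Not at this
        rw [this, finrank_bot]
      rw [h3, add_zero, ← smul_eq_mul, ← Finset.sum_const]
      apply Finset.sum_le_sum
      intro b _
      have := Submodule.finrank_le (Vb hζ C b)
      simpa using this
    have h4 : ε * (ℓ * (p : ℝ) ^ m) ≤ T.card * ℓ :=
      hrate.trans (by exact_mod_cast h1.trans h2)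
    have hℓ0 : (0 : ℝ) < ℓ := by exact_mod_cast hℓ
    have h5 : (ε * (p : ℝ) ^ m) * ℓ ≤ T.card * ℓ := by linarith
    exact le_of_mul_le_mul_right h5 hℓ0
  have hTne : ∀ b : Fin m → ZMod p, ∃ v : Fin ℓ → F, b ∈ T → v ∈ Vb hζ C b ∧ v ≠ 0 := by
    intro b
    by_cases hb : b ∈ T
    · obtain ⟨v, hv, hv0⟩ := Submodule.exists_mem_ne_zero_of_ne_bot (mem_filter.1 hb).2
      exact ⟨v, fun _ => ⟨hv, hv0⟩⟩
    · exact ⟨0, fun h => absurd h hb⟩
  choose g hg using hTne
  obtain ⟨v, -, hv⟩ := Finset.exists_le_card_fiber_of_nsmul_le_card_of_maps_to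
    (s := T) (t := (univ : Finset (Fin ℓ → F))) (f := g)
    (b := ε / (Fintype.card F : ℝ) ^ ℓ * (p : ℝ) ^ m)
    (fun _ _ => mem_univ _) univ_nonempty (by
      rw [card_univ, Fintype.card_fun, Fintype.card_fin, nsmul_eq_mul]
      push_cast
      refine le_trans (le_of_eq ?_) hT
      field_simp)
  have hα : 0 < ε / (Fintype.card F : ℝ) ^ ℓ := by positivity
  have hne : (T.filter fun b => g b = v).Nonempty := by
    rw [← card_pos]
    have : (0 : ℝ) < ((T.filter fun b => g b = v).card : ℝ) := lt_of_lt_of_le (by positivity) hv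
    exact_mod_cast this
  have hv0 : v ≠ 0 := by
    obtain ⟨b, hb⟩ := hne
    rw [mem_filter] at hb
    rw [← hb.2]
    exact (hg b hb.1).2
  obtain ⟨d, S, hd, hS, hw⟩ := core_odd_aux hζ v (T.filter fun b => g b = v) (by
    intro b hb
    rw [mem_filter] at hb
    rw [← hb.2]
    exact (hg b hb.1).1) hα hv k k le_rfl hk
  have hSne : S.Nonempty := by
    rw [← card_pos]
    have : (0 : ℝ) < (S.card : ℝ) := lt_of_lt_of_le (by positivity) hS
    exact_mod_cast this
  obtain ⟨b, hb⟩ := hSne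
  refine ⟨_, hw b hb, ?_, ?_⟩
  · obtain ⟨x, hx⟩ := ev_surjective hd (fun _ => 1)
    obtain ⟨i, hi⟩ := Function.ne_iff.1 hv0
    intro h0
    have h1 := congrFun (congrFun h0 x) i
    simp only [Pi.smul_apply, Pi.zero_apply, smul_eq_mul, mul_eq_zero] at h1
    rcases h1 with (h1 | h1) | h1
    · exact psi_ne_zero hζ _ h1
    · rw [Finset.prod_eq_zero_iff] at h1
      obtain ⟨j, _, hj⟩ := h1
      have h2 : psi hζ (d j ⬝ᵥ x) = 1 := (sub_eq_zero.1 hj).symm
      rw [psi_eq_one] at h2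
      have h3 : d j ⬝ᵥ x = 1 := congrFun hx j
      rw [h3] at h2
      exact one_ne_zero h2
    · exact hi h1
  · let U : Finset (Fin k → ZMod p) := univ.filter fun z => ∀ i, z i ≠ 0
    have hU : U.card = (p - 1) ^ k := by
      have : U = Fintype.piFinset fun _ : Fin k => (univ.filter fun t : ZMod p => t ≠ 0) := by
        ext z; simp [U]
      rw [this, Fintype.card_piFinset_const]
      congr 1
      have : (univ.filter fun t : ZMod p => t ≠ 0) = univ.erase 0 := by ext; simp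
      rw [this, card_erase_of_mem (mem_univ _), card_univ, ZMod.card]
    have h1 := wt_le (fun x => (psi hζ (b ⬝ᵥ x) * ∏ i, (1 - psi hζ (d i ⬝ᵥ x))) • v)
      (univ.filter fun x => ev d x ∈ U) (by
        intro x hx
        simp only [mem_filter, mem_univ, true_and, U] at hx
        push Not at hx
        obtain ⟨i, hi⟩ := hx
        have h2 : ∏ i, (1 - psi hζ (d i ⬝ᵥ x)) = 0 := by
          apply Finset.prod_eq_zero (mem_univ i)
          rw [sub_eq_zero, eq_comm, psi_eq_one]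
          exact hi
        rw [h2, mul_zero, zero_smul])
    have h3 := card_ev_mem hd U
    rw [hU, Fintype.card_fun, Fintype.card_fun, Fintype.card_fin, Fintype.card_fin,
      ZMod.card] at h3
    calc _ ≤ (ℓ * (univ.filter fun x => ev d x ∈ U).card) * p ^ k := Nat.mul_le_mul_right _ h1
      _ = ℓ * ((univ.filter fun x => ev d x ∈ U).card * p ^ k) := by ring
      _ = _ := by rw [h3]

end odd

end Pool.Agent.Lib.MP_0430e4_lc.Free
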