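import Mathlib
import Pool.Agent.Lib.MP_0430e4_lc.Free.Basic

/-!
# Codes with a free abelian group of automorphisms (helper91): passing to a quotient group
-/

namespace Pool.Agent.Lib.MP_0430e4_lc.Free

open Finset Module

section step

variable {F : Type*} [Field F] {A B : Type*} [AddCommGroup A] [AddCommGroup B] {ℓ : ℕ}

/-- pull back along a homomorphism, twisted by a character -/
def lift (ℓ : ℕ) (π : A →+ B) (χ : AddChar A F) : (B → Fin ℓ → F) →ₗ[F] (A → Fin ℓ → F) where
  toFun h := fun a j => χ a * h (π a) j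
  map_add' x y := by funext a j; simp [mul_add]
  map_smul' c x := by funext a j; simp only [Pi.smul_apply, smul_eq_mul, RingHom.id_apply]; ring

theorem lift_apply (π : A →+ B) (χ : AddChar A F) (h : B → Fin ℓ → F) (a : A) (j : Fin ℓ) :
    lift ℓ π χ h a j = χ a * h (π a) j := rfl

theorem chi_ne (χ : AddChar A F) (a : A) : χ a ≠ 0 := (AddChar.val_isUnit χ a).ne_zero

theorem lift_inv {π : A →+ B} (hπ : Function.Surjective π) (χ : AddChar A F)
    {C : Submodule F (A → Fin ℓ → F)} (hC : Inv C) : Inv (C.comap (lift ℓ π χ)) := by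
  intro b h hh
  obtain ⟨a, rfl⟩ := hπ b
  rw [Submodule.mem_comap] at hh ⊢
  have h1 := hC a _ hh
  have h2 : lift ℓ π χ (fun x => h (x + π a)) = (χ a)⁻¹ • (fun x => lift ℓ π χ h (x + a)) := by
    funext x j
    simp only [lift_apply, Pi.smul_apply, smul_eq_mul, AddChar.map_add_eq_mul, map_add]
    have := chi_ne χ a
    field_simp
  rw [h2]
  exact C.smul_mem _ h1

theorem lift_ne_zero {π : A →+ B} (hπ : Function.Surjective π) (χ : AddChar A F)
    {h : B → Fin ℓ → F} (hh : h ≠ 0) : lift ℓ π χ h ≠ 0 := by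
  obtain ⟨b, hb⟩ := Function.ne_iff.1 hh
  obtain ⟨j, hj⟩ := Function.ne_iff.1 hb
  obtain ⟨a, rfl⟩ := hπ b
  intro h0
  have h1 := congrFun (congrFun h0 a) j
  rw [lift_apply] at h1
  exact mul_ne_zero (chi_ne χ a) hj h1

theorem wt_lift [Finite A] [Finite B] (π : A →+ B) (χ : AddChar A F) (h : B → Fin ℓ → F) :
    wt (lift ℓ π χ h) ≤ Nat.card π.ker * wt h := by
  classical
  have := Fintype.ofFinite A
  have := Fintype.ofFinite B
  unfold wt
  have e1 : {q : A × Fin ℓ | lift ℓ π χ h q.1 q.2 ≠ 0} =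
      ((univ.filter fun q : A × Fin ℓ => h (π q.1) q.2 ≠ 0 : Finset _) : Set _) := by
    ext q
    simp only [Set.mem_ofPred_eq, coe_filter, mem_univ, true_and, lift_apply, ne_eq, mul_eq_zero,
      not_or]
    constructor
    · exact fun hq => hq.2
    · exact fun hq => ⟨chi_ne χ _, hq⟩
  have e2 : {q : B × Fin ℓ | h q.1 q.2 ≠ 0} =
      ((univ.filter fun q : B × Fin ℓ => h q.1 q.2 ≠ 0 : Finset _) : Set _) := by
    ext q; simp
  rw [e1, e2, Set.ncard_coe_finset, Set.ncard_coe_finset]
  apply Finset.card_le_mul_card_image_of_maps_to (f := fun q : A × Fin ℓ => (π q.1, q.2))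
  · intro q hq
    simp only [mem_filter, mem_univ, true_and] at hq ⊢
    exact hq
  · intro b _
    rcases Finset.eq_empty_or_nonempty ((univ.filter fun q : A × Fin ℓ => h (π q.1) q.2 ≠ 0).filter
      fun q => (π q.1, q.2) = b) with h0 | ⟨q0, hq0⟩
    · rw [h0]; simp
    · rw [← Fintype.card_coe, ← Nat.card_eq_fintype_card]
      have hq0' := (mem_filter.1 hq0).2
      have hmem : ∀ q : {q : A × Fin ℓ // q ∈ ((univ.filter fun q : A × Fin ℓ =>
          h (π q.1) q.2 ≠ 0).filter fun q => (π q.1, q.2) = b)}, (q : A × Fin ℓ).1 - q0.1 ∈ π.ker := by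
        intro q
        have h1 := (mem_filter.1 q.2).2.trans hq0'.symm
        rw [AddMonoidHom.mem_ker, map_sub, (Prod.mk.inj h1).1, sub_self]
      apply Nat.card_le_card_of_injective (fun q : {q : A × Fin ℓ // q ∈ ((univ.filter
        fun q : A × Fin ℓ => h (π q.1) q.2 ≠ 0).filter fun q => (π q.1, q.2) = b)} =>
        (⟨(q : A × Fin ℓ).1 - q0.1, hmem q⟩ : π.ker))
      intro x y hxy
      have h1 := congrArg Subtype.val hxy
      have hx := (mem_filter.1 x.2).2
      have hy := (mem_filter.1 y.2).2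
      have h2 : (x : A × Fin ℓ).2 = (y : A × Fin ℓ).2 :=
        (Prod.mk.inj hx).2.trans (Prod.mk.inj hy).2.symm
      exact Subtype.ext (Prod.ext (sub_left_injective h1) h2)

/-- the part of a code transforming by `χ` under the kernel -/
def DD (π : A →+ B) (χ : AddChar A F) (C : Submodule F (A → Fin ℓ → F)) :
    Submodule F (A → Fin ℓ → F) :=
  (C.comap (lift ℓ π χ)).map (lift ℓ π χ)

theorem mem_DD {π : A →+ B} (hπ : Function.Surjective π) (χ : AddChar A F)
    {C : Submodule F (A → Fin ℓ → F)} {f : A → Fin ℓ → F} (hf : f ∈ C)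
    (h : ∀ n, π n = 0 → ∀ x, f (x + n) = χ n • f x) : f ∈ DD π χ C := by
  have key : lift ℓ π χ (fun b => χ (-(Function.surjInv hπ b)) • f (Function.surjInv hπ b)) = f := by
    funext x j
    rw [lift_apply]
    have h1 : π (Function.surjInv hπ (π x) - x) = 0 := by
      rw [map_sub, Function.surjInv_eq hπ, sub_self]
    have h2 := h _ h1 x
    rw [add_sub_cancel] at h2
    rw [h2, Pi.smul_apply, Pi.smul_apply, smul_eq_mul, smul_eq_mul, ← mul_assoc, ← mul_assoc,
      ← AddChar.map_add_eq_mul, ← AddChar.map_add_eq_mul]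
    have h3 : x + -Function.surjInv hπ (π x) + (Function.surjInv hπ (π x) - x) = 0 := by abel
    rw [h3, AddChar.map_zero_eq_one, one_mul]
  refine ⟨_, ?_, key⟩
  rw [SetLike.mem_coe, Submodule.mem_comap, key]
  exact hf

theorem finrank_DD [Finite A] [Finite B] (π : A →+ B) (χ : AddChar A F)
    (C : Submodule F (A → Fin ℓ → F)) :
    finrank F (DD π χ C) ≤ finrank F (C.comap (lift ℓ π χ)) :=
  Submodule.finrank_map_le _ _

/-- step of order two -/
theorem step_two [CharP F 2] [Finite A] [Finite B] {π : A →+ B} (hπ : Function.Surjective π)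
    (hk : Nat.card π.ker = 2) {C : Submodule F (A → Fin ℓ → F)} (hC : Inv C) :
    finrank F C ≤ 2 * finrank F (C.comap (lift ℓ π (1 : AddChar A F))) := by
  classical
  have h2F : (2 : F) = 0 := CharTwo.two_eq_zero
  obtain ⟨g, hg, hg0⟩ : ∃ g : A, π g = 0 ∧ g ≠ 0 := by
    have : Nontrivial π.ker := by
      obtain ⟨x, hx, -⟩ := (Nat.card_eq_two_iff' (0 : π.ker)).1 hk
      exact ⟨⟨x, 0, hx⟩⟩
    obtain ⟨x, hx⟩ := exists_ne (0 : π.ker)
    exact ⟨x, x.2, fun h => hx (Subtype.ext h)⟩
  have hcase : ∀ n, π n = 0 → n = 0 ∨ n = g := by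
    intro n hn
    obtain ⟨y, hy, hy'⟩ := (Nat.card_eq_two_iff' (0 : π.ker)).1 hk
    by_cases hn0 : n = 0
    · exact Or.inl hn0
    · right
      have h1 : (⟨n, hn⟩ : π.ker) = y := hy' _ (fun h => hn0 (congrArg Subtype.val h))
      have h2 : (⟨g, hg⟩ : π.ker) = y := hy' _ (fun h => hg0 (congrArg Subtype.val h))
      exact congrArg Subtype.val (h1.trans h2.symm)
  have hgg : g + g = 0 := by
    rcases hcase (g + g) (by rw [map_add, hg, add_zero]) with h | h
    · exact h
    · exact absurd (by simpa using h) hg0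
  let T : C →ₗ[F] (A → Fin ℓ → F) :=
    { toFun := fun f => fun x => (f : A → Fin ℓ → F) (x + g) + (f : A → Fin ℓ → F) x
      map_add' := fun f f' => by
        funext x
        simp only [Submodule.coe_add, Pi.add_apply]
        abel
      map_smul' := fun c f => by
        funext x
        simp only [Submodule.coe_smul, Pi.smul_apply, RingHom.id_apply, smul_add] }
  have hT : ∀ f : C, ∀ x, T f x = (f : A → Fin ℓ → F) (x + g) + (f : A → Fin ℓ → F) x :=
    fun _ _ => rfl
  have h1 : LinearMap.range T ≤ DD π 1 C := by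
    rintro _ ⟨f, rfl⟩
    apply mem_DD hπ
    · have := C.add_mem (hC g _ f.2) f.2
      exact this
    · intro n hn x
      rw [AddChar.one_apply, one_smul]
      rcases hcase n hn with rfl | rfl
      · rw [add_zero]
      · rw [hT, hT, add_assoc, hgg, add_zero, add_comm]
  have h2 : (LinearMap.ker T).map C.subtype ≤ DD π 1 C := by
    rintro _ ⟨f, hf, rfl⟩
    apply mem_DD hπ
    · exact f.2
    · intro n hn x
      rw [AddChar.one_apply, one_smul]
      rcases hcase n hn with rfl | rfl
      · rw [add_zero]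
      · have h3 : T f x = 0 := by rw [LinearMap.mem_ker.1 hf]; rfl
        rw [hT] at h3
        funext j
        have h4 := congrFun h3 j
        rw [Pi.add_apply, Pi.zero_apply] at h4
        have h5 : (f : A → Fin ℓ → F) x j + (f : A → Fin ℓ → F) x j = 0 := CharTwo.add_self_eq_zero _
        exact add_right_cancel (h4.trans h5.symm)
  have h3 := LinearMap.finrank_range_add_finrank_ker T
  have h4 := Submodule.finrank_mono h1
  have h5 := Submodule.finrank_mono h2
  have h6 : finrank F ((LinearMap.ker T).map C.subtype) = finrank F (LinearMap.ker T) :=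
    (Submodule.equivMapOfInjective C.subtype C.injective_subtype _).finrank_eq.symm
  have h7 := finrank_DD π (1 : AddChar A F) C
  omega

/-- step of odd prime order -/
theorem step_odd [CharP F 2] [Finite A] [Finite B] {π : A →+ B} (hπ : Function.Surjective π)
    {q : ℕ} (hq : q.Prime) (hq2 : q ≠ 2) (hk : Nat.card π.ker = q) {χ : AddChar A F}
    {g : A} (hg : π g = 0) (hχ : χ g ≠ 1) {C : Submodule F (A → Fin ℓ → F)} (hC : Inv C) :
    finrank F C ≤ ∑ i : Fin q, finrank F (C.comap (lift ℓ π (χ ^ (i : ℕ)))) := by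
  classical
  have := Fintype.ofFinite A
  have := Fintype.ofFinite B
  have : Fact q.Prime := ⟨hq⟩
  have hqF : (q : F) ≠ 0 := by
    rw [Ne, CharP.cast_eq_zero_iff F 2]
    intro h
    exact hq2 ((Nat.prime_dvd_prime_iff_eq Nat.prime_two hq).1 h).symm
  let P (i : ℕ) (f : A → Fin ℓ → F) : A → Fin ℓ → F :=
    ∑ n : π.ker, (χ ^ i) (-(n : A)) • (fun x => f (x + n))
  have hPa : ∀ i f x, P i f x = ∑ n : π.ker, (χ ^ i) (-(n : A)) • f (x + n) := by
    intro i f x
    simp only [P, Finset.sum_apply, Pi.smul_apply]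
  have hP : ∀ i, ∀ f ∈ C, P i f ∈ DD π (χ ^ i) C := by
    intro i f hf
    apply mem_DD hπ
    · exact C.sum_mem fun n _ => C.smul_mem _ (hC n f hf)
    · intro n' hn' x
      rw [hPa, hPa, Finset.smul_sum]
      rw [← Equiv.sum_comp (Equiv.addLeft (⟨n', hn'⟩ : π.ker)) (fun n : π.ker =>
        (χ ^ i) n' • (χ ^ i) (-(n : A)) • f (x + n))]
      apply Finset.sum_congr rfl
      intro n _
      rw [smul_smul, ← AddChar.map_add_eq_mul]
      simp only [Equiv.coe_addLeft, AddSubgroup.coe_add]
      congr 2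
      · abel_nf
      · abel_nf
  have hsum : ∀ f : A → Fin ℓ → F, ∀ x, ∑ i : Fin q, P i f x = (q : F) • f x := by
    intro f x
    simp only [hPa]
    rw [Finset.sum_comm]
    rw [Finset.sum_eq_single (0 : π.ker)]
    · simp only [ZeroMemClass.coe_zero, neg_zero, AddChar.map_zero_eq_one, add_zero, one_smul]
      rw [Finset.sum_const, card_univ, Fintype.card_fin, Nat.cast_smul_eq_nsmul]
    · intro n _ hn
      rw [← Finset.sum_smul]
      have h1 : ∑ i : Fin q, (χ ^ (i : ℕ)) (-(n : A)) = 0 := by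
        have hne : χ (-(n : A)) ≠ 1 := by
          intro h1
          have h2 : (⟨g, hg⟩ : π.ker) ∈ AddSubgroup.zmultiples (-n) :=
            mem_zmultiples_of_prime_card hk (neg_ne_zero.2 hn)
          obtain ⟨k, hk⟩ := h2
          have h3 : k • (-(n : A)) = g := congrArg Subtype.val hk
          apply hχ
          rw [← h3, AddChar.map_zsmul_eq_zpow, h1, one_zpow]
        have hpow : χ (-(n : A)) ^ q = 1 := by
          rw [← AddChar.map_nsmul_eq_pow]
          have h2 : q • (-n) = 0 := by rw [← hk]; exact card_nsmul_eq_zero'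
          have h3 : q • (-(n : A)) = 0 := congrArg Subtype.val h2
          rw [h3, AddChar.map_zero_eq_one]
        have h2 : ∑ i : Fin q, (χ ^ (i : ℕ)) (-(n : A)) = ∑ i ∈ range q, χ (-(n : A)) ^ i := by
          rw [Finset.sum_range]
          apply Finset.sum_congr rfl
          intro i _
          rw [AddChar.pow_apply]
        rw [h2, geom_sum_eq hne, hpow, sub_self, zero_div]
      rw [h1, zero_smul]
    · intro h; exact absurd (mem_univ _) h
  let Φ : C →ₗ[F] (∀ i : Fin q, DD π (χ ^ (i : ℕ)) C) :=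
    LinearMap.pi fun i => LinearMap.codRestrict (DD π (χ ^ (i : ℕ)) C)
      ({ toFun := fun f => P i f
         map_add' := fun f f' => by
          simp only [P, ← Finset.sum_add_distrib, ← smul_add]
          rfl
         map_smul' := fun c f => by
          simp only [P, Finset.smul_sum, RingHom.id_apply]
          apply Finset.sum_congr rfl
          intro n _
          rw [smul_comm]
          rfl } : C →ₗ[F] (A → Fin ℓ → F))
      (fun f => hP i f f.2)
  have hΦ : Function.Injective Φ := by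
    rw [← LinearMap.ker_eq_bot, LinearMap.ker_eq_bot']
    intro f hf
    have h1 : ∀ i : Fin q, P i f = 0 := by
      intro i
      exact congrArg Subtype.val (congrFun hf i)
    apply Subtype.ext
    funext x
    have h2 := hsum f x
    simp only [h1, Pi.zero_apply, Finset.sum_const_zero] at h2
    rcases smul_eq_zero.1 h2.symm with h3 | h3
    · exact absurd h3 hqF
    · exact h3
  have h4 := LinearMap.finrank_le_finrank_of_injective hΦ
  rw [finrank_pi_fintype] at h4
  exact h4.trans (Finset.sum_le_sum fun i _ => finrank_DD π _ C)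

/-- characters with values in `F` separate elements of odd prime order -/
theorem exists_char [CharP F 2] [Finite A] {e t : ℕ} {ζ : F} (hζ : IsPrimitiveRoot ζ e)
    (he : Odd e) (hA : ∀ a : A, (2 ^ t * e) • a = 0) {g : A} {q : ℕ} (hq : q.Prime) (hq2 : q ≠ 2)
    (hg : addOrderOf g = q) : ∃ χ : AddChar A F, χ g ≠ 1 := by
  classical
  have he0 : NeZero e := ⟨by rintro rfl; simp at he⟩
  have hF : HasEnoughRootsOfUnity F e :=
    { prim := ⟨ζ, hζ⟩
      cyc := inferInstance }
  let φ : A →+ A := nsmulAddMonoidHom (2 ^ t)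
  let R : AddSubgroup A := φ.range
  have hexp : Monoid.exponent (Multiplicative R) ∣ e := by
    apply Monoid.exponent_dvd_of_forall_pow_eq_one
    intro x
    obtain ⟨a, ha⟩ := (Multiplicative.toAdd x).2
    apply Multiplicative.toAdd.injective
    rw [toAdd_pow, toAdd_one]
    apply Subtype.ext
    have h1 : ((Multiplicative.toAdd x : R) : A) = 2 ^ t • a := ha.symm
    rw [AddSubgroup.coe_nsmul, h1, ← mul_nsmul]
    exact hA a
  have h2 : HasEnoughRootsOfUnity F (Monoid.exponent (Multiplicative R)) :=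
    HasEnoughRootsOfUnity.of_dvd F hexp
  have hg' : (⟨φ g, ⟨g, rfl⟩⟩ : R) ≠ 0 := by
    intro h
    have h3 : (2 ^ t) • g = 0 := congrArg Subtype.val h
    have h4 := addOrderOf_dvd_of_nsmul_eq_zero h3
    rw [hg] at h4
    exact hq2 ((Nat.prime_dvd_prime_iff_eq hq Nat.prime_two).1 (hq.dvd_of_dvd_pow h4))
  obtain ⟨ψ, hψ⟩ := CommGroup.exists_apply_ne_one_of_hasEnoughRootsOfUnity (Multiplicative R) F
    (a := Multiplicative.ofAdd (⟨φ g, ⟨g, rfl⟩⟩ : R)) (by
      intro h
      exact hg' (Multiplicative.ofAdd.injective h))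
  let χ : AddChar A F :=
    { toFun := fun a => ((ψ (Multiplicative.ofAdd (φ.rangeRestrict a)) : Fˣ) : F)
      map_zero_eq_one' := by rw [map_zero, ofAdd_zero, map_one, Units.val_one]
      map_add_eq_mul' := fun a b => by
        rw [map_add, ofAdd_add, map_mul, Units.val_mul] }
  refine ⟨χ, ?_⟩
  intro h
  apply hψ
  apply Units.ext
  exact h

/-- the general step -/
theorem step [CharP F 2] [Finite A] [Finite B] {e t : ℕ} {ζ : F} (hζ : IsPrimitiveRoot ζ e)
    (he : Odd e) (hA : ∀ a : A, (2 ^ t * e) • a = 0) {π : A →+ B} (hπ : Function.Surjective π)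
    {q : ℕ} (hq : q.Prime) (hk : Nat.card π.ker = q) {C : Submodule F (A → Fin ℓ → F)}
    (hC : Inv C) :
    ∃ C' : Submodule F (B → Fin ℓ → F), Inv C' ∧ finrank F C ≤ q * finrank F C' ∧
      ∀ h ∈ C', h ≠ 0 → ∃ f ∈ C, f ≠ 0 ∧ wt f ≤ q * wt h := by
  have key : ∀ χ : AddChar A F, ∀ h ∈ C.comap (lift ℓ π χ), h ≠ 0 →
      ∃ f ∈ C, f ≠ 0 ∧ wt f ≤ q * wt h := by
    intro χ h hh h0
    refine ⟨lift ℓ π χ h, hh, lift_ne_zero hπ χ h0, ?_⟩
    rw [← hk]
    exact wt_lift π χ h
  by_cases hq2 : q = 2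
  · subst hq2
    exact ⟨_, lift_inv hπ 1 hC, step_two hπ hk hC, key 1⟩
  · have : Fact q.Prime := ⟨hq⟩
    obtain ⟨g, hg⟩ := exists_prime_addOrderOf_dvd_card' (G := π.ker) q (by rw [hk])
    have hg' : addOrderOf (g : A) = q := by rw [← hg]; exact AddSubgroup.addOrderOf_coe g
    obtain ⟨χ, hχ⟩ := exists_char hζ he hA hq hq2 hg'
    have h1 := step_odd hπ hq hq2 hk (g := g) g.2 hχ hC
    have h2 : ∃ i : Fin q, finrank F C ≤ q * finrank F (C.comap (lift ℓ π (χ ^ (i : ℕ)))) := by
      by_contra hcon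
      push Not at hcon
      have h3 : ∑ i : Fin q, (q * finrank F (C.comap (lift ℓ π (χ ^ (i : ℕ))))) <
          ∑ i : Fin q, finrank F C := by
        apply Finset.sum_lt_sum_of_nonempty
        · exact ⟨⟨0, hq.pos⟩, mem_univ _⟩
        · intro i _; exact hcon i
      rw [← Finset.mul_sum, Finset.sum_const, card_univ, Fintype.card_fin, smul_eq_mul] at h3
      exact absurd (lt_of_mul_lt_mul_left h3 (Nat.zero_le _)) (not_lt.2 h1)
    obtain ⟨i, hi⟩ := h2
    exact ⟨_, lift_inv hπ _ hC, hi, key _⟩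

end step

/-- passing to a quotient of the group -/
theorem reduce {F : Type*} [Field F] [CharP F 2] {e t : ℕ} {ζ : F} (hζ : IsPrimitiveRoot ζ e)
    (he : Odd e) {ℓ : ℕ} {Q : Type*} [AddCommGroup Q] [Finite Q] (n : ℕ) :
    ∀ (A : Type) [AddCommGroup A] [Finite A] (π : A →+ Q), Function.Surjective π →
      Nat.card π.ker = n → (∀ a : A, (2 ^ t * e) • a = 0) →
      ∀ C : Submodule F (A → Fin ℓ → F), Inv C →
      ∃ C' : Submodule F (Q → Fin ℓ → F), Inv C' ∧ finrank F C ≤ n * finrank F C' ∧
        ∀ h ∈ C', h ≠ 0 → ∃ f ∈ C, f ≠ 0 ∧ wt f ≤ n * wt h := by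
  induction n using Nat.strong_induction_on with
  | _ n ih =>
    intro A _ _ π hπ hn hA C hC
    have hn0 : n ≠ 0 := by rw [← hn]; exact Nat.card_pos.ne'
    by_cases hn1 : n = 1
    · subst hn1
      refine ⟨C.comap (lift ℓ π 1), lift_inv hπ 1 hC, ?_, ?_⟩
      · rw [one_mul]
        have h1 : C ≤ DD π 1 C := by
          intro f hf
          apply mem_DD hπ _ hf
          intro n' hn' x
          have h2 : Subsingleton π.ker := (Nat.card_eq_one_iff_unique.1 hn).1
          have h3 : (⟨n', hn'⟩ : π.ker) = 0 := Subsingleton.elim _ _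
          have h4 : n' = 0 := congrArg Subtype.val h3
          rw [h4, add_zero, AddChar.map_zero_eq_one, one_smul]
        exact (Submodule.finrank_mono h1).trans (finrank_DD π 1 C)
      · intro h hh h0
        refine ⟨lift ℓ π 1 h, hh, lift_ne_zero hπ 1 h0, ?_⟩
        rw [← hn]
        exact wt_lift π 1 h
    · obtain ⟨q, hq, hqn⟩ := Nat.exists_prime_and_dvd hn1
      have : Fact q.Prime := ⟨hq⟩
      obtain ⟨g, hg⟩ := exists_prime_addOrderOf_dvd_card' (G := π.ker) q (by rw [hn]; exact hqn)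
      have hg' : addOrderOf (g : A) = q := by rw [← hg]; exact AddSubgroup.addOrderOf_coe g
      let Z : AddSubgroup A := AddSubgroup.zmultiples (g : A)
      have hZ : Nat.card Z = q := by rw [← hg']; exact Nat.card_zmultiples _
      have hle : Z ≤ π.ker := by
        rw [AddSubgroup.zmultiples_le]
        exact g.2
      let π₁ : A →+ A ⧸ Z := QuotientAddGroup.mk' Z
      let π₂ : A ⧸ Z →+ Q := QuotientAddGroup.lift Z π hle
      have hπ₁ : Function.Surjective π₁ := QuotientAddGroup.mk'_surjective Z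
      have hπ₂ : Function.Surjective π₂ := by
        intro y
        obtain ⟨a, ha⟩ := hπ y
        exact ⟨π₁ a, ha⟩
      have hk₁ : Nat.card π₁.ker = q := by
        rw [QuotientAddGroup.ker_mk']; exact hZ
      have hcA : Nat.card A = Nat.card π.ker * Nat.card Q := by
        rw [← Nat.card_congr (QuotientAddGroup.quotientKerEquivOfSurjective π hπ).toEquiv, mul_comm]
        exact AddSubgroup.card_eq_card_quotient_mul_card_addSubgroup _
      have hcA2 : Nat.card (A ⧸ Z) = Nat.card π₂.ker * Nat.card Q := by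
        rw [← Nat.card_congr (QuotientAddGroup.quotientKerEquivOfSurjective π₂ hπ₂).toEquiv,
          mul_comm]
        exact AddSubgroup.card_eq_card_quotient_mul_card_addSubgroup _
      have hcA3 : Nat.card A = Nat.card (A ⧸ Z) * Nat.card Z :=
        AddSubgroup.card_eq_card_quotient_mul_card_addSubgroup Z
      have hQ0 : 0 < Nat.card Q := Nat.card_pos
      have hnq : n = q * Nat.card π₂.ker := by
        rw [hcA, hcA2, hn, hZ] at hcA3
        have : n * Nat.card Q = (q * Nat.card π₂.ker) * Nat.card Q := by rw [hcA3]; ring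
        exact Nat.eq_of_mul_eq_mul_right hQ0 this
      have hlt : Nat.card π₂.ker < n := by
        have h1 : 0 < Nat.card π₂.ker := Nat.card_pos
        rw [hnq]
        nlinarith [hq.two_le]
      obtain ⟨C₁, hC₁, hd₁, hw₁⟩ := step hζ he hA hπ₁ hq hk₁ hC
      have hA₁ : ∀ a : A ⧸ Z, (2 ^ t * e) • a = 0 := by
        intro a
        obtain ⟨b, rfl⟩ := hπ₁ a
        rw [← map_nsmul, hA, map_zero]
      obtain ⟨C₂, hC₂, hd₂, hw₂⟩ := ih _ hlt (A ⧸ Z) π₂ hπ₂ rfl hA₁ C₁ hC₁
      refine ⟨C₂, hC₂, ?_, ?_⟩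
      · rw [hnq]
        calc finrank F C ≤ q * finrank F C₁ := hd₁
          _ ≤ q * (Nat.card π₂.ker * finrank F C₂) := Nat.mul_le_mul_left _ hd₂
          _ = _ := by ring
      · intro h hh h0
        obtain ⟨f₁, hf₁, hf₁0, hwf₁⟩ := hw₂ h hh h0
        obtain ⟨f, hf, hf0, hwf⟩ := hw₁ f₁ hf₁ hf₁0
        refine ⟨f, hf, hf0, ?_⟩
        calc wt f ≤ q * wt f₁ := hwf
          _ ≤ q * (Nat.card π₂.ker * wt h) := Nat.mul_le_mul_left _ hwf₁
          _ = n * wt h := by rw [hnq]; ring

end Pool.Agent.Lib.MP_0430e4_lc.Free
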