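import Mathlib
import Pool.Agent.Lib.MP_0430e4_lc.Free.Basic

/-!
# Codes with a free abelian group of automorphisms (helper91): coordinates, extension of scalars
-/

namespace Pool.Agent.Lib.MP_0430e4_lc.Free

open Finset Module

section coords

/-- coordinates for a free action -/
theorem exists_coords (A X : Type) [AddCommGroup A] [Finite A] [Finite X] [AddAction A X]
    (hfree : ∀ (a : A) (x : X), a +ᵥ x = x → a = 0) :
    ∃ (ℓ : ℕ) (e : A × Fin ℓ ≃ X), ∀ a x j, e (a + x, j) = a +ᵥ e (x, j) := by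
  classical
  let Ω := AddAction.orbitRel.Quotient A X
  have : Finite Ω := Quotient.finite _
  obtain ⟨ℓ, ⟨ω⟩⟩ := Finite.exists_equiv_fin Ω
  let r : Ω → X := Quotient.out
  have hr : ∀ w : Ω, (Quotient.mk'' (r w) : Ω) = w := fun w => Quotient.out_eq' w
  let f : A × Fin ℓ → X := fun q => q.1 +ᵥ r (ω.symm q.2)
  have hf : Function.Bijective f := by
    constructor
    · rintro ⟨a, i⟩ ⟨b, j⟩ hab
      have hab' : a +ᵥ r (ω.symm i) = b +ᵥ r (ω.symm j) := hab
      have h1 : ω.symm i = ω.symm j := by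
        rw [← hr (ω.symm i), ← hr (ω.symm j)]
        apply Quotient.sound'
        rw [AddAction.orbitRel_apply]
        refine ⟨-a + b, ?_⟩
        show (-a + b) +ᵥ r (ω.symm j) = r (ω.symm i)
        rw [add_vadd, ← hab', ← add_vadd, neg_add_cancel, zero_vadd]
      have h2 : i = j := ω.symm.injective h1
      subst h2
      have h3 : (-b + a) +ᵥ r (ω.symm i) = r (ω.symm i) := by
        rw [add_vadd, hab', ← add_vadd, neg_add_cancel, zero_vadd]
      have h4 := hfree _ _ h3
      have h5 : a = b := by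
        have := neg_add_eq_zero.1 h4
        exact this.symm
      rw [h5]
    · intro x
      have h1 : (Quotient.mk'' (r (Quotient.mk'' x : Ω)) : Ω) = Quotient.mk'' x := hr _
      have h2 := Quotient.exact' h1
      rw [AddAction.orbitRel_apply] at h2
      obtain ⟨a, ha⟩ := h2
      refine ⟨(-a, ω (Quotient.mk'' x)), ?_⟩
      show -a +ᵥ r (ω.symm (ω (Quotient.mk'' x))) = x
      rw [Equiv.symm_apply_apply, ← ha]
      show -a +ᵥ (a +ᵥ x) = x
      rw [neg_vadd_vadd]
  refine ⟨ℓ, Equiv.ofBijective f hf, ?_⟩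
  intro a x j
  rw [Equiv.ofBijective_apply, Equiv.ofBijective_apply]
  show (a + x) +ᵥ r (ω.symm j) = a +ᵥ (x +ᵥ r (ω.symm j))
  rw [add_vadd]

end coords

section scal

variable {A : Type*} {ℓ : ℕ}

/-- extension of scalars of a binary code -/
def ext (F : Type*) [Field F] [Algebra (ZMod 2) F]
    (C : Submodule (ZMod 2) (A → Fin ℓ → ZMod 2)) : Submodule F (A → Fin ℓ → F) where
  carrier := {f | ∀ lam : F →ₗ[ZMod 2] ZMod 2, (fun a j => lam (f a j)) ∈ C}
  add_mem' {f g} hf hg := by
    intro lam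
    have h1 : (fun a j => lam ((f + g) a j)) = (fun a j => lam (f a j)) +
        (fun a j => lam (g a j)) := by
      funext a j
      exact map_add lam _ _
    rw [h1]
    exact C.add_mem (hf lam) (hg lam)
  zero_mem' := by
    intro lam
    have h1 : (fun a j => lam ((0 : A → Fin ℓ → F) a j)) = 0 := by
      funext a j
      exact map_zero lam
    rw [h1]
    exact C.zero_mem
  smul_mem' c f hf := by
    intro lam
    exact hf (lam.comp (LinearMap.mulLeft (ZMod 2) c))

variable {F : Type*} [Field F] [Algebra (ZMod 2) F]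

theorem mem_ext {C : Submodule (ZMod 2) (A → Fin ℓ → ZMod 2)} {f : A → Fin ℓ → F} :
    f ∈ ext F C ↔ ∀ lam : F →ₗ[ZMod 2] ZMod 2, (fun a j => lam (f a j)) ∈ C := Iff.rfl

theorem ext_inv [AddCommGroup A] {C : Submodule (ZMod 2) (A → Fin ℓ → ZMod 2)} (hC : Inv C) :
    Inv (ext F C) := by
  intro a f hf
  rw [mem_ext] at hf ⊢
  intro lam
  exact hC a _ (hf lam)

theorem ext_wt [Finite A] {C : Submodule (ZMod 2) (A → Fin ℓ → ZMod 2)} {f : A → Fin ℓ → F}
    (hf : f ∈ ext F C) (h0 : f ≠ 0) : ∃ g ∈ C, g ≠ 0 ∧ wt g ≤ wt f := by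
  obtain ⟨a, ha⟩ := Function.ne_iff.1 h0
  obtain ⟨j, hj⟩ := Function.ne_iff.1 ha
  have hlam' : ∃ lam : F →ₗ[ZMod 2] ZMod 2, lam (f a j) ≠ 0 := by
    by_contra hcon
    push Not at hcon
    exact hj ((Module.forall_dual_apply_eq_zero_iff (ZMod 2) (f a j)).1 hcon)
  obtain ⟨lam, hlam⟩ := hlam'
  refine ⟨_, mem_ext.1 hf lam, ?_, ?_⟩
  · intro h1
    exact hlam (congrFun (congrFun h1 a) j)
  · unfold wt
    apply Set.ncard_le_ncard _ (Set.toFinite _)
    intro q hq h1
    apply hq
    show lam (f q.1 q.2) = 0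
    rw [h1, map_zero]

theorem ext_finrank [Finite A] [Finite F] (C : Submodule (ZMod 2) (A → Fin ℓ → ZMod 2)) :
    finrank (ZMod 2) C ≤ finrank F (ext F C) := by
  classical
  have := Fintype.ofFinite A
  have : FiniteDimensional (ZMod 2) F := Module.Finite.of_finite
  let b := Module.finBasis (ZMod 2) F
  set r := finrank (ZMod 2) F with hr
  have hr0 : 0 < r := finrank_pos
  let Ψ : (Fin r → C) →ₗ[ZMod 2] (A → Fin ℓ → F) :=
    { toFun := fun c => fun a j => ∑ i, (c i : A → Fin ℓ → ZMod 2) a j • b i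
      map_add' := fun c d => by
        funext a j
        simp [add_smul, Finset.sum_add_distrib]
      map_smul' := fun s c => by
        funext a j
        simp [Finset.smul_sum, mul_smul] }
  have hΨ : ∀ c a j, Ψ c a j = ∑ i, (c i : A → Fin ℓ → ZMod 2) a j • b i := fun _ _ _ => rfl
  have hmem : ∀ c, Ψ c ∈ ext F C := by
    intro c
    rw [mem_ext]
    intro lam
    have h1 : (fun a j => lam (Ψ c a j)) = ∑ i, lam (b i) • (c i : A → Fin ℓ → ZMod 2) := by
      funext a j
      rw [hΨ, map_sum, Finset.sum_apply, Finset.sum_apply]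
      apply Finset.sum_congr rfl
      intro i _
      rw [map_smul, smul_eq_mul, Pi.smul_apply, Pi.smul_apply, smul_eq_mul, mul_comm]
    rw [h1]
    exact C.sum_mem fun i _ => C.smul_mem _ (c i).2
  let Ψ' : (Fin r → C) →ₗ[ZMod 2] ext F C :=
    { toFun := fun c => ⟨Ψ c, hmem c⟩
      map_add' := fun c d => Subtype.ext (map_add Ψ c d)
      map_smul' := fun s c => Subtype.ext (map_smul Ψ s c) }
  have hinj : Function.Injective Ψ' := by
    intro c d hcd
    have h1 : Ψ c = Ψ d := congrArg Subtype.val hcd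
    funext i
    apply Subtype.ext
    funext a j
    have h2 := congrFun (congrFun h1 a) j
    rw [hΨ, hΨ] at h2
    have h3 := congrArg (fun z => b.repr z i) h2
    simpa [map_sum, Finsupp.single_apply, Basis.repr_self] using h3
  have h1 := LinearMap.finrank_le_finrank_of_injective hinj
  rw [finrank_pi_fintype] at h1
  simp only [Finset.sum_const, card_univ, Fintype.card_fin, smul_eq_mul] at h1
  have h2 := Module.finrank_mul_finrank (ZMod 2) F (ext F C)
  rw [← h2, ← hr] at h1
  exact Nat.le_of_mul_le_mul_left h1 hr0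

end scal

end Pool.Agent.Lib.MP_0430e4_lc.Free
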