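import Mathlib
import Pool.Agent.Lib.MP_0430e4_lc.Free.Basic

/-!
# Codes with a free abelian group of automorphisms (helper91): translation-invariant spaces of
functions on `(Z/2)^k`
-/

namespace Pool.Agent.Lib.MP_0430e4_lc.Free

open Finset Module

section top

variable {F : Type*} [Field F] [CharP F 2] {U : Type*} [AddCommGroup U] [Module F U]

omit [CharP F 2] in
theorem char_two_neg [CharP F 2] (u : U) : -u = u := by
  have h : (2 : F) = 0 := CharTwo.two_eq_zero
  rw [neg_eq_iff_add_eq_zero, ← two_smul F, h, zero_smul]

/-- the constant functions in `W` -/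
def W0 {k : ℕ} (W : Submodule F ((Fin k → ZMod 2) → U)) : Submodule F U :=
  W.comap (LinearMap.pi fun _ => LinearMap.id)

omit [CharP F 2] in
theorem mem_W0 {k : ℕ} {W : Submodule F ((Fin k → ZMod 2) → U)} {u : U} :
    u ∈ W0 W ↔ (fun _ => u) ∈ W := Iff.rfl

/-- translation-invariance -/
def TInv {k : ℕ} (W : Submodule F ((Fin k → ZMod 2) → U)) : Prop :=
  ∀ a, ∀ g ∈ W, (fun z => g (z + a)) ∈ W

/-- functions independent of the first variable -/
def tailL (k : ℕ) : ((Fin k → ZMod 2) → U) →ₗ[F] ((Fin (k + 1) → ZMod 2) → U) :=
  LinearMap.pi fun z => LinearMap.proj (Fin.tail z)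

omit [CharP F 2] in
theorem tailL_apply (k : ℕ) (h : (Fin k → ZMod 2) → U) (z : Fin (k + 1) → ZMod 2) :
    tailL (F := F) k h z = h (Fin.tail z) := rfl

/-- restriction to a value of the first variable -/
def restL (k : ℕ) (t : ZMod 2) : ((Fin (k + 1) → ZMod 2) → U) →ₗ[F] ((Fin k → ZMod 2) → U) :=
  LinearMap.pi fun z => LinearMap.proj (Fin.cons t z)

omit [CharP F 2] in
theorem restL_apply (k : ℕ) (t : ZMod 2) (g : (Fin (k + 1) → ZMod 2) → U) (z : Fin k → ZMod 2) :
    restL (F := F) k t g z = g (Fin.cons t z) := rfl

theorem cons_tail_cases {k : ℕ} (z : Fin (k + 1) → ZMod 2) :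
    z = Fin.cons 0 (Fin.tail z) ∨ z = Fin.cons 1 (Fin.tail z) := by
  have h : z 0 = 0 ∨ z 0 = 1 := by
    generalize z 0 = t
    revert t
    decide
  rcases h with h | h
  · left
    rw [← h, Fin.cons_self_tail]
  · right
    rw [← h, Fin.cons_self_tail]

theorem finrank_le_top [FiniteDimensional F U] : ∀ (k : ℕ) (W : Submodule F ((Fin k → ZMod 2) → U)),
    TInv W → finrank F W ≤ 2 ^ k * finrank F (W0 W) ∧
      ((∀ g ∈ W, ∑ z, g z = 0) → finrank F W ≤ (2 ^ k - 1) * finrank F (W0 W)) := by
  intro k
  induction k with
  | zero =>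
    intro W hW
    constructor
    · rw [pow_zero, one_mul]
      let Φ : W →ₗ[F] W0 W := ((LinearMap.proj (R := F) (φ := fun _ : Fin 0 → ZMod 2 => U)
        (fun i => i.elim0)).comp W.subtype).codRestrict (W0 W) (by
          intro g
          rw [mem_W0]
          have : (fun _ => (LinearMap.proj (R := F) (φ := fun _ : Fin 0 → ZMod 2 => U)
            (fun i => i.elim0)).comp W.subtype g) = (g : (Fin 0 → ZMod 2) → U) := by
            funext z
            exact congrArg (g : (Fin 0 → ZMod 2) → U) (Subsingleton.elim _ _)
          rw [this]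
          exact g.2)
      apply LinearMap.finrank_le_finrank_of_injective (f := Φ)
      intro g g' hgg
      apply Subtype.ext
      funext z
      have h1 := congrArg Subtype.val hgg
      have h2 : z = (fun i => i.elim0) := Subsingleton.elim _ _
      rw [h2]
      exact h1
    · intro h
      have : W = ⊥ := by
        rw [eq_bot_iff]
        intro g hg
        rw [Submodule.mem_bot]
        funext z
        have h1 := h g hg
        rw [Fintype.sum_unique] at h1
        rw [Pi.zero_apply, ← h1]
        congr 1
        exact Subsingleton.elim _ _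
      rw [this, finrank_bot]
      exact Nat.zero_le _
  | succ k ih =>
    intro W hW
    -- functions independent of the first variable
    let W' : Submodule F ((Fin k → ZMod 2) → U) := W.comap (tailL k)
    have hW' : TInv W' := by
      intro a g hg
      have h1 := hW (Fin.cons 0 a) _ (show tailL (F := F) k g ∈ W from hg)
      exact h1
    have hW'0 : W0 W' = W0 W := rfl
    -- the derivative in the first variable
    let Δ : ((Fin (k + 1) → ZMod 2) → U) →ₗ[F] ((Fin k → ZMod 2) → U) := restL k 1 - restL k 0
    have hΔ : ∀ g z, Δ g z = g (Fin.cons 1 z) - g (Fin.cons 0 z) := fun g z => rfl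
    let e0 : Fin (k + 1) → ZMod 2 := Fin.cons 1 0
    have hcons : ∀ (s t : ZMod 2) (z : Fin k → ZMod 2), (Fin.cons s z : Fin (k + 1) → ZMod 2) +
        Fin.cons t 0 = Fin.cons (s + t) z := by
      intro s t z
      funext i
      refine Fin.cases ?_ (fun i => ?_) i
      · simp
      · simp
    have hshift : ∀ g : (Fin (k + 1) → ZMod 2) → U, tailL (F := F) k (Δ g) =
        fun z => g (z + e0) - g z := by
      intro g
      funext z
      rw [tailL_apply, hΔ]
      rcases cons_tail_cases z with h | h
      · conv_rhs => rw [h]
        rw [hcons, zero_add]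
      · conv_rhs => rw [h]
        rw [hcons, show (1 + 1 : ZMod 2) = 0 by decide, ← neg_sub, char_two_neg (F := F)]
    have hΔmem : ∀ g ∈ W, Δ g ∈ W' := by
      intro g hg
      change tailL (F := F) k (Δ g) ∈ W
      rw [hshift]
      exact W.sub_mem (hW e0 g hg) hg
    let R : Submodule F ((Fin k → ZMod 2) → U) := W.map Δ
    have hRW : R ≤ W' := by
      rintro _ ⟨g, hg, rfl⟩
      exact hΔmem g hg
    have hRinv : TInv R := by
      rintro a _ ⟨g, hg, rfl⟩
      refine ⟨fun z => g (z + Fin.cons 0 a), hW _ g hg, ?_⟩
      funext z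
      rw [hΔ, hΔ]
      have : ∀ s : ZMod 2, (Fin.cons s z : Fin (k + 1) → ZMod 2) + Fin.cons 0 a =
          Fin.cons s (z + a) := by
        intro s
        funext i
        refine Fin.cases ?_ (fun i => ?_) i
        · simp
        · simp
      simp only [this]
    have hR0 : finrank F (W0 R) ≤ finrank F (W0 W) := by
      rw [← hW'0]
      apply Submodule.finrank_mono
      intro u hu
      exact hRW hu
    -- rank-nullity
    have hrn : finrank F W ≤ finrank F W' + finrank F R := by
      let ΔW : W →ₗ[F] R := (Δ.comp W.subtype).codRestrict R (fun g => ⟨g, g.2, rfl⟩)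
      have h1 := LinearMap.finrank_range_add_finrank_ker ΔW
      have h2 : finrank F (LinearMap.range ΔW) ≤ finrank F R := Submodule.finrank_le _
      have h3 : finrank F (LinearMap.ker ΔW) ≤ finrank F W' := by
        have hz : ∀ g : LinearMap.ker ΔW, tailL (F := F) k (restL (F := F) k 0 ((g : W) :
            (Fin (k + 1) → ZMod 2) → U)) = ((g : W) : (Fin (k + 1) → ZMod 2) → U) := by
          intro g
          have hg : Δ ((g : W) : (Fin (k + 1) → ZMod 2) → U) = 0 :=
            congrArg Subtype.val (LinearMap.mem_ker.1 g.2)
          funext z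
          rw [tailL_apply, restL_apply]
          rcases cons_tail_cases z with h | h
          · rw [← h]
          · conv_rhs => rw [h]
            have h4 := congrFun hg (Fin.tail z)
            rw [hΔ, Pi.zero_apply, sub_eq_zero] at h4
            exact h4.symm
        let Ψ : LinearMap.ker ΔW →ₗ[F] W' :=
          ((restL k 0).comp (W.subtype.comp (LinearMap.ker ΔW).subtype)).codRestrict W' (by
            intro g
            change tailL (F := F) k (restL (F := F) k 0 ((g : W) :
              (Fin (k + 1) → ZMod 2) → U)) ∈ W
            rw [hz g]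
            exact (g : W).2)
        apply LinearMap.finrank_le_finrank_of_injective (f := Ψ)
        intro g g' hgg
        apply Subtype.ext
        apply Subtype.ext
        rw [← hz g, ← hz g']
        congr 1
        exact congrArg Subtype.val hgg
      omega
    have ih1 := (ih W' hW').1
    rw [hW'0] at ih1
    constructor
    · have ih2 := (ih R hRinv).1
      calc finrank F W ≤ finrank F W' + finrank F R := hrn
        _ ≤ 2 ^ k * finrank F (W0 W) + 2 ^ k * finrank F (W0 W) :=
            add_le_add ih1 (ih2.trans (Nat.mul_le_mul_left _ hR0))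
        _ = _ := by ring
    · intro hsum
      have ih2 := (ih R hRinv).2 (by
        rintro _ ⟨g, hg, rfl⟩
        have h1 := hsum g hg
        have h2 : ∑ z, g z = ∑ z : Fin k → ZMod 2, g (Fin.cons 0 z) +
            ∑ z : Fin k → ZMod 2, g (Fin.cons 1 z) := by
          rw [← (Fin.consEquiv (fun _ => ZMod 2)).sum_comp, Fintype.sum_prod_type]
          rw [show (univ : Finset (ZMod 2)) = {0, 1} by decide]
          rw [Finset.sum_pair (by decide)]
          rfl
        simp only [hΔ]
        rw [Finset.sum_sub_distrib, sub_eq_add_neg, char_two_neg (F := F), add_comm, ← h2, h1])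
      have h3 : (2 ^ k - 1) * finrank F (W0 R) ≤ (2 ^ k - 1) * finrank F (W0 W) :=
        Nat.mul_le_mul_left _ hR0
      have h4 : 1 ≤ 2 ^ k := Nat.one_le_two_pow
      calc finrank F W ≤ finrank F W' + finrank F R := hrn
        _ ≤ 2 ^ k * finrank F (W0 W) + (2 ^ k - 1) * finrank F (W0 W) :=
            add_le_add ih1 (ih2.trans h3)
        _ = (2 ^ (k + 1) - 1) * finrank F (W0 W) := by
            rw [← add_mul]
            congr 1
            rw [pow_succ]
            omega

end top

end Pool.Agent.Lib.MP_0430e4_lc.Free
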