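import Mathlib
import Pool.Agent.Lib.MP_0430e4_lc.Free.Top

/-!
# Codes with a free abelian group of automorphisms (helper91): elementary abelian 2-groups, bases
-/

namespace Pool.Agent.Lib.MP_0430e4_lc.Free

open Finset Module

section li

variable {m k : ℕ} {ι : Type} [Fintype ι]

omit [Fintype ι] in
theorem ev_sum_elim (B : ι → (Fin m → ZMod 2)) {κ : Type} (M : κ → (Fin m → ZMod 2))
    (x : Fin m → ZMod 2) : ev (Sum.elim B M) x = Sum.elim (ev B x) (ev M x) := by
  funext i
  rcases i with i | i <;> rfl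

/-- adding a vector outside the span -/
theorem li_snoc {B : ι → (Fin m → ZMod 2)} {M : Fin k → (Fin m → ZMod 2)}
    (h : LinearIndependent (ZMod 2) (Sum.elim B M)) {v : Fin m → ZMod 2}
    (hv : v ∉ Submodule.span (ZMod 2) (Set.range (Sum.elim B M))) :
    LinearIndependent (ZMod 2) (Sum.elim B (Fin.snoc M v : Fin (k + 1) → (Fin m → ZMod 2))) := by
  rw [Fintype.linearIndependent_iff] at h ⊢
  intro c hc
  rw [Fintype.sum_sum_type] at hc
  simp only [Sum.elim_inl, Sum.elim_inr] at hc
  rw [Fin.sum_univ_castSucc] at hc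
  simp only [Fin.snoc_castSucc, Fin.snoc_last] at hc
  have hlast : c (Sum.inr (Fin.last k)) = 0 := by
    by_contra hne
    apply hv
    have h1 : c (Sum.inr (Fin.last k)) • v = -(∑ i, c (Sum.inl i) • B i +
        ∑ i : Fin k, c (Sum.inr i.castSucc) • M i) := by
      rw [eq_neg_iff_add_eq_zero, ← hc]; abel
    have h2 : v = (c (Sum.inr (Fin.last k)))⁻¹ • -(∑ i, c (Sum.inl i) • B i +
        ∑ i : Fin k, c (Sum.inr i.castSucc) • M i) := by
      rw [← h1, smul_smul, inv_mul_cancel₀ hne, one_smul]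
    rw [h2]
    apply Submodule.smul_mem
    apply Submodule.neg_mem
    apply Submodule.add_mem
    · exact Submodule.sum_mem _ fun i _ => Submodule.smul_mem _ _
        (Submodule.subset_span ⟨Sum.inl i, rfl⟩)
    · exact Submodule.sum_mem _ fun i _ => Submodule.smul_mem _ _
        (Submodule.subset_span ⟨Sum.inr i, rfl⟩)
  rw [hlast, zero_smul, add_zero] at hc
  have h3 := h (Sum.elim (fun i => c (Sum.inl i)) (fun i => c (Sum.inr i.castSucc))) (by
    rw [Fintype.sum_sum_type]
    exact hc)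
  intro i
  rcases i with i | i
  · exact h3 (Sum.inl i)
  · refine Fin.lastCases ?_ (fun i => ?_) i
    · exact hlast
    · exact h3 (Sum.inr i)

/-- criterion for independence over `B` -/
theorem li_of_comb {B : ι → (Fin m → ZMod 2)} (hB : LinearIndependent (ZMod 2) B)
    {M : Fin k → (Fin m → ZMod 2)}
    (h : ∀ c : Fin k → ZMod 2, c ≠ 0 → ∑ i, c i • M i ∉ Submodule.span (ZMod 2) (Set.range B)) :
    LinearIndependent (ZMod 2) (Sum.elim B M) := by
  rw [Fintype.linearIndependent_iff] at hB ⊢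
  intro c hc
  rw [Fintype.sum_sum_type] at hc
  simp only [Sum.elim_inl, Sum.elim_inr] at hc
  have h1 : (fun i => c (Sum.inr i)) = 0 := by
    by_contra hne
    apply h _ hne
    have : ∑ i, c (Sum.inr i) • M i = -∑ i, c (Sum.inl i) • B i := by
      rw [eq_neg_iff_add_eq_zero, ← hc]; abel
    rw [this]
    apply Submodule.neg_mem
    exact Submodule.sum_mem _ fun i _ => Submodule.smul_mem _ _ (Submodule.subset_span ⟨i, rfl⟩)
  have h2 : ∑ i, c (Sum.inr i) • M i = 0 := by
    apply Finset.sum_eq_zero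
    intro i _
    rw [congrFun h1 i, Pi.zero_apply, zero_smul]
  rw [h2, add_zero] at hc
  intro i
  rcases i with i | i
  · exact hB _ hc i
  · exact congrFun h1 i

/-- completion to a basis -/
theorem exists_completion {B : ι → (Fin m → ZMod 2)} (hB : LinearIndependent (ZMod 2) B) :
    ∀ k, Fintype.card ι + k ≤ m → ∃ M : Fin k → (Fin m → ZMod 2),
      LinearIndependent (ZMod 2) (Sum.elim B M) := by
  intro k
  induction k with
  | zero =>
    intro _
    exact ⟨Fin.elim0, li_of_comb hB fun c hc => absurd (Subsingleton.elim _ _) hc⟩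
  | succ k ih =>
    intro hk
    obtain ⟨M, hM⟩ := ih (by omega)
    have h1 : Submodule.span (ZMod 2) (Set.range (Sum.elim B M)) ≠ ⊤ := by
      intro htop
      have h2 := finrank_span_eq_card hM
      rw [htop, finrank_top, Module.finrank_fin_fun] at h2
      simp only [Fintype.card_sum, Fintype.card_fin] at h2
      omega
    obtain ⟨v, -, hv⟩ := SetLike.exists_of_lt (lt_top_iff_ne_top.2 h1)
    exact ⟨_, li_snoc hM hv⟩

end li

section two

variable {F : Type*} [Field F] [CharP F 2] {m ℓ : ℕ}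

/-- words of `C` depending on the linear forms `B` -/
def CB (C : Submodule F ((Fin m → ZMod 2) → Fin ℓ → F)) {ι : Type}
    (B : ι → (Fin m → ZMod 2)) : Submodule F ((ι → ZMod 2) → Fin ℓ → F) :=
  C.comap (LinearMap.pi fun x => LinearMap.proj (ev B x))

/-- words of `C` depending on the linear forms `B`, `M`, as functions of the values of `M` -/
def CBM (C : Submodule F ((Fin m → ZMod 2) → Fin ℓ → F)) {ι : Type}
    (B : ι → (Fin m → ZMod 2)) {k : ℕ} (M : Fin k → (Fin m → ZMod 2)) :
    Submodule F ((Fin k → ZMod 2) → ((ι → ZMod 2) → Fin ℓ → F)) :=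
  C.comap (LinearMap.pi fun x => (LinearMap.proj (ev B x)).comp (LinearMap.proj (ev M x)))

variable {C : Submodule F ((Fin m → ZMod 2) → Fin ℓ → F)} {ι : Type} {B : ι → (Fin m → ZMod 2)}
  {k : ℕ} {M : Fin k → (Fin m → ZMod 2)}

omit [CharP F 2] in
theorem mem_CB {g : (ι → ZMod 2) → Fin ℓ → F} : g ∈ CB C B ↔ (fun x => g (ev B x)) ∈ C := Iff.rfl

omit [CharP F 2] in
theorem mem_CBM {g : (Fin k → ZMod 2) → ((ι → ZMod 2) → Fin ℓ → F)} :
    g ∈ CBM C B M ↔ (fun x => g (ev M x) (ev B x)) ∈ C := Iff.rfl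

omit [CharP F 2] in
theorem W0_CBM : W0 (CBM C B M) = CB C B := rfl

omit [CharP F 2] in
theorem TInv_CBM [Fintype ι] (hC : Inv C) (hBM : LinearIndependent (ZMod 2) (Sum.elim B M)) :
    TInv (CBM C B M) := by
  intro a g hg
  obtain ⟨x0, hx0⟩ := ev_surjective hBM (Sum.elim 0 a)
  rw [ev_sum_elim] at hx0
  have h1 : ev B x0 = 0 := by
    funext i; exact congrFun hx0 (Sum.inl i)
  have h2 : ev M x0 = a := by
    funext i; exact congrFun hx0 (Sum.inr i)
  have h3 := hC x0 _ (mem_CBM.1 hg)
  rw [mem_CBM]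
  convert h3 using 1
  funext x
  have e1 : ev M (x + x0) = ev M x + a := by
    rw [← h2]; exact (evL M).map_add x x0
  have e2 : ev B (x + x0) = ev B x := by
    have : ev B (x + x0) = ev B x + ev B x0 := (evL B).map_add x x0
    rw [this, h1, add_zero]
  simp only [e1, e2]

/-- the base part of a code has at least the same rate -/
theorem finrank_le_CB [Fintype ι] (hC : Inv C) (hB : LinearIndependent (ZMod 2) B) :
    finrank F C ≤ 2 ^ (m - Fintype.card ι) * finrank F (CB C B) := by
  classical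
  have hcard : Fintype.card ι ≤ m := by
    have := hB.fintype_card_le_finrank
    simpa using this
  obtain ⟨M, hM⟩ := exists_completion hB (m - Fintype.card ι) (by omega)
  have h1 := (finrank_le_top (F := F) _ (CBM C B M) (TInv_CBM hC hM)).1
  rw [W0_CBM] at h1
  refine le_trans ?_ h1
  -- the map `C → CBM`
  have hbij : Function.Bijective (ev (Sum.elim B M)) := by
    rw [Fintype.bijective_iff_surjective_and_card]
    refine ⟨ev_surjective hM, ?_⟩
    rw [Fintype.card_fun, Fintype.card_fun, Fintype.card_sum, Fintype.card_fin, Fintype.card_fin]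
    congr 1
    omega
  let e := Equiv.ofBijective _ hbij
  let Φ : C →ₗ[F] CBM C B M :=
    ((LinearMap.pi fun z => LinearMap.pi fun y => LinearMap.proj (e.symm (Sum.elim y z))).comp
      C.subtype).codRestrict (CBM C B M) (by
        intro f
        rw [mem_CBM]
        have : (fun x => ((LinearMap.pi fun z => LinearMap.pi fun y =>
            LinearMap.proj (R := F) (φ := fun _ : Fin m → ZMod 2 => Fin ℓ → F)
              (e.symm (Sum.elim y z))).comp C.subtype f : _) (ev M x) (ev B x)) =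
            (f : (Fin m → ZMod 2) → Fin ℓ → F) := by
          funext x
          change (f : (Fin m → ZMod 2) → Fin ℓ → F) (e.symm (Sum.elim (ev B x) (ev M x))) = _
          rw [← ev_sum_elim]
          exact congrArg (f : (Fin m → ZMod 2) → Fin ℓ → F) (e.symm_apply_apply x)
        rw [this]
        exact f.2)
  apply LinearMap.finrank_le_finrank_of_injective (f := Φ)
  intro f f' hff
  apply Subtype.ext
  funext x
  have h2 := congrFun (congrFun (congrArg Subtype.val hff) (ev M x)) (ev B x)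
  change (f : (Fin m → ZMod 2) → Fin ℓ → F) (e.symm (Sum.elim (ev B x) (ev M x))) =
    (f' : (Fin m → ZMod 2) → Fin ℓ → F) (e.symm (Sum.elim (ev B x) (ev M x))) at h2
  rw [← ev_sum_elim] at h2
  have h3 : e.symm (ev (Sum.elim B M) x) = x := e.symm_apply_apply x
  rwa [h3] at h2

omit [CharP F 2] in
/-- currying -/
theorem finrank_CB_sum_le [Fintype ι] :
    finrank F (CB C (Sum.elim B M)) ≤ finrank F (CBM C B M) := by
  classical
  let Φ : CB C (Sum.elim B M) →ₗ[F] CBM C B M :=
    ((LinearMap.pi fun z => LinearMap.pi fun y => LinearMap.proj (Sum.elim y z)).comp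
      (CB C (Sum.elim B M)).subtype).codRestrict (CBM C B M) (by
        intro f
        rw [mem_CBM]
        have h := mem_CB.1 f.2
        have : (fun x => ((LinearMap.pi fun z => LinearMap.pi fun y =>
            LinearMap.proj (R := F) (φ := fun _ : ι ⊕ Fin k → ZMod 2 => Fin ℓ → F)
              (Sum.elim y z)).comp (CB C (Sum.elim B M)).subtype f : _) (ev M x) (ev B x)) =
            fun x => (f : (ι ⊕ Fin k → ZMod 2) → Fin ℓ → F) (ev (Sum.elim B M) x) := by
          funext x
          rw [ev_sum_elim]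
          rfl
        rw [this]
        exact h)
  apply LinearMap.finrank_le_finrank_of_injective (f := Φ)
  intro f f' hff
  apply Subtype.ext
  funext z
  have h2 := congrFun (congrFun (congrArg Subtype.val hff) (fun i => z (Sum.inr i)))
    (fun i => z (Sum.inl i))
  have h3 : Sum.elim (fun i => z (Sum.inl i)) (fun i => z (Sum.inr i)) = z := by
    funext i; rcases i with i | i <;> rfl
  rw [← h3]
  exact h2

/-- There is a base `B` of bounded size such that every independent `M` has a word with nonzero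
top coefficient. -/
theorem exists_base (hC : Inv C) (hℓ : 1 ≤ ℓ) {ε : ℝ}
    (hrate : ε * (ℓ * (2 : ℝ) ^ m) ≤ finrank F C) (k t : ℕ) (ht : (1 - ((2 : ℝ) ^ k)⁻¹) ^ t < ε) :
    ∃ s < t, ∃ (ι : Type) (_ : Fintype ι) (B : ι → (Fin m → ZMod 2)),
      LinearIndependent (ZMod 2) B ∧ Fintype.card ι = k * s ∧
      ∀ M : Fin k → (Fin m → ZMod 2), LinearIndependent (ZMod 2) (Sum.elim B M) →
        ∃ g ∈ CBM C B M, ∑ z, g z ≠ 0 := by
  by_contra hcon
  push Not at hcon
  have key : ∀ s ≤ t, ∃ (ι : Type) (_ : Fintype ι) (B : ι → (Fin m → ZMod 2)),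
      LinearIndependent (ZMod 2) B ∧ Fintype.card ι = k * s ∧
      finrank F (CB C B) ≤ (2 ^ k - 1) ^ s * ℓ := by
    intro s
    induction s with
    | zero =>
      intro _
      refine ⟨Fin 0, inferInstance, Fin.elim0, linearIndependent_empty_type, by simp, ?_⟩
      rw [pow_zero, one_mul]
      refine (Submodule.finrank_le _).trans ?_
      rw [finrank_pi_fintype]
      simp
    | succ s ih =>
      intro hs
      obtain ⟨ι, hι, B, hB, hcard, hfr⟩ := ih (by omega)
      obtain ⟨M, hM, htop⟩ := hcon s (by omega) ι hι B hB hcard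
      refine ⟨ι ⊕ Fin k, inferInstance, Sum.elim B M, hM, ?_, ?_⟩
      · rw [Fintype.card_sum, Fintype.card_fin, hcard]; ring
      · have h1 := (finrank_le_top (F := F) _ (CBM C B M) (TInv_CBM hC hM)).2 htop
        rw [W0_CBM] at h1
        calc finrank F (CB C (Sum.elim B M)) ≤ finrank F (CBM C B M) := finrank_CB_sum_le
          _ ≤ (2 ^ k - 1) * finrank F (CB C B) := h1
          _ ≤ (2 ^ k - 1) * ((2 ^ k - 1) ^ s * ℓ) := Nat.mul_le_mul_left _ hfr
          _ = _ := by rw [pow_succ]; ring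
  obtain ⟨ι, hι, B, hB, hcard, hfr⟩ := key t le_rfl
  have h1 := finrank_le_CB hC hB
  have hcard' : Fintype.card ι ≤ m := by
    have := hB.fintype_card_le_finrank
    simpa using this
  have h2 : ε * (ℓ * (2 : ℝ) ^ m) ≤ (2 : ℝ) ^ (m - Fintype.card ι) * (((2 : ℝ) ^ k - 1) ^ t * ℓ) := by
    refine hrate.trans ?_
    have h3 : (finrank F C : ℝ) ≤ ((2 ^ (m - Fintype.card ι) * ((2 ^ k - 1) ^ t * ℓ) : ℕ) : ℝ) := by
      exact_mod_cast h1.trans (Nat.mul_le_mul_left _ hfr)
    refine h3.trans (le_of_eq ?_)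
    push_cast [Nat.one_le_two_pow]
    rfl
  have hℓ0 : (0 : ℝ) < ℓ := by exact_mod_cast hℓ
  have h4 : (2 : ℝ) ^ m = 2 ^ (m - Fintype.card ι) * ((2 : ℝ) ^ k) ^ t := by
    rw [← pow_mul, ← hcard, ← pow_add]
    congr 1
    omega
  have h5 : ((2 : ℝ) ^ k - 1) ^ t = ((2 : ℝ) ^ k) ^ t * (1 - ((2 : ℝ) ^ k)⁻¹) ^ t := by
    rw [← mul_pow, mul_sub, mul_one, mul_inv_cancel₀ (by positivity)]
  rw [h4, h5] at h2
  have h6 : (0 : ℝ) < 2 ^ (m - Fintype.card ι) * ((2 : ℝ) ^ k) ^ t * ℓ := by positivity
  have h7 : ε * (2 ^ (m - Fintype.card ι) * ((2 : ℝ) ^ k) ^ t * ℓ) ≤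
      (1 - ((2 : ℝ) ^ k)⁻¹) ^ t * (2 ^ (m - Fintype.card ι) * ((2 : ℝ) ^ k) ^ t * ℓ) := by
    linarith
  exact absurd (le_of_mul_le_mul_right h7 h6) (not_le.2 ht)

end two

end Pool.Agent.Lib.MP_0430e4_lc.Free
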