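import Mathlib
import Pool.Agent.Lib.MP_0430e4_lc.Free.Two

/-!
# Codes with a free abelian group of automorphisms (helper91): elementary abelian 2-groups, boxes
-/

namespace Pool.Agent.Lib.MP_0430e4_lc.Free

open Finset Module

section two

variable {m k : ℕ} {ι : Type} [Fintype ι]

/-- the vectors `D i`, `i ∈ s` -/
def addv (D : Fin k → (Fin m → ZMod 2)) (s : Finset (Fin k)) : Fin k → (Fin m → ZMod 2) :=
  fun i => if i ∈ s then D i else 0

theorem core_two_aux {B : ι → (Fin m → ZMod 2)} (hB : LinearIndependent (ZMod 2) B)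
    (S : Finset (Fin k → (Fin m → ZMod 2))) {α : ℝ} (hα : 0 < α)
    (hSα : α * ((2 : ℝ) ^ m) ^ k ≤ S.card)
    (hk : (2 : ℝ) ^ (Fintype.card ι + k) ≤ (α / 2) ^ (2 ^ k) * (2 : ℝ) ^ m) :
    ∀ (j : ℕ) (hj : j ≤ k), ∃ (D : Fin k → (Fin m → ZMod 2))
      (T : Finset (Fin k → (Fin m → ZMod 2))),
      LinearIndependent (ZMod 2) (Sum.elim B (fun i : Fin j => D (Fin.castLE hj i))) ∧
      2 * (α / 2) ^ (2 ^ j) * ((2 : ℝ) ^ m) ^ k ≤ T.card ∧
      ∀ M ∈ T, ∀ s : Finset (Fin k), (∀ i ∈ s, (i : ℕ) < j) → M + addv D s ∈ S := by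
  classical
  have hcard : (Fintype.card (Fin k → (Fin m → ZMod 2)) : ℝ) = ((2 : ℝ) ^ m) ^ k := by
    rw [Fintype.card_fun, Fintype.card_fun, Fintype.card_fin, Fintype.card_fin, ZMod.card]
    push_cast; rfl
  have hG0 : (0 : ℝ) < ((2 : ℝ) ^ m) ^ k := by positivity
  have hα1 : α ≤ 1 := by
    have h1 : (S.card : ℝ) ≤ ((2 : ℝ) ^ m) ^ k := by
      rw [← hcard]; exact_mod_cast card_le_univ S
    by_contra h
    push Not at h
    nlinarith
  intro j
  induction j with
  | zero =>
    intro hj
    refine ⟨0, S, ?_, ?_, ?_⟩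
    · exact li_of_comb hB fun c hc => absurd (Subsingleton.elim _ _) hc
    · rw [pow_zero, pow_one]
      calc 2 * (α / 2) * ((2 : ℝ) ^ m) ^ k = α * ((2 : ℝ) ^ m) ^ k := by ring
        _ ≤ _ := hSα
    · intro M hM s hs
      have : s = ∅ := by
        rw [eq_empty_iff_forall_notMem]
        intro i hi
        exact absurd (hs i hi) (Nat.not_lt_zero _)
      subst this
      have : addv (0 : Fin k → (Fin m → ZMod 2)) ∅ = 0 := by
        funext i; simp [addv]
      rw [this, add_zero]
      exact hM
  | succ j ih =>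
    intro hj
    obtain ⟨D, T, hD, hT, hw⟩ := ih (by omega)
    set αj : ℝ := 2 * (α / 2) ^ (2 ^ j) with hαj
    have hαj0 : 0 < αj := by positivity
    let i0 : Fin k := ⟨j, by omega⟩
    let φ : (Fin m → ZMod 2) →+ (Fin k → (Fin m → ZMod 2)) :=
      AddMonoidHom.single (fun _ : Fin k => (Fin m → ZMod 2)) i0
    let K : AddSubgroup (Fin k → (Fin m → ZMod 2)) := φ.range
    have hφ0 : ∀ u, φ u i0 = u := fun u =>
      Pi.single_eq_same (M := fun _ : Fin k => (Fin m → ZMod 2)) i0 u
    have hφinj : Function.Injective φ := fun u v h => by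
      rw [← hφ0 u, h, hφ0]
    have hfK : Fintype K := Fintype.ofFinite _
    have hKcard : (Fintype.card K : ℝ) = (2 : ℝ) ^ m := by
      have h1 : Nat.card K = Nat.card (Fin m → ZMod 2) :=
        (Nat.card_congr (AddMonoidHom.ofInjective hφinj).toEquiv).symm
      rw [Nat.card_eq_fintype_card, Nat.card_eq_fintype_card, Fintype.card_fun, Fintype.card_fin,
        ZMod.card] at h1
      rw [h1]; push_cast; rfl
    let W : Submodule (ZMod 2) (Fin m → ZMod 2) := Submodule.span (ZMod 2)
      (Set.range (Sum.elim B (fun i : Fin j => D (Fin.castLE (by omega) i))))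
    let bad : Finset K := univ.filter fun x => (x : Fin k → (Fin m → ZMod 2)) i0 ∈ W
    have hbad : (bad.card : ℝ) ≤ αj / 2 * Fintype.card K := by
      have h1 : bad.card ≤ 2 ^ (Fintype.card ι + j) := by
        have h2 := card_span hD
        rw [ZMod.card, Fintype.card_sum, Fintype.card_fin] at h2
        have h3 := Nat.card_le_card_of_injective
          (fun x : bad => (⟨((x : K) : Fin k → (Fin m → ZMod 2)) i0, (mem_filter.1 x.2).2⟩ : W))
          (by
            intro x y hxy
            have h4 : ((x : K) : Fin k → (Fin m → ZMod 2)) i0 =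
                ((y : K) : Fin k → (Fin m → ZMod 2)) i0 :=
              congrArg (fun z : W => (z : Fin m → ZMod 2)) hxy
            obtain ⟨u, hu⟩ := (x : K).2
            obtain ⟨v, hv⟩ := (y : K).2
            apply Subtype.ext
            apply Subtype.ext
            rw [← hu, ← hv] at h4 ⊢
            have h5 : u = v := by
              rw [← hφ0 u, h4, hφ0]
            rw [h5])
        rw [Nat.card_eq_fintype_card, Fintype.card_coe] at h3
        exact h3.trans h2.le
      have h3 : (bad.card : ℝ) ≤ (2 : ℝ) ^ (Fintype.card ι + k) := by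
        calc (bad.card : ℝ) ≤ (2 : ℝ) ^ (Fintype.card ι + j) := by exact_mod_cast h1
          _ ≤ _ := pow_le_pow_right₀ (by norm_num) (by omega)
      refine h3.trans (hk.trans ?_)
      rw [hKcard, hαj]
      have h4 : (α / 2) ^ (2 ^ k) ≤ (α / 2) ^ (2 ^ j) :=
        pow_le_pow_of_le_one (by positivity) (by linarith)
          (Nat.pow_le_pow_right (by norm_num) (by omega))
      have h5 : (0 : ℝ) ≤ (2 : ℝ) ^ m := by positivity
      calc (α / 2) ^ 2 ^ k * (2 : ℝ) ^ m ≤ (α / 2) ^ (2 ^ j) * (2 : ℝ) ^ m :=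
            mul_le_mul_of_nonneg_right h4 h5
        _ = _ := by ring
    obtain ⟨d', hd', hT'⟩ := cube_step T K hαj0 (by rw [hcard]; exact hT) bad hbad
    obtain ⟨v, hv⟩ := d'.2
    have hv0 : (d' : Fin k → (Fin m → ZMod 2)) i0 = v := by
      rw [← hv, hφ0]
    have hvW : v ∉ W := by
      intro h
      apply hd'
      rw [mem_filter]
      exact ⟨mem_univ _, by rw [hv0]; exact h⟩
    refine ⟨Function.update D i0 v, inter T (d' : Fin k → (Fin m → ZMod 2)), ?_, ?_, ?_⟩
    · have h1 : (fun i : Fin (j + 1) => Function.update D i0 v (Fin.castLE hj i)) =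
          (Fin.snoc (fun i : Fin j => D (Fin.castLE (by omega) i)) v :
            Fin (j + 1) → (Fin m → ZMod 2)) := by
        funext i
        refine Fin.lastCases ?_ (fun i => ?_) i
        · rw [Fin.snoc_last]
          have : Fin.castLE hj (Fin.last j) = i0 := rfl
          rw [this, Function.update_self]
        · rw [Fin.snoc_castSucc, Function.update_of_ne]
          · rfl
          · intro h
            have := congrArg Fin.val h
            simp only [Fin.val_castLE, Fin.val_castSucc, i0] at this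
            have := i.2
            omega
      rw [h1]
      exact li_snoc hD hvW
    · rw [hcard] at hT'
      refine le_trans (le_of_eq ?_) hT'
      rw [hαj]
      ring
    · intro M hM s hs
      unfold inter at hM
      rw [mem_filter] at hM
      by_cases hj' : i0 ∈ s
      · have h1 := hw _ hM.2 (s.erase i0) (by
          intro i hi
          rw [mem_erase] at hi
          have h2 := hs i hi.2
          have h3 : (i : ℕ) ≠ j := fun h => hi.1 (Fin.ext h)
          omega)
        have h2 : M + addv (Function.update D i0 v) s =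
            M + (d' : Fin k → (Fin m → ZMod 2)) + addv D (s.erase i0) := by
          rw [add_assoc]
          congr 1
          funext i
          rw [← hv]
          simp only [Pi.add_apply, addv, φ, AddMonoidHom.single_apply, mem_erase]
          by_cases hi : i = i0
          · subst hi
            simp [hj']
          · simp [hi]
        rw [h2]
        exact h1
      · have h1 := hw _ hM.1 s (by
          intro i hi
          have h2 := hs i hi
          have h3 : (i : ℕ) ≠ j := by
            intro h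
            apply hj'
            have : i = i0 := Fin.ext h
            exact this ▸ hi
          omega)
        have h2 : addv (Function.update D i0 v) s = addv D s := by
          funext i
          simp only [addv]
          by_cases hi : i = i0
          · subst hi
            simp [hj']
          · simp [hi]
        rw [h2]
        exact h1

/-- most `k`-tuples are independent over `B` -/
theorem card_li {B : ι → (Fin m → ZMod 2)} (hB : LinearIndependent (ZMod 2) B)
    (hk : (2 : ℝ) ^ (Fintype.card ι + k) ≤ (2 : ℝ) ^ m / 2) :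
    ∃ S : Finset (Fin k → (Fin m → ZMod 2)),
      (∀ M ∈ S, LinearIndependent (ZMod 2) (Sum.elim B M)) ∧
      ((2 : ℝ) ^ m) ^ k / 2 ≤ S.card := by
  classical
  let W : Submodule (ZMod 2) (Fin m → ZMod 2) := Submodule.span (ZMod 2) (Set.range B)
  let bad : (Fin k → ZMod 2) → Finset (Fin k → (Fin m → ZMod 2)) := fun c =>
    univ.filter fun M => ∑ i, c i • M i ∈ W
  let S : Finset (Fin k → (Fin m → ZMod 2)) :=
    univ \ (univ.erase (0 : Fin k → ZMod 2)).biUnion bad
  refine ⟨S, ?_, ?_⟩
  · intro M hM
    apply li_of_comb hB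
    intro c hc hmem
    rw [mem_sdiff] at hM
    apply hM.2
    rw [mem_biUnion]
    exact ⟨c, by simp [hc], by simp [bad, W, hmem]⟩
  · have hbad : ∀ c : Fin k → ZMod 2, c ≠ 0 →
        (bad c).card * 2 ^ m = 2 ^ (Fintype.card ι) * (2 ^ m) ^ k := by
      intro c hc
      obtain ⟨i0, hi0⟩ := Function.ne_iff.1 hc
      let φ : (Fin k → (Fin m → ZMod 2)) →+ (Fin m → ZMod 2) :=
        (∑ i, c i • LinearMap.proj (R := ZMod 2) (φ := fun _ : Fin k => (Fin m → ZMod 2)) i :
          (Fin k → (Fin m → ZMod 2)) →ₗ[ZMod 2] (Fin m → ZMod 2)).toAddMonoidHom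
      have hφ : ∀ M, φ M = ∑ i, c i • M i := by
        intro M
        simp [φ]
      have hs : Function.Surjective φ := by
        intro v
        refine ⟨Pi.single i0 ((c i0)⁻¹ • v), ?_⟩
        rw [hφ, Finset.sum_eq_single i0]
        · rw [Pi.single_eq_same, smul_smul, mul_inv_cancel₀ hi0, one_smul]
        · intro i _ hi
          rw [Pi.single_eq_of_ne hi, smul_zero]
        · intro h; exact absurd (mem_univ _) h
      have h1 := card_preimage_hom φ hs (univ.filter fun v => v ∈ W)
      have h2 : (univ.filter fun v => v ∈ W).card = 2 ^ (Fintype.card ι) := by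
        have h3 := card_span hB
        rw [ZMod.card, Nat.card_eq_fintype_card, Fintype.card_subtype] at h3
        exact h3
      rw [h2] at h1
      simp only [Fintype.card_fun, Fintype.card_fin, ZMod.card] at h1
      rw [← h1]
      congr 2
      ext M
      simp [bad, hφ]
    have h1 : (((univ.erase (0 : Fin k → ZMod 2)).biUnion bad).card : ℝ) * 2 ^ m ≤
        2 ^ k * (2 ^ (Fintype.card ι) * ((2 : ℝ) ^ m) ^ k) := by
      have h2 : ((univ.erase (0 : Fin k → ZMod 2)).biUnion bad).card * 2 ^ m ≤
          2 ^ k * (2 ^ (Fintype.card ι) * (2 ^ m) ^ k) := by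
        calc ((univ.erase (0 : Fin k → ZMod 2)).biUnion bad).card * 2 ^ m
            ≤ (∑ c ∈ univ.erase (0 : Fin k → ZMod 2), (bad c).card) * 2 ^ m :=
              Nat.mul_le_mul_right _ card_biUnion_le
          _ = ∑ c ∈ univ.erase (0 : Fin k → ZMod 2), (bad c).card * 2 ^ m := by
              rw [Finset.sum_mul]
          _ = ∑ c ∈ univ.erase (0 : Fin k → ZMod 2), 2 ^ (Fintype.card ι) * (2 ^ m) ^ k := by
              apply Finset.sum_congr rfl
              intro c hc
              exact hbad c (mem_erase.1 hc).1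
          _ = (univ.erase (0 : Fin k → ZMod 2)).card * (2 ^ (Fintype.card ι) * (2 ^ m) ^ k) := by
              rw [Finset.sum_const, smul_eq_mul]
          _ ≤ _ := by
              apply Nat.mul_le_mul_right
              refine (card_erase_le).trans ?_
              rw [card_univ, Fintype.card_fun, Fintype.card_fin, ZMod.card]
      exact_mod_cast h2
    have h3 : (((univ.erase (0 : Fin k → ZMod 2)).biUnion bad).card : ℝ) ≤
        ((2 : ℝ) ^ m) ^ k / 2 := by
      have h4 : (0 : ℝ) < 2 ^ m := by positivity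
      have h5 : (0 : ℝ) < ((2 : ℝ) ^ m) ^ k := by positivity
      rw [pow_add] at hk
      have h6 : (((univ.erase (0 : Fin k → ZMod 2)).biUnion bad).card : ℝ) * 2 ^ m ≤
          (((2 : ℝ) ^ m) ^ k / 2) * 2 ^ m := by
        refine h1.trans ?_
        have h7 := mul_le_mul_of_nonneg_right hk h5.le
        linarith
      exact le_of_mul_le_mul_right h6 h4
    have h4 : (S.card : ℝ) + (((univ.erase (0 : Fin k → ZMod 2)).biUnion bad).card : ℝ) =
        ((2 : ℝ) ^ m) ^ k := by
      have h5 := card_sdiff_add_card_eq_card (subset_univ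
        ((univ.erase (0 : Fin k → ZMod 2)).biUnion bad))
      rw [card_univ, Fintype.card_fun, Fintype.card_fun, Fintype.card_fin, Fintype.card_fin,
        ZMod.card] at h5
      exact_mod_cast h5
    linarith

variable {F : Type*} [Field F] [CharP F 2] {ℓ : ℕ}
  {C : Submodule F ((Fin m → ZMod 2) → Fin ℓ → F)}

omit [Fintype ι] in
theorem ev_addv (M D : Fin k → (Fin m → ZMod 2)) (s : Finset (Fin k)) (x : Fin m → ZMod 2)
    (i : Fin k) : ev (M + addv D s) x i = ev M x i + if i ∈ s then ev D x i else 0 := by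
  unfold ev addv
  rw [Pi.add_apply, add_dotProduct]
  split_ifs
  · rfl
  · rw [zero_dotProduct]

/-- the indicator function -/
def ind (s : Finset (Fin k)) : Fin k → ZMod 2 := fun i => if i ∈ s then 1 else 0

theorem ind_bijective : Function.Bijective (ind : Finset (Fin k) → (Fin k → ZMod 2)) := by
  constructor
  · intro s t h
    ext i
    have h1 := congrFun h i
    simp only [ind] at h1
    by_cases h2 : i ∈ s <;> by_cases h3 : i ∈ t <;> simp_all
  · intro z
    refine ⟨univ.filter fun i => z i = 1, ?_⟩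
    funext i
    simp only [ind, mem_filter, mem_univ, true_and]
    have h : z i = 0 ∨ z i = 1 := by
      generalize z i = t
      revert t
      decide
    rcases h with h | h <;> simp [h]

/-- **Core, even case.** -/
theorem core_two [Fintype F] (hC : Inv C) (hℓ : 1 ≤ ℓ) {ε : ℝ}
    (hrate : ε * (ℓ * (2 : ℝ) ^ m) ≤ finrank F C) (k t : ℕ) (ht : (1 - ((2 : ℝ) ^ k)⁻¹) ^ t < ε)
    (hk : (2 : ℝ) ^ (k * t + k) ≤
      ((1 / 2) / (Fintype.card F : ℝ) ^ (ℓ * 2 ^ (k * t + k)) / 2) ^ (2 ^ k) * (2 : ℝ) ^ m) :
    ∃ f ∈ C, f ≠ 0 ∧ wt f * 2 ^ k ≤ ℓ * 2 ^ m := by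
  classical
  obtain ⟨s, hst, ι, hι, B, hB, hcard, htop⟩ := exists_base hC hℓ hrate k t ht
  set j := Fintype.card ι with hj
  have hjt : j + k ≤ k * t + k := by
    rw [hcard]
    exact Nat.add_le_add_right (Nat.mul_le_mul_left _ hst.le) _
  have hF1 : (1 : ℝ) ≤ Fintype.card F := by
    exact_mod_cast Fintype.card_pos
  set N : ℕ := ℓ * 2 ^ (j + k) with hN
  set α : ℝ := (1 / 2) / (Fintype.card F : ℝ) ^ N with hα
  have hFN : (1 : ℝ) ≤ (Fintype.card F : ℝ) ^ N := one_le_pow₀ hF1
  have hα0 : 0 < α := by positivity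
  have hα1 : α ≤ 1 / 2 := by
    rw [hα, div_le_iff₀ (by positivity)]
    linarith
  have hk1 : (2 : ℝ) ^ (j + k) ≤ (α / 2) ^ (2 ^ k) * (2 : ℝ) ^ m := by
    calc (2 : ℝ) ^ (j + k) ≤ 2 ^ (k * t + k) := pow_le_pow_right₀ (by norm_num) hjt
      _ ≤ _ := hk
      _ ≤ _ := by
        apply mul_le_mul_of_nonneg_right _ (by positivity)
        apply pow_le_pow_left₀ (by positivity)
        apply div_le_div_of_nonneg_right _ (by norm_num)
        rw [hα]
        apply div_le_div_of_nonneg_left (by norm_num) (by positivity)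
        apply pow_le_pow_right₀ hF1
        rw [hN]
        exact Nat.mul_le_mul_left _ (Nat.pow_le_pow_right (by norm_num) hjt)
  have hk2 : (2 : ℝ) ^ (j + k) ≤ (2 : ℝ) ^ m / 2 := by
    refine hk1.trans ?_
    have h1 : (α / 2) ^ (2 ^ k) ≤ (1 / 2 : ℝ) := by
      calc (α / 2) ^ (2 ^ k) ≤ (1 / 2 : ℝ) ^ (2 ^ k) :=
            pow_le_pow_left₀ (by positivity) (by linarith) _
        _ ≤ (1 / 2 : ℝ) ^ 1 :=
            pow_le_pow_of_le_one (by norm_num) (by norm_num) Nat.one_le_two_pow
        _ = _ := by norm_num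
    have h2 : (0 : ℝ) ≤ (2 : ℝ) ^ m := by positivity
    nlinarith [mul_le_mul_of_nonneg_right h1 h2]
  obtain ⟨S0, hS0, hS0c⟩ := card_li (k := k) hB hk2
  have hchoose : ∀ M : Fin k → (Fin m → ZMod 2),
      ∃ g : (Fin k → ZMod 2) → ((ι → ZMod 2) → Fin ℓ → F), M ∈ S0 →
        g ∈ CBM C B M ∧ ∑ z, g z ≠ 0 := by
    intro M
    by_cases hM : M ∈ S0
    · obtain ⟨g, hg, hg'⟩ := htop M (hS0 M hM)
      exact ⟨g, fun _ => ⟨hg, hg'⟩⟩
    · exact ⟨0, fun h => absurd h hM⟩
  choose col hcol using hchoose
  have hcolors : (Fintype.card ((Fin k → ZMod 2) → ((ι → ZMod 2) → Fin ℓ → F)) : ℝ) =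
      (Fintype.card F : ℝ) ^ N := by
    simp only [Fintype.card_fun, Fintype.card_fin, ZMod.card]
    push_cast
    rw [← pow_mul, ← pow_mul]
    congr 1
    rw [hN, pow_add]
  obtain ⟨g, -, hg⟩ := Finset.exists_le_card_fiber_of_nsmul_le_card_of_maps_to
    (s := S0) (t := (univ : Finset ((Fin k → ZMod 2) → ((ι → ZMod 2) → Fin ℓ → F)))) (f := col)
    (b := α * ((2 : ℝ) ^ m) ^ k)
    (fun _ _ => mem_univ _) univ_nonempty (by
      rw [card_univ, nsmul_eq_mul, hcolors]
      refine le_trans (le_of_eq ?_) hS0c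
      rw [hα]
      field_simp)
  obtain ⟨D, T, hD, hT, hw⟩ := core_two_aux hB (S0.filter fun M => col M = g) hα0 hg hk1 k le_rfl
  have hTne : T.Nonempty := by
    rw [← card_pos]
    have : (0 : ℝ) < (T.card : ℝ) := lt_of_lt_of_le (by positivity) hT
    exact_mod_cast this
  obtain ⟨M, hM⟩ := hTne
  have hD' : LinearIndependent (ZMod 2) (Sum.elim B D) := hD
  have hwS : ∀ s : Finset (Fin k), M + addv D s ∈ S0 ∧ col (M + addv D s) = g := by
    intro s
    have := hw M hM s (fun i _ => i.2)
    rwa [mem_filter] at this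
  have hgC : ∀ s : Finset (Fin k), (fun x => g (ev (M + addv D s) x) (ev B x)) ∈ C := by
    intro s
    have h1 := (hcol _ (hwS s).1).1
    rw [(hwS s).2] at h1
    exact mem_CBM.1 h1
  have hgtop : ∑ z, g z ≠ 0 := by
    have h1 := (hcol _ (hwS ∅).1).2
    rwa [(hwS ∅).2] at h1
  -- the word
  let f : (Fin m → ZMod 2) → Fin ℓ → F :=
    ∑ s : Finset (Fin k), fun x => g (ev (M + addv D s) x) (ev B x)
  have hf : f ∈ C := C.sum_mem fun s _ => hgC s
  have hfx : ∀ x, f x = ∑ s : Finset (Fin k), g (ev (M + addv D s) x) (ev B x) := by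
    intro x
    simp only [f, Finset.sum_apply]
  have hf0 : ∀ x, ev D x ≠ (fun _ => 1) → f x = 0 := by
    intro x hx
    obtain ⟨i0, hi0⟩ := Function.ne_iff.1 hx
    have hi0' : ev D x i0 = 0 := by
      generalize ev D x i0 = t at hi0
      revert t
      decide
    rw [hfx]
    have hsame : ∀ s : Finset (Fin k), ev (M + addv D (symmDiff s {i0})) x =
        ev (M + addv D s) x := by
      intro s
      funext i
      rw [ev_addv, ev_addv]
      by_cases hi : i = i0
      · subst hi
        rw [hi0']
        simp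
      · have : i ∈ symmDiff s {i0} ↔ i ∈ s := by
          rw [mem_symmDiff, mem_singleton]
          tauto
        simp only [this]
    apply Finset.sum_involution (fun s _ => symmDiff s {i0})
    · intro s _
      rw [hsame s]
      have h2 : (2 : F) = 0 := CharTwo.two_eq_zero
      rw [← two_smul F, h2, zero_smul]
    · intro s _ _ h
      have h1 : i0 ∈ symmDiff s {i0} ↔ i0 ∈ s := by rw [h]
      rw [mem_symmDiff, mem_singleton] at h1
      tauto
    · intro s _
      exact symmDiff_symmDiff_cancel_right _ _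
    · intro s _
      exact mem_univ _
  have hf1 : ∀ x, ev D x = (fun _ => 1) → f x = (∑ z, g z) (ev B x) := by
    intro x hx
    rw [hfx, Finset.sum_apply]
    have h1 : ∀ s : Finset (Fin k), ev (M + addv D s) x = ev M x + ind s := by
      intro s
      funext i
      rw [ev_addv, hx]
      rfl
    simp only [h1]
    have h2 : Function.Bijective (fun s : Finset (Fin k) => ev M x + ind s) :=
      (Equiv.addLeft (ev M x)).bijective.comp ind_bijective
    exact h2.sum_comp (fun z => g z (ev B x))
  refine ⟨f, hf, ?_, ?_⟩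
  · obtain ⟨y, hy⟩ := Function.ne_iff.1 hgtop
    obtain ⟨x, hx⟩ := ev_surjective hD' (Sum.elim y (fun _ => 1))
    rw [ev_sum_elim] at hx
    have h1 : ev B x = y := by
      funext i; exact congrFun hx (Sum.inl i)
    have h2 : ev D x = fun _ => 1 := by
      funext i; exact congrFun hx (Sum.inr i)
    intro h0
    apply hy
    rw [Pi.zero_apply, ← h1, ← hf1 x h2, h0]
    rfl
  · have hDli : LinearIndependent (ZMod 2) D := by
      have := hD'.comp Sum.inr Sum.inr_injective
      exact this
    have h1 := wt_le f (univ.filter fun x => ev D x ∈ ({fun _ => 1} : Finset (Fin k → ZMod 2)))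
      (by
        intro x hx
        apply hf0
        intro h
        apply hx
        simp [h])
    have h2 := card_ev_mem hDli ({fun _ => 1} : Finset (Fin k → ZMod 2))
    rw [card_singleton, one_mul, Fintype.card_fun, Fintype.card_fun, Fintype.card_fin,
      Fintype.card_fin, ZMod.card] at h2
    calc wt f * 2 ^ k ≤ (ℓ * (univ.filter fun x => ev D x ∈
          ({fun _ => 1} : Finset (Fin k → ZMod 2))).card) * 2 ^ k := Nat.mul_le_mul_right _ h1
      _ = ℓ * ((univ.filter fun x => ev D x ∈
          ({fun _ => 1} : Finset (Fin k → ZMod 2))).card * 2 ^ k) := by ring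
      _ = _ := by rw [h2]

end two

end Pool.Agent.Lib.MP_0430e4_lc.Free
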