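import Mathlib
import Pool.Agent.Lib.MP_0430e4_lc.Free.Odd
import Pool.Agent.Lib.MP_0430e4_lc.Free.Two2
import Pool.Agent.Lib.MP_0430e4_lc.Free.Quot
import Pool.Agent.Lib.MP_0430e4_lc.Free.Scal

/-!
# Codes with a free abelian group of automorphisms (helper91): the lower bound for the number
of orbits
-/

namespace Pool.Agent.Lib.MP_0430e4_lc.Free

open Finset Module

/-- a finite field of characteristic two with a primitive root of unity of odd order -/
theorem exists_field {e : ℕ} (he : Odd e) :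
    ∃ (F : Type) (_ : Field F) (_ : Algebra (ZMod 2) F) (_ : Fintype F) (_ : CharP F 2) (ζ : F),
      IsPrimitiveRoot ζ e := by
  classical
  have hne : NeZero ((e : ℕ) : ZMod 2) := by
    constructor
    obtain ⟨r, rfl⟩ := he
    rw [Ne, ZMod.natCast_eq_zero_iff]
    omega
  have he0 : NeZero e := ⟨by rintro rfl; simp at he⟩
  let F := CyclotomicField e (ZMod 2)
  have h1 : IsCyclotomicExtension {e} (ZMod 2) F := CyclotomicField.isCyclotomicExtension e (ZMod 2)
  have h2 : FiniteDimensional (ZMod 2) F := IsCyclotomicExtension.finiteDimensional {e} (ZMod 2) F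
  have h3 : Finite F := Module.finite_of_finite (ZMod 2)
  have h4 : CharP F 2 := charP_of_injective_algebraMap (algebraMap (ZMod 2) F).injective 2
  exact ⟨F, inferInstance, inferInstance, Fintype.ofFinite F, h4,
    IsCyclotomicExtension.zeta e (ZMod 2) F, IsCyclotomicExtension.zeta_spec e (ZMod 2) F⟩

section transfer

variable {F : Type} [Field F] [Algebra (ZMod 2) F] [Fintype F] [CharP F 2] {ζ : F} {e : ℕ}

/-- the common part of the two cases -/
theorem transfer (hζ : IsPrimitiveRoot ζ e) (he : Odd e) {A : Type} [AddCommGroup A] [Finite A]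
    {s : ℕ} (hA : ∀ a : A, (2 ^ s * e) • a = 0) {p m : ℕ} [NeZero p]
    (π : A →+ (Fin m → ZMod p)) (hπ : Function.Surjective π) {ℓ : ℕ} (hℓ : 1 ≤ ℓ)
    {C : Submodule (ZMod 2) (A → Fin ℓ → ZMod 2)} (hC : Inv C) {ε δ : ℝ}
    (hrate : ε * (ℓ * Nat.card A) ≤ finrank (ZMod 2) C)
    (hdist : ∀ f ∈ C, f ≠ 0 → δ * (ℓ * Nat.card A) ≤ wt f) {a b : ℕ} (hb : 0 < b)
    (hab : (a : ℝ) < δ * b)
    (core : ∀ C' : Submodule F ((Fin m → ZMod p) → Fin ℓ → F), Inv C' →
      ε * (ℓ * (p : ℝ) ^ m) ≤ finrank F C' → ∃ f ∈ C', f ≠ 0 ∧ wt f * b ≤ ℓ * (a * p ^ m)) :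
    False := by
  classical
  obtain ⟨C', hC', hd', hw'⟩ := reduce hζ he (ℓ := ℓ) (Nat.card π.ker) A π hπ rfl hA (ext F C)
    (ext_inv hC)
  have hcA : Nat.card A = Nat.card π.ker * p ^ m := by
    have h1 : Nat.card (Fin m → ZMod p) = p ^ m := by
      rw [Nat.card_eq_fintype_card, Fintype.card_fun, Fintype.card_fin, ZMod.card]
    rw [← h1, ← Nat.card_congr (QuotientAddGroup.quotientKerEquivOfSurjective π hπ).toEquiv,
      mul_comm]
    exact AddSubgroup.card_eq_card_quotient_mul_card_addSubgroup _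
  set n := Nat.card π.ker with hn
  have hn0 : 0 < n := Nat.card_pos
  have hn0' : (0 : ℝ) < n := by exact_mod_cast hn0
  have hcA' : (Nat.card A : ℝ) = n * (p : ℝ) ^ m := by rw [hcA]; push_cast; ring
  have hrate' : ε * (ℓ * (p : ℝ) ^ m) ≤ finrank F C' := by
    have h1 : (finrank (ZMod 2) C : ℝ) ≤ n * finrank F C' := by
      exact_mod_cast (ext_finrank (F := F) C).trans hd'
    rw [hcA'] at hrate
    have h2 : n * (ε * (ℓ * (p : ℝ) ^ m)) ≤ n * finrank F C' := by
      refine le_trans (le_of_eq ?_) (hrate.trans h1)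
      ring
    exact le_of_mul_le_mul_left h2 hn0'
  obtain ⟨f₁, hf₁, hf₁0, hwf₁⟩ := core C' hC' hrate'
  obtain ⟨f₂, hf₂, hf₂0, hwf₂⟩ := hw' f₁ hf₁ hf₁0
  obtain ⟨g, hg, hg0, hwg⟩ := ext_wt hf₂ hf₂0
  have h1 := hdist g hg hg0
  have h2 : (wt g : ℝ) ≤ n * wt f₁ := by exact_mod_cast hwg.trans hwf₂
  have h3 : (wt f₁ : ℝ) * b ≤ ℓ * (a * (p : ℝ) ^ m) := by exact_mod_cast hwf₁
  have hb' : (0 : ℝ) < b := by exact_mod_cast hb
  have hℓ' : (0 : ℝ) < ℓ := by exact_mod_cast hℓ
  have hp' : (0 : ℝ) < (p : ℝ) ^ m := by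
    have : (0 : ℝ) < p := by exact_mod_cast Nat.pos_of_ne_zero (NeZero.ne p)
    positivity
  rw [hcA'] at h1
  have h4 : δ * b * (ℓ * (n * (p : ℝ) ^ m)) ≤ a * (ℓ * (n * (p : ℝ) ^ m)) := by
    calc δ * b * (ℓ * (n * (p : ℝ) ^ m)) = (δ * (ℓ * (n * (p : ℝ) ^ m))) * b := by ring
      _ ≤ (n * wt f₁) * b := mul_le_mul_of_nonneg_right (h1.trans h2) hb'.le
      _ = n * (wt f₁ * b) := by ring
      _ ≤ n * (ℓ * (a * (p : ℝ) ^ m)) := mul_le_mul_of_nonneg_left h3 hn0'.le
      _ = _ := by ring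
  have h5 : (0 : ℝ) < ℓ * (n * (p : ℝ) ^ m) := by positivity
  have h6 := le_of_mul_le_mul_right h4 h5
  linarith

end transfer

/-- the bound for elementary abelian quotients -/
theorem prime_case {e : ℕ} (he : Odd e) {p : ℕ} (hp : p.Prime) {ε δ : ℝ} (hε : 0 < ε)
    (hδ : 0 < δ) :
    ∃ D : ℝ, 0 < D ∧ ∀ (A : Type) [AddCommGroup A] [Finite A] (s : ℕ),
      (∀ a : A, (2 ^ s * e) • a = 0) → ∀ (m : ℕ) (π : A →+ (Fin m → ZMod p)),
      Function.Surjective π → ∀ (ℓ : ℕ), 1 ≤ ℓ →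
      ∀ C : Submodule (ZMod 2) (A → Fin ℓ → ZMod 2), Inv C →
      ε * (ℓ * Nat.card A) ≤ finrank (ZMod 2) C →
      (∀ f ∈ C, f ≠ 0 → δ * (ℓ * Nat.card A) ≤ wt f) → m * Real.log p ≤ ℓ * D := by
  classical
  obtain ⟨F, _, _, _, _, ζ, hζ⟩ := exists_field he
  have : Fact p.Prime := ⟨hp⟩
  have hQ1 : (1 : ℝ) < Fintype.card F := by exact_mod_cast Fintype.one_lt_card
  have hQ0 : (0 : ℝ) < Fintype.card F := by linarith
  have hlQ : 0 < Real.log (Fintype.card F) := Real.log_pos hQ1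
  have hl2 : 0 < Real.log 2 := Real.log_pos (by norm_num)
  by_cases hp2 : p = 2
  · subst hp2
    obtain ⟨k, hk⟩ := exists_pow_lt_of_lt_one hδ (show (2 : ℝ)⁻¹ < 1 by norm_num)
    rw [inv_pow] at hk
    have h2k : (1 : ℝ) ≤ (2 : ℝ) ^ k := one_le_pow₀ (by norm_num)
    have h2k' : (0 : ℝ) < ((2 : ℝ) ^ k)⁻¹ := by positivity
    obtain ⟨t, ht⟩ := exists_pow_lt_of_lt_one hε (show (1 - ((2 : ℝ) ^ k)⁻¹) < 1 by linarith)
    refine ⟨((k * t + k : ℕ) : ℝ) * Real.log 2 + 2 ^ k * (2 * Real.log 2 +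
      2 ^ (k * t + k) * Real.log (Fintype.card F)), by positivity, ?_⟩
    intro A _ _ s hA m π hπ ℓ hℓ C hC hrate hdist
    by_contra hcon
    push Not at hcon
    have hℓ' : (1 : ℝ) ≤ ℓ := by exact_mod_cast hℓ
    have hkey : (2 : ℝ) ^ (k * t + k) ≤
        ((1 / 2) / (Fintype.card F : ℝ) ^ (ℓ * 2 ^ (k * t + k)) / 2) ^ (2 ^ k) * (2 : ℝ) ^ m := by
      rw [← Real.log_le_log_iff (by positivity) (by positivity), Real.log_mul (by positivity)
        (by positivity), Real.log_pow, Real.log_pow, Real.log_pow, Real.log_div (by positivity)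
        (by norm_num), Real.log_div (by norm_num) (by positivity), Real.log_pow,
        Real.log_div (by norm_num) (by norm_num), Real.log_one]
      push_cast at hcon ⊢
      have e1 : (0 : ℝ) ≤ ((k : ℝ) * t + k) * Real.log 2 := by positivity
      have e2 : (0 : ℝ) ≤ 2 ^ k * (2 * Real.log 2) := by positivity
      nlinarith [mul_le_mul_of_nonneg_right hℓ' e1, mul_le_mul_of_nonneg_right hℓ' e2]
    refine transfer hζ he hA π hπ hℓ hC hrate hdist (a := 1) (b := 2 ^ k) (by positivity) ?_ ?_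
    · push_cast
      rw [inv_lt_iff_one_lt_mul₀ (by positivity)] at hk
      exact hk
    · intro C' hC' hrate'
      obtain ⟨f, hf, hf0, hw⟩ := core_two hC' hℓ hrate' k t ht hkey
      exact ⟨f, hf, hf0, by rw [one_mul]; exact hw⟩
  · have hp1 : (1 : ℝ) < p := by exact_mod_cast hp.one_lt
    have hlp : 0 < Real.log p := Real.log_pos hp1
    obtain ⟨k, hk⟩ := exists_pow_lt_of_lt_one hδ (show ((p : ℝ) - 1) / p < 1 by
      rw [div_lt_one (by linarith)]; linarith)
    refine ⟨(k : ℝ) * Real.log p + 2 ^ k * (|Real.log ε| + Real.log 2 +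
      Real.log (Fintype.card F)), by positivity, ?_⟩
    intro A _ _ s hA m π hπ ℓ hℓ C hC hrate hdist
    by_contra hcon
    push Not at hcon
    have hℓ' : (1 : ℝ) ≤ ℓ := by exact_mod_cast hℓ
    have hm : m ≠ 0 := by
      rintro rfl
      simp only [Nat.cast_zero, zero_mul] at hcon
      have : (0 : ℝ) ≤ ℓ * (k * Real.log p + 2 ^ k * (|Real.log ε| + Real.log 2 +
        Real.log (Fintype.card F))) := by positivity
      linarith
    have hpe : p ∣ e := by
      have h1 : (2 ^ s * e) • (fun _ : Fin m => (1 : ZMod p)) = 0 := by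
        obtain ⟨a, ha⟩ := hπ (fun _ => 1)
        rw [← ha, ← map_nsmul, hA, map_zero]
      have h2 := congrFun h1 ⟨0, Nat.pos_of_ne_zero hm⟩
      simp only [Pi.smul_apply, Pi.zero_apply, nsmul_eq_mul, mul_one] at h2
      rw [ZMod.natCast_eq_zero_iff] at h2
      rcases (Nat.Prime.dvd_mul hp).1 h2 with h3 | h3
      · exact absurd ((Nat.prime_dvd_prime_iff_eq hp Nat.prime_two).1 (hp.dvd_of_dvd_pow h3)) hp2
      · exact h3
    obtain ⟨r, hr⟩ := hpe
    have he0 : 0 < e := he.pos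
    have hζp : IsPrimitiveRoot (ζ ^ r) p := hζ.pow he0 (by rw [hr, mul_comm])
    have hkey : (p : ℝ) ^ k ≤ (ε / (Fintype.card F : ℝ) ^ ℓ / 2) ^ (2 ^ k) * (p : ℝ) ^ m := by
      rw [← Real.log_le_log_iff (by positivity) (by positivity), Real.log_mul (by positivity)
        (by positivity), Real.log_pow, Real.log_pow, Real.log_pow, Real.log_div (by positivity)
        (by norm_num), Real.log_div (by positivity) (by positivity), Real.log_pow]
      push_cast at hcon ⊢
      have e1 : (0 : ℝ) ≤ (k : ℝ) * Real.log p := by positivity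
      have e2 : (0 : ℝ) ≤ 2 ^ k * (Real.log 2) := by positivity
      have e3 : (0 : ℝ) ≤ 2 ^ k * |Real.log ε| := by positivity
      have e4 : -(2 ^ k * |Real.log ε|) ≤ 2 ^ k * Real.log ε := by
        have := neg_abs_le (Real.log ε)
        have h2 : (0 : ℝ) ≤ 2 ^ k := by positivity
        nlinarith
      nlinarith [mul_le_mul_of_nonneg_right hℓ' e1, mul_le_mul_of_nonneg_right hℓ' e2,
        mul_le_mul_of_nonneg_right hℓ' e3]
    refine transfer hζ he hA π hπ hℓ hC hrate hdist (a := (p - 1) ^ k) (b := p ^ k)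
      (pow_pos hp.pos _) ?_ ?_
    · rw [div_pow, div_lt_iff₀ (by positivity)] at hk
      push_cast [Nat.cast_sub hp.one_lt.le]
      exact hk
    · intro C' hC' hrate'
      obtain ⟨f, hf, hf0, hw⟩ := core_odd hζp hC' hℓ hε hrate' k hkey
      exact ⟨f, hf, hf0, hw⟩

section index

variable {A : Type} [AddCommGroup A] [Finite A]

/-- the subgroup `nA` -/
def mulRange (A : Type) [AddCommGroup A] (n : ℕ) : AddSubgroup A := (nsmulAddMonoidHom n).range

omit [Finite A] in
theorem mem_mulRange {n : ℕ} {a : A} : a ∈ mulRange A n ↔ ∃ b : A, n • b = a := Iff.rfl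

theorem index_mul_le (a b : ℕ) :
    (mulRange A (a * b)).index ≤ (mulRange A a).index * (mulRange A b).index := by
  have hle : mulRange A (a * b) ≤ mulRange A a := by
    intro x hx
    rw [mem_mulRange] at hx ⊢
    obtain ⟨y, rfl⟩ := hx
    exact ⟨b • y, by rw [← mul_nsmul, mul_comm]⟩
  rw [← AddSubgroup.relIndex_mul_index hle, mul_comm]
  apply Nat.mul_le_mul_left
  let g : A →+ mulRange A a :=
    { toFun := fun x => ⟨a • x, ⟨x, rfl⟩⟩
      map_zero' := Subtype.ext (smul_zero a)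
      map_add' := fun x y => Subtype.ext (smul_add a x y) }
  have hg : Function.Surjective g := by
    rintro ⟨x, y, hy⟩
    exact ⟨y, Subtype.ext hy⟩
  have h1 : (mulRange A (a * b)).addSubgroupOf (mulRange A a) = (mulRange A b).map g := by
    ext ⟨x, hx⟩
    rw [AddSubgroup.mem_addSubgroupOf, AddSubgroup.mem_map]
    constructor
    · rintro ⟨y, hy⟩
      refine ⟨b • y, ⟨y, rfl⟩, ?_⟩
      apply Subtype.ext
      show a • (b • y) = x
      rw [← mul_nsmul, mul_comm]
      exact hy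
    · rintro ⟨y, ⟨z, rfl⟩, hz⟩
      have h2 : a • (b • z) = x := congrArg Subtype.val hz
      refine ⟨z, ?_⟩
      show (a * b) • z = x
      rw [← h2, ← mul_nsmul, mul_comm]
  have h2 := AddSubgroup.index_map_dvd (mulRange A b) hg
  rw [AddSubgroup.relIndex, h1]
  exact Nat.le_of_dvd (Nat.pos_of_ne_zero AddSubgroup.index_ne_zero_of_finite) h2

omit [Finite A] in
theorem exists_linear {p : ℕ} [Fact p.Prime] [Module (ZMod p) A] [Module.Finite (ZMod p) A] :
    ∃ (m : ℕ) (π : A →+ (Fin m → ZMod p)), Function.Surjective π ∧ Nat.card A = p ^ m := by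
  let b := Module.finBasis (ZMod p) A
  refine ⟨finrank (ZMod p) A, b.equivFun.toLinearMap.toAddMonoidHom, b.equivFun.surjective, ?_⟩
  rw [Module.natCard_eq_pow_finrank (K := ZMod p), Nat.card_zmod]

theorem exists_elementary {p : ℕ} (hp : p.Prime) :
    ∃ (m : ℕ) (π : A →+ (Fin m → ZMod p)), Function.Surjective π ∧
      (mulRange A p).index = p ^ m := by
  have : Fact p.Prime := ⟨hp⟩
  have hV : ∀ x : A ⧸ mulRange A p, p • x = 0 := by
    intro x
    obtain ⟨y, rfl⟩ := QuotientAddGroup.mk'_surjective _ x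
    rw [← map_nsmul]
    exact (QuotientAddGroup.eq_zero_iff _).2 ⟨y, rfl⟩
  have : Module (ZMod p) (A ⧸ mulRange A p) := AddCommGroup.zmodModule hV
  have : Module.Finite (ZMod p) (A ⧸ mulRange A p) := Module.Finite.of_finite
  obtain ⟨m, π, hπ, hm⟩ := exists_linear (A := A ⧸ mulRange A p) (p := p)
  exact ⟨m, π.comp (QuotientAddGroup.mk' _), hπ.comp (QuotientAddGroup.mk'_surjective _), hm⟩

end index

/-- **The lower bound for the number of orbits.** -/
theorem index_bound {e : ℕ} (he : Odd e) {ε δ : ℝ} (hε : 0 < ε) (hδ : 0 < δ) (n : ℕ)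
    (hn : 0 < n) :
    ∃ D : ℝ, 0 < D ∧ ∀ (A : Type) [AddCommGroup A] [Finite A] (s : ℕ),
      (∀ a : A, (2 ^ s * e) • a = 0) → ∀ (ℓ : ℕ), 1 ≤ ℓ →
      ∀ C : Submodule (ZMod 2) (A → Fin ℓ → ZMod 2), Inv C →
      ε * (ℓ * Nat.card A) ≤ finrank (ZMod 2) C →
      (∀ f ∈ C, f ≠ 0 → δ * (ℓ * Nat.card A) ≤ wt f) →
      Real.log ((mulRange A n).index) ≤ ℓ * D := by
  revert hn
  induction n using Nat.recOnMul with
  | zero => intro h; exact absurd h (lt_irrefl _)
  | one =>
    intro _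
    refine ⟨1, one_pos, ?_⟩
    intro A _ _ s hA ℓ hℓ C hC hrate hdist
    have h1 : mulRange A 1 = ⊤ := by
      rw [eq_top_iff]
      intro x _
      exact ⟨x, one_nsmul x⟩
    rw [h1, AddSubgroup.index_top, Nat.cast_one, Real.log_one]
    positivity
  | prime p hp =>
    intro _
    obtain ⟨D, hD, h⟩ := prime_case he hp hε hδ
    refine ⟨D, hD, ?_⟩
    intro A _ _ s hA ℓ hℓ C hC hrate hdist
    obtain ⟨m, π, hπ, hidx⟩ := exists_elementary (A := A) hp
    rw [hidx, Nat.cast_pow, Real.log_pow]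
    exact h A s hA m π hπ ℓ hℓ C hC hrate hdist
  | mul a b iha ihb =>
    intro hab
    have ha : 0 < a := Nat.pos_of_mul_pos_right hab
    have hb : 0 < b := Nat.pos_of_mul_pos_left hab
    obtain ⟨D₁, hD₁, h₁⟩ := iha ha
    obtain ⟨D₂, hD₂, h₂⟩ := ihb hb
    refine ⟨D₁ + D₂, add_pos hD₁ hD₂, ?_⟩
    intro A _ _ s hA ℓ hℓ C hC hrate hdist
    have e1 := h₁ A s hA ℓ hℓ C hC hrate hdist
    have e2 := h₂ A s hA ℓ hℓ C hC hrate hdist
    have e3 := index_mul_le (A := A) a b
    have pa : (0 : ℝ) < (mulRange A a).index := by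
      exact_mod_cast Nat.pos_of_ne_zero AddSubgroup.index_ne_zero_of_finite
    have pb : (0 : ℝ) < (mulRange A b).index := by
      exact_mod_cast Nat.pos_of_ne_zero AddSubgroup.index_ne_zero_of_finite
    have pab : (0 : ℝ) < (mulRange A (a * b)).index := by
      exact_mod_cast Nat.pos_of_ne_zero AddSubgroup.index_ne_zero_of_finite
    calc Real.log ((mulRange A (a * b)).index)
        ≤ Real.log (((mulRange A a).index : ℝ) * (mulRange A b).index) :=
          Real.log_le_log pab (by exact_mod_cast e3)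
      _ = Real.log ((mulRange A a).index) + Real.log ((mulRange A b).index) :=
          Real.log_mul pa.ne' pb.ne'
      _ ≤ ℓ * D₁ + ℓ * D₂ := add_le_add e1 e2
      _ = ℓ * (D₁ + D₂) := by ring

end Pool.Agent.Lib.MP_0430e4_lc.Free
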