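import Mathlib

/-!
# Codes with a free abelian group of automorphisms (helper91): the local code
-/

namespace Pool.Agent.Lib.MP_0430e4_lc.Free

open Finset Module

/-- number of words of small weight -/
theorem vol_le (ℓ : ℕ) :
    (univ.filter fun w : Fin ℓ → ZMod 2 => 100 * hammingNorm w < ℓ).card * 16 ^ (ℓ - ℓ / 100) ≤
      17 ^ ℓ := by
  classical
  have h1 : ∑ w : Fin ℓ → ZMod 2, ∏ i, (if w i = 0 then 16 else 1 : ℕ) = 17 ^ ℓ := by
    have h2 := Finset.prod_univ_sum (fun _ : Fin ℓ => (univ : Finset (ZMod 2)))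
      (fun _ a => (if a = 0 then 16 else 1 : ℕ))
    rw [Fintype.piFinset_univ] at h2
    rw [← h2]
    rw [Finset.prod_const, card_univ, Fintype.card_fin]
    rfl
  have h2 : ∀ w : Fin ℓ → ZMod 2, ∏ i, (if w i = 0 then 16 else 1 : ℕ) =
      16 ^ (ℓ - hammingNorm w) := by
    intro w
    rw [Finset.prod_ite, Finset.prod_const, Finset.prod_const_one, mul_one]
    congr 1
    have h3 := Finset.card_filter_add_card_filter_not (s := (univ : Finset (Fin ℓ))) (fun i => w i = 0)
    rw [card_univ, Fintype.card_fin] at h3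
    have h4 : hammingNorm w = (univ.filter fun i => ¬ w i = 0).card := rfl
    omega
  rw [← h1, ← smul_eq_mul, ← Finset.sum_const]
  calc ∑ _w ∈ univ.filter (fun w : Fin ℓ → ZMod 2 => 100 * hammingNorm w < ℓ), 16 ^ (ℓ - ℓ / 100)
      ≤ ∑ w ∈ univ.filter (fun w : Fin ℓ → ZMod 2 => 100 * hammingNorm w < ℓ),
          ∏ i, (if w i = 0 then 16 else 1 : ℕ) := by
        apply Finset.sum_le_sum
        intro w hw
        rw [h2]
        have h3 := (mem_filter.1 hw).2
        apply Nat.pow_le_pow_right (by norm_num)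
        omega
    _ ≤ _ := Finset.sum_le_sum_of_subset (filter_subset _ _)

/-- number of words of small weight, logarithmic form -/
theorem vol_lt {ℓ d : ℕ} (hd : 4 * d < 3 * ℓ) :
    2 ^ d * (univ.filter fun w : Fin ℓ → ZMod 2 => 100 * hammingNorm w < ℓ).card < 2 ^ ℓ := by
  set V := (univ.filter fun w : Fin ℓ → ZMod 2 => 100 * hammingNorm w < ℓ).card with hV
  have h1 := vol_le ℓ
  rw [← hV] at h1
  have hℓ : 0 < ℓ := by omega
  have h2 : (V : ℝ) * 16 ^ (ℓ - ℓ / 100) ≤ 17 ^ ℓ := by exact_mod_cast h1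
  have hV0 : 0 < V := by
    rw [hV, card_pos]
    refine ⟨0, ?_⟩
    simp [hℓ]
  have hV0' : (0 : ℝ) < V := by exact_mod_cast hV0
  have key : (2 : ℝ) ^ d * V < 2 ^ ℓ := by
    have h3 := Real.log_le_log (by positivity) h2
    rw [Real.log_mul hV0'.ne' (by positivity), Real.log_pow, Real.log_pow] at h3
    rw [← Real.log_lt_log_iff (by positivity) (by positivity), Real.log_mul (by positivity)
      hV0'.ne', Real.log_pow, Real.log_pow]
    have h4 : Real.log 16 = 4 * Real.log 2 := by
      rw [show (16 : ℝ) = 2 ^ 4 by norm_num, Real.log_pow]; norm_num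
    have h5 : Real.log 17 ≤ 4 * Real.log 2 + 1 / 16 := by
      rw [← h4, show (17 : ℝ) = 16 * (17 / 16) by norm_num, Real.log_mul (by norm_num)
        (by norm_num)]
      have := Real.log_le_sub_one_of_pos (show (0 : ℝ) < 17 / 16 by norm_num)
      norm_num at this ⊢
      linarith
    have h6 := Real.log_two_gt_d9
    rw [h4] at h3
    have h7 : ((ℓ - ℓ / 100 : ℕ) : ℝ) ≥ (99 / 100) * ℓ := by
      have h8 : 100 * (ℓ - ℓ / 100) ≥ 99 * ℓ := by omega
      have h9 : (100 : ℝ) * ((ℓ - ℓ / 100 : ℕ) : ℝ) ≥ 99 * ℓ := by exact_mod_cast h8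
      linarith
    have h8 : (4 : ℝ) * d < 3 * ℓ := by exact_mod_cast hd
    have hℓ' : (0 : ℝ) < ℓ := by exact_mod_cast hℓ
    have e1 : (ℓ : ℝ) * Real.log 17 ≤ ℓ * (4 * Real.log 2 + 1 / 16) :=
      mul_le_mul_of_nonneg_left h5 hℓ'.le
    have e2 : (99 / 100) * ℓ * (4 * Real.log 2) ≤ ((ℓ - ℓ / 100 : ℕ) : ℝ) * (4 * Real.log 2) :=
      mul_le_mul_of_nonneg_right h7 (by linarith)
    have e3 : (d : ℝ) * Real.log 2 ≤ (3 / 4) * ℓ * Real.log 2 :=
      mul_le_mul_of_nonneg_right (by linarith) (by linarith)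
    have e4 : (0.6931471803 : ℝ) * ℓ ≤ ℓ * Real.log 2 := by
      rw [mul_comm]
      exact mul_le_mul_of_nonneg_left h6.le hℓ'.le
    nlinarith
  exact_mod_cast key

/-- linear codes of rate 3/4 and relative distance 1/100 -/
theorem exists_local (ℓ : ℕ) (d : ℕ) (hd : 4 * d ≤ 3 * ℓ + 3) :
    ∃ B : Submodule (ZMod 2) (Fin ℓ → ZMod 2), d ≤ finrank (ZMod 2) B ∧
      ∀ w ∈ B, w ≠ 0 → ℓ ≤ 100 * hammingNorm w := by
  classical
  induction d with
  | zero =>
    refine ⟨⊥, Nat.zero_le _, ?_⟩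
    intro w hw h0
    exact absurd ((Submodule.mem_bot _).1 hw) h0
  | succ d ih =>
    obtain ⟨B, hB, hw⟩ := ih (by omega)
    rcases Nat.lt_or_ge d (finrank (ZMod 2) B) with h1 | h1
    · exact ⟨B, h1, hw⟩
    have hBd : finrank (ZMod 2) B = d := le_antisymm h1 hB
    have hd' : 4 * d < 3 * ℓ := by omega
    have hℓ : 0 < ℓ := by omega
    let U : Finset (Fin ℓ → ZMod 2) := univ.filter fun w => 100 * hammingNorm w < ℓ
    have hlt : (2 : ℕ) ^ d * U.card < 2 ^ ℓ := vol_lt hd'
    let Bf : Finset (Fin ℓ → ZMod 2) := univ.filter fun w => w ∈ B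
    have hBf : Bf.card = 2 ^ d := by
      have h2 : Nat.card B = 2 ^ d := by
        rw [Module.natCard_eq_pow_finrank (K := ZMod 2), hBd, Nat.card_zmod]
      rw [← h2, Nat.card_eq_fintype_card, Fintype.card_subtype]
    have hex : ∃ v : Fin ℓ → ZMod 2, v ∉ (Bf ×ˢ U).image fun q => q.1 + q.2 := by
      by_contra hcon
      push Not at hcon
      have h3 : (univ : Finset (Fin ℓ → ZMod 2)) ⊆ (Bf ×ˢ U).image fun q => q.1 + q.2 :=
        fun v _ => hcon v
      have h4 := (card_le_card h3).trans card_image_le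
      rw [card_univ, card_product, hBf, Fintype.card_fun, Fintype.card_fin, ZMod.card] at h4
      omega
    obtain ⟨v, hv⟩ := hex
    have hv' : ∀ b ∈ B, ℓ ≤ 100 * hammingNorm (b + v) := by
      intro b hb
      by_contra hcon
      push Not at hcon
      apply hv
      rw [mem_image]
      refine ⟨(b, b + v), ?_, ?_⟩
      · rw [mem_product]
        exact ⟨mem_filter.2 ⟨mem_univ _, hb⟩, mem_filter.2 ⟨mem_univ _, hcon⟩⟩
      · have : b + b = 0 := by funext i; exact CharTwo.add_self_eq_zero _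
        show b + (b + v) = v
        rw [← add_assoc, this, zero_add]
    have hvB : v ∉ B := by
      intro hvB
      have h2 := hv' v hvB
      have : v + v = 0 := by funext i; exact CharTwo.add_self_eq_zero _
      rw [this, hammingNorm_zero] at h2
      omega
    refine ⟨B ⊔ Submodule.span (ZMod 2) {v}, ?_, ?_⟩
    · have h2 : B < B ⊔ Submodule.span (ZMod 2) {v} := by
        refine lt_of_le_of_ne le_sup_left ?_
        intro h
        apply hvB
        rw [h]
        exact Submodule.mem_sup_right (Submodule.mem_span_singleton_self v)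
      have h3 := Submodule.finrank_lt_finrank_of_lt h2
      omega
    · intro w hw' h0
      obtain ⟨b, hb, z, hz, rfl⟩ := Submodule.mem_sup.1 hw'
      obtain ⟨c, rfl⟩ := Submodule.mem_span_singleton.1 hz
      have hc : ∀ c : ZMod 2, c = 0 ∨ c = 1 := by decide
      rcases hc c with rfl | rfl
      · rw [zero_smul, add_zero] at h0 ⊢
        exact hw b hb h0
      · rw [one_smul]
        exact hv' b hb

end Pool.Agent.Lib.MP_0430e4_lc.Free
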