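import Mathlib
import Pool.Agent.Lib.MP_0430e4_lc.Free.Basic
import Pool.Agent.Lib.MP_0430e4_lc.Free.Local
import Pool.Agent.Lib.MP_0430e4_lc.Free.Expand

/-!
# Codes with a free abelian group of automorphisms (helper91): good codes with logarithmically
many orbits
-/

namespace Pool.Agent.Lib.MP_0430e4_lc.Free

open Finset Module

section mixing

variable {A : Type*} [AddCommGroup A] [Fintype A] {ℓ : ℕ}

theorem parseval (S : Finset A) :
    ∑ χ : AddChar A ℂ, ‖∑ x ∈ S, χ x‖ ^ 2 = Fintype.card A * S.card := by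
  classical
  have h : ((∑ χ : AddChar A ℂ, ‖∑ x ∈ S, χ x‖ ^ 2 : ℝ) : ℂ) =
      ((Fintype.card A * S.card : ℝ) : ℂ) := by
    push_cast
    have h1 : ∀ χ : AddChar A ℂ, ((‖∑ x ∈ S, χ x‖ : ℂ)) ^ 2 =
        ∑ x ∈ S, ∑ y ∈ S, χ (x - y) := by
      intro χ
      rw [← Complex.mul_conj', map_sum, Finset.sum_mul_sum]
      apply Finset.sum_congr rfl
      intro x _
      apply Finset.sum_congr rfl
      intro y _
      rw [← AddChar.map_neg_eq_conj, ← AddChar.map_add_eq_mul, sub_eq_add_neg]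
    simp only [h1]
    rw [Finset.sum_comm]
    have h2 : ∀ x ∈ S, ∑ χ : AddChar A ℂ, ∑ y ∈ S, χ (x - y) = Fintype.card A := by
      intro x hx
      rw [Finset.sum_comm]
      simp only [AddChar.sum_apply_eq_ite]
      rw [Finset.sum_eq_single x]
      · rw [sub_self, if_pos rfl]
      · intro y _ hy
        rw [if_neg (sub_ne_zero.2 (Ne.symm hy))]
      · intro h; exact absurd hx h
    rw [Finset.sum_congr rfl h2, Finset.sum_const, nsmul_eq_mul, mul_comm]
  exact_mod_cast h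

theorem mix_id [DecidableEq A] (s : Fin ℓ → A) (S T : Finset A) :
    ∑ χ : AddChar A ℂ, (∑ x ∈ S, χ x) * (∑ i, χ (s i)) * (∑ z ∈ T, χ (-z)) =
      (Fintype.card A : ℂ) *
        ((S ×ˢ (univ : Finset (Fin ℓ))).filter fun q => q.1 + s q.2 ∈ T).card := by
  classical
  have h1 : ∀ χ : AddChar A ℂ, (∑ x ∈ S, χ x) * (∑ i, χ (s i)) * (∑ z ∈ T, χ (-z)) =
      ∑ q ∈ S ×ˢ (univ : Finset (Fin ℓ)), ∑ z ∈ T, χ (q.1 + s q.2 - z) := by
    intro χ
    rw [Finset.sum_mul_sum, ← Finset.sum_product', Finset.sum_mul_sum]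
    apply Finset.sum_congr rfl
    intro q _
    apply Finset.sum_congr rfl
    intro z _
    rw [sub_eq_add_neg, AddChar.map_add_eq_mul, AddChar.map_add_eq_mul]
  simp only [h1]
  rw [Finset.sum_comm]
  have h2 : ∀ q : A × Fin ℓ, ∑ χ : AddChar A ℂ, ∑ z ∈ T, χ (q.1 + s q.2 - z) =
      if q.1 + s q.2 ∈ T then (Fintype.card A : ℂ) else 0 := by
    intro q
    rw [Finset.sum_comm]
    simp only [AddChar.sum_apply_eq_ite]
    split_ifs with h
    · rw [Finset.sum_eq_single (q.1 + s q.2)]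
      · rw [sub_self, if_pos rfl]
      · intro y _ hy
        rw [if_neg (sub_ne_zero.2 (Ne.symm hy))]
      · intro h'; exact absurd h h'
    · apply Finset.sum_eq_zero
      intro z hz
      rw [if_neg]
      intro h3
      rw [sub_eq_zero.1 h3] at h
      exact h hz
  simp only [h2]
  rw [← Finset.sum_filter, Finset.sum_const, nsmul_eq_mul, mul_comm]

/-- the expander mixing lemma -/
theorem mixing [DecidableEq A] {s : Fin ℓ → A} {lam : ℝ} (hlam : 0 ≤ lam)
    (hs : ∀ χ : AddChar A ℂ, χ ≠ 0 → ‖∑ i, χ (s i)‖ ≤ lam * ℓ) (S T : Finset A) :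
    (((S ×ˢ (univ : Finset (Fin ℓ))).filter fun q => q.1 + s q.2 ∈ T).card : ℝ) ≤
      ℓ * S.card * T.card / Fintype.card A + lam * ℓ * (S.card + T.card) / 2 := by
  classical
  set E := ((S ×ˢ (univ : Finset (Fin ℓ))).filter fun q => q.1 + s q.2 ∈ T).card with hE
  have hA : (0 : ℝ) < Fintype.card A := by exact_mod_cast Fintype.card_pos
  have hid := mix_id s S T
  rw [← hE] at hid
  have h1 : (Fintype.card A : ℝ) * E ≤ ∑ χ : AddChar A ℂ,
      ‖∑ x ∈ S, χ x‖ * ‖∑ i, χ (s i)‖ * ‖∑ z ∈ T, χ z‖ := by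
    have h2 : ‖(Fintype.card A : ℂ) * E‖ = (Fintype.card A : ℝ) * E := by
      rw [norm_mul, Complex.norm_natCast, Complex.norm_natCast]
    rw [← h2, ← hid]
    refine (norm_sum_le _ _).trans (Finset.sum_le_sum fun χ _ => ?_)
    rw [norm_mul, norm_mul]
    apply le_of_eq
    congr 1
    have h3 : ∑ z ∈ T, χ (-z) = (starRingEnd ℂ) (∑ z ∈ T, χ z) := by
      rw [map_sum]
      exact Finset.sum_congr rfl fun z _ => AddChar.map_neg_eq_conj χ z
    rw [h3, Complex.norm_conj]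
  have h2 : ∀ χ : AddChar A ℂ, ‖∑ x ∈ S, χ x‖ * ‖∑ i, χ (s i)‖ * ‖∑ z ∈ T, χ z‖ ≤
      (if χ = 0 then (ℓ : ℝ) * S.card * T.card else 0) +
        lam * ℓ * (‖∑ x ∈ S, χ x‖ ^ 2 + ‖∑ x ∈ T, χ x‖ ^ 2) / 2 := by
    intro χ
    have hn1 := norm_nonneg (∑ x ∈ S, χ x)
    have hn2 := norm_nonneg (∑ x ∈ T, χ x)
    have hℓ0 : (0 : ℝ) ≤ ℓ := Nat.cast_nonneg _
    split_ifs with h
    · subst h
      have e1 : ∑ x ∈ S, (0 : AddChar A ℂ) x = S.card := by
        simp [AddChar.zero_apply]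
      have e2 : ∑ x ∈ T, (0 : AddChar A ℂ) x = T.card := by
        simp [AddChar.zero_apply]
      have e3 : ∑ i, (0 : AddChar A ℂ) (s i) = ℓ := by
        simp [AddChar.zero_apply]
      rw [e1, e2, e3, Complex.norm_natCast, Complex.norm_natCast, Complex.norm_natCast]
      have : (0 : ℝ) ≤ lam * ℓ * ((S.card : ℝ) ^ 2 + (T.card : ℝ) ^ 2) / 2 := by positivity
      nlinarith
    · rw [zero_add]
      have h3 := hs χ h
      have h4 : ‖∑ x ∈ S, χ x‖ * ‖∑ i, χ (s i)‖ * ‖∑ z ∈ T, χ z‖ ≤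
          (lam * ℓ) * (‖∑ x ∈ S, χ x‖ * ‖∑ z ∈ T, χ z‖) := by
        calc _ = ‖∑ i, χ (s i)‖ * (‖∑ x ∈ S, χ x‖ * ‖∑ z ∈ T, χ z‖) := by ring
          _ ≤ _ := mul_le_mul_of_nonneg_right h3 (by positivity)
      have h5 : ‖∑ x ∈ S, χ x‖ * ‖∑ z ∈ T, χ z‖ ≤
          (‖∑ x ∈ S, χ x‖ ^ 2 + ‖∑ x ∈ T, χ x‖ ^ 2) / 2 := by
        nlinarith [sq_nonneg (‖∑ x ∈ S, χ x‖ - ‖∑ z ∈ T, χ z‖)]
      calc _ ≤ (lam * ℓ) * (‖∑ x ∈ S, χ x‖ * ‖∑ z ∈ T, χ z‖) := h4
        _ ≤ (lam * ℓ) * ((‖∑ x ∈ S, χ x‖ ^ 2 + ‖∑ x ∈ T, χ x‖ ^ 2) / 2) :=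
            mul_le_mul_of_nonneg_left h5 (by positivity)
        _ = _ := by ring
  have h3 := h1.trans (Finset.sum_le_sum fun χ _ => h2 χ)
  rw [Finset.sum_add_distrib, Finset.sum_ite_eq' univ (0 : AddChar A ℂ), if_pos (mem_univ _)] at h3
  have h4 : ∑ χ : AddChar A ℂ, lam * ℓ * (‖∑ x ∈ S, χ x‖ ^ 2 + ‖∑ x ∈ T, χ x‖ ^ 2) / 2 =
      lam * ℓ * (Fintype.card A * S.card + Fintype.card A * T.card) / 2 := by
    rw [← parseval S, ← parseval T, ← Finset.sum_add_distrib, Finset.mul_sum, Finset.sum_div]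
  rw [h4] at h3
  have h5 : (E : ℝ) ≤ (ℓ * S.card * T.card + lam * ℓ * (Fintype.card A * S.card +
      Fintype.card A * T.card) / 2) / Fintype.card A := by
    rw [le_div_iff₀ hA]
    linarith
  refine h5.trans (le_of_eq ?_)
  field_simp

end mixing

section tanner

variable {A : Type*} [AddCommGroup A] {ℓ : ℕ}

/-- the Tanner code on the bipartite Cayley graph -/
def tanner (s : Fin ℓ → A) (B : Submodule (ZMod 2) (Fin ℓ → ZMod 2)) :
    Submodule (ZMod 2) (A → Fin ℓ → ZMod 2) where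
  carrier := {f | (∀ x, f x ∈ B) ∧ ∀ y, (fun i => f (y - s i) i) ∈ B}
  add_mem' hf hg := ⟨fun x => B.add_mem (hf.1 x) (hg.1 x), fun y => B.add_mem (hf.2 y) (hg.2 y)⟩
  zero_mem' := ⟨fun _ => B.zero_mem, fun _ => B.zero_mem⟩
  smul_mem' c _ hf := ⟨fun x => B.smul_mem c (hf.1 x), fun y => B.smul_mem c (hf.2 y)⟩

theorem tanner_inv (s : Fin ℓ → A) (B : Submodule (ZMod 2) (Fin ℓ → ZMod 2)) :
    Inv (tanner s B) := by
  intro a f hf
  refine ⟨fun x => hf.1 (x + a), fun y => ?_⟩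
  have h1 := hf.2 (y + a)
  have h2 : (fun i => f (y + a - s i) i) = (fun i => (fun x => f (x + a)) (y - s i) i) := by
    funext i
    have : y + a - s i = y - s i + a := by abel
    rw [this]
  rw [h2] at h1
  exact h1

variable [Fintype A]

theorem tanner_finrank (s : Fin ℓ → A) (B : Submodule (ZMod 2) (Fin ℓ → ZMod 2)) :
    Fintype.card A * ℓ ≤ finrank (ZMod 2) (tanner s B) +
      2 * (Fintype.card A * (ℓ - finrank (ZMod 2) B)) := by
  classical
  let L : (A → Fin ℓ → ZMod 2) →ₗ[ZMod 2]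
      ((A → (Fin ℓ → ZMod 2) ⧸ B) × (A → (Fin ℓ → ZMod 2) ⧸ B)) :=
    { toFun := fun f => (fun x => B.mkQ (f x), fun y => B.mkQ (fun i => f (y - s i) i))
      map_add' := fun f g => by
        refine Prod.ext ?_ ?_
        · funext x; exact map_add B.mkQ _ _
        · funext x; exact map_add B.mkQ (fun i => f (x - s i) i) (fun i => g (x - s i) i)
      map_smul' := fun c f => by
        refine Prod.ext ?_ ?_
        · funext x; exact map_smul B.mkQ _ _
        · funext x; exact map_smul B.mkQ c (fun i => f (x - s i) i) }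
  have hker : LinearMap.ker L ≤ tanner s B := by
    intro f hf
    have h1 : L f = 0 := hf
    have h2 := congrArg Prod.fst h1
    have h3 := congrArg Prod.snd h1
    refine ⟨fun x => ?_, fun y => ?_⟩
    · have := congrFun h2 x
      exact (Submodule.Quotient.mk_eq_zero B).1 this
    · have := congrFun h3 y
      exact (Submodule.Quotient.mk_eq_zero B).1 this
  have h1 := LinearMap.finrank_range_add_finrank_ker L
  have h2 := Submodule.finrank_mono hker
  have h3 := Submodule.finrank_le (LinearMap.range L)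
  have h4 : finrank (ZMod 2) (A → Fin ℓ → ZMod 2) = Fintype.card A * ℓ := by
    rw [finrank_pi_fintype]
    simp
  have h5 : finrank (ZMod 2) ((A → (Fin ℓ → ZMod 2) ⧸ B) × (A → (Fin ℓ → ZMod 2) ⧸ B)) =
      2 * (Fintype.card A * (ℓ - finrank (ZMod 2) B)) := by
    have h6 := Submodule.finrank_quotient_add_finrank B
    rw [finrank_fintype_fun_eq_card, Fintype.card_fin] at h6
    have h7 : finrank (ZMod 2) ((Fin ℓ → ZMod 2) ⧸ B) = ℓ - finrank (ZMod 2) B := by omega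
    rw [finrank_prod, finrank_pi_fintype]
    simp only [h7, Finset.sum_const, card_univ, smul_eq_mul]
    ring
  omega

omit [AddCommGroup A] in
/-- the weight as a sum over the left vertices -/
theorem wt_eq_sum (f : A → Fin ℓ → ZMod 2) : wt f = ∑ x, hammingNorm (f x) := by
  classical
  unfold wt
  have e1 : {q : A × Fin ℓ | f q.1 q.2 ≠ 0} =
      ((univ.filter fun q : A × Fin ℓ => f q.1 q.2 ≠ 0 : Finset _) : Set _) := by
    ext q; simp
  rw [e1, Set.ncard_coe_finset, Finset.card_eq_sum_card_fiberwise (f := Prod.fst) (t := univ)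
    (fun _ _ => mem_coe.2 (mem_univ _))]
  apply Finset.sum_congr rfl
  intro x _
  unfold hammingNorm
  refine Finset.card_bij' (fun q _ => q.2) (fun i _ => (x, i)) ?_ ?_ ?_ ?_
  · intro q hq
    simp only [mem_filter, mem_univ, true_and] at hq ⊢
    rw [← hq.2]
    exact hq.1
  · intro i hi
    simp only [mem_filter, mem_univ, true_and] at hi ⊢
    exact ⟨hi, trivial⟩
  · intro q hq
    simp only [mem_filter, mem_univ, true_and] at hq
    rw [← hq.2]
  · intro i _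
    rfl

omit [Fintype A] in
theorem wt_shear (s : Fin ℓ → A) (f : A → Fin ℓ → ZMod 2) :
    wt (fun y i => f (y - s i) i) = wt f := by
  classical
  unfold wt
  apply Set.ncard_congr (fun q _ => (q.1 - s q.2, q.2))
  · intro q hq
    exact hq
  · intro q r _ _ h
    have h1 := (Prod.mk.inj h)
    have h2 : q.2 = r.2 := h1.2
    have h3 := h1.1
    rw [h2] at h3
    exact Prod.ext (sub_left_injective h3) h2
  · intro q hq
    refine ⟨(q.1 + s q.2, q.2), ?_, ?_⟩
    · show f (q.1 + s q.2 - s q.2) q.2 ≠ 0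
      rw [add_sub_cancel_right]
      exact hq
    · show (q.1 + s q.2 - s q.2, q.2) = q
      rw [add_sub_cancel_right]

omit [AddCommGroup A] in
theorem support_le {B : Submodule (ZMod 2) (Fin ℓ → ZMod 2)}
    (hB : ∀ w ∈ B, w ≠ 0 → ℓ ≤ 100 * hammingNorm w) {f : A → Fin ℓ → ZMod 2}
    (hf : ∀ x, f x ∈ B) [DecidableEq A] [DecidablePred fun x => f x ≠ 0] :
    ℓ * (univ.filter fun x => f x ≠ 0).card ≤ 100 * wt f := by
  rw [wt_eq_sum, Finset.mul_sum, mul_comm, ← smul_eq_mul, ← Finset.sum_const]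
  calc ∑ _x ∈ univ.filter (fun x => f x ≠ 0), ℓ
      ≤ ∑ x ∈ univ.filter (fun x => f x ≠ 0), 100 * hammingNorm (f x) :=
        Finset.sum_le_sum fun x hx => hB _ (hf x) (mem_filter.1 hx).2
    _ ≤ _ := Finset.sum_le_sum_of_subset (filter_subset _ _)

theorem tanner_dist {s : Fin ℓ → A} (hℓ : 1 ≤ ℓ)
    (hs : ∀ χ : AddChar A ℂ, χ ≠ 0 → ‖∑ i, χ (s i)‖ ≤ 1 / 200 * ℓ)
    {B : Submodule (ZMod 2) (Fin ℓ → ZMod 2)}
    (hB : ∀ w ∈ B, w ≠ 0 → ℓ ≤ 100 * hammingNorm w) {f : A → Fin ℓ → ZMod 2}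
    (hf : f ∈ tanner s B) (h0 : f ≠ 0) : (1 / 20000 : ℝ) * (ℓ * Nat.card A) ≤ wt f := by
  classical
  let S : Finset A := univ.filter fun x => f x ≠ 0
  let g : A → Fin ℓ → ZMod 2 := fun y i => f (y - s i) i
  let T : Finset A := univ.filter fun y => g y ≠ 0
  have hS : ℓ * S.card ≤ 100 * wt f := support_le hB hf.1
  have hT : ℓ * T.card ≤ 100 * wt f := by
    have h1 : ℓ * T.card ≤ 100 * wt g := support_le hB hf.2
    rwa [wt_shear s f] at h1
  have hW : wt f ≤ ((S ×ˢ (univ : Finset (Fin ℓ))).filter fun q => q.1 + s q.2 ∈ T).card := by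
    unfold wt
    rw [← Set.ncard_coe_finset]
    apply Set.ncard_le_ncard _ (Finset.finite_toSet _)
    intro q hq
    rw [mem_coe, mem_filter, mem_product]
    refine ⟨⟨?_, mem_univ _⟩, ?_⟩
    · rw [mem_filter]
      refine ⟨mem_univ _, ?_⟩
      intro h
      exact hq (by rw [h]; rfl)
    · rw [mem_filter]
      refine ⟨mem_univ _, ?_⟩
      intro h
      have h1 : f (q.1 + s q.2 - s q.2) q.2 = 0 := congrFun h q.2
      rw [add_sub_cancel_right] at h1
      exact hq h1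
  have hmix := mixing (by norm_num : (0 : ℝ) ≤ 1 / 200) hs S T
  have hA : (0 : ℝ) < Fintype.card A := by exact_mod_cast Fintype.card_pos
  have hℓ' : (0 : ℝ) < ℓ := by exact_mod_cast hℓ
  have hW0 : 0 < wt f := by
    rw [wt_eq_sum]
    obtain ⟨x, hx⟩ := Function.ne_iff.1 h0
    apply Finset.sum_pos'
    · intro _ _; exact Nat.zero_le _
    · exact ⟨x, mem_univ _, hammingNorm_pos_iff.2 hx⟩
  rw [Nat.card_eq_fintype_card]
  have hWpos : (0 : ℝ) < (wt f : ℝ) := by exact_mod_cast hW0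
  have hS' : (ℓ : ℝ) * S.card ≤ 100 * (wt f : ℝ) := by exact_mod_cast hS
  have hT' : (ℓ : ℝ) * T.card ≤ 100 * (wt f : ℝ) := by exact_mod_cast hT
  have hW' : (wt f : ℝ) ≤ ℓ * S.card * T.card / Fintype.card A +
      1 / 200 * ℓ * (S.card + T.card) / 2 :=
    le_trans (by exact_mod_cast hW) hmix
  generalize (wt f : ℝ) = W at *
  have h1 : (ℓ : ℝ) * S.card * T.card / Fintype.card A ≤
      (100 * W) * (100 * W) / (ℓ * Fintype.card A) := by
    rw [div_le_div_iff₀ hA (by positivity)]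
    have h2 : ((ℓ : ℝ) * S.card) * (ℓ * T.card) ≤ (100 * W) * (100 * W) :=
      mul_le_mul hS' hT' (by positivity) (by positivity)
    nlinarith [mul_le_mul_of_nonneg_right h2 hA.le]
  have h2 : W ≤ (100 * W) * (100 * W) / (ℓ * Fintype.card A) + W / 2 := by
    linarith
  have h3 : W / 2 ≤ (100 * W) * (100 * W) / (ℓ * Fintype.card A) := by linarith
  rw [le_div_iff₀ (by positivity)] at h3
  have h4 : W * (ℓ * Fintype.card A) ≤ W * (20000 * W) := by nlinarith
  have h5 := le_of_mul_le_mul_left h4 hWpos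
  linarith

end tanner

/-- **Good codes with logarithmically many orbits.** -/
theorem exists_good (A : Type*) [AddCommGroup A] [Fintype A] (ℓ : ℕ) (hℓ : 1 ≤ ℓ)
    (h : 720000 * Real.log (Fintype.card A) ≤ ℓ) :
    ∃ C : Submodule (ZMod 2) (A → Fin ℓ → ZMod 2), Inv C ∧
      (1 / 2 : ℝ) * (ℓ * Nat.card A) ≤ finrank (ZMod 2) C ∧
      ∀ f ∈ C, f ≠ 0 → (1 / 20000 : ℝ) * (ℓ * Nat.card A) ≤ wt f := by
  classical
  obtain ⟨s, hs⟩ := exists_expander (A := A) (lam := 1 / 200) (by norm_num) ℓ hℓ (by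
    norm_num
    exact h)
  obtain ⟨B, hBd, hB⟩ := exists_local ℓ ((3 * ℓ + 3) / 4) (by omega)
  refine ⟨tanner s B, tanner_inv s B, ?_, fun f hf h0 => tanner_dist hℓ hs hB hf h0⟩
  have h1 := tanner_finrank s B
  rw [Nat.card_eq_fintype_card]
  have h2 : 4 * (ℓ - finrank (ZMod 2) B) ≤ ℓ := by omega
  have h3 : 2 * (Fintype.card A * ℓ) ≤ 2 * finrank (ZMod 2) (tanner s B) +
      Fintype.card A * (4 * (ℓ - finrank (ZMod 2) B)) := by
    calc 2 * (Fintype.card A * ℓ) ≤ 2 * (finrank (ZMod 2) (tanner s B) +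
      2 * (Fintype.card A * (ℓ - finrank (ZMod 2) B))) := Nat.mul_le_mul_left _ h1
      _ = _ := by ring
  have h4 : 2 * (Fintype.card A * ℓ) ≤ 2 * finrank (ZMod 2) (tanner s B) +
      Fintype.card A * ℓ := h3.trans (Nat.add_le_add_left (Nat.mul_le_mul_left _ h2) _)
  have h5 : (2 : ℝ) * (Fintype.card A * ℓ) ≤ 2 * finrank (ZMod 2) (tanner s B) +
      Fintype.card A * ℓ := by exact_mod_cast h4
  linarith

end Pool.Agent.Lib.MP_0430e4_lc.Free
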