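import Mathlib
import Pool.Agent.Lib.MP_0430e4_lc.Free.Defs
import Pool.Agent.Lib.MP_0430e4_lc.Free.Rank
import Pool.Agent.Lib.MP_0430e4_lc.Free.Tanner

/-!
# Codes with a free abelian group of automorphisms (helper91): the two bounds
-/

namespace Pool.Agent.Lib.MP_0430e4_lc.Free

open Finset Module

section lower

variable {X : Type} [Fintype X]

/-- the words on `A × [ℓ]` as words on `X` -/
def onX {A : Type} {ℓ : ℕ} (e : A × Fin ℓ ≃ X) :
    (A → Fin ℓ → ZMod 2) →ₗ[ZMod 2] (X → ZMod 2) where
  toFun f := fun x => f (e.symm x).1 (e.symm x).2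
  map_add' _ _ := rfl
  map_smul' _ _ := rfl

omit [Fintype X] in
theorem onX_apply {A : Type} {ℓ : ℕ} (e : A × Fin ℓ ≃ X) (f : A → Fin ℓ → ZMod 2) (x : X) :
    onX e f x = f (e.symm x).1 (e.symm x).2 := rfl

omit [Fintype X] in
theorem onX_surjective {A : Type} {ℓ : ℕ} (e : A × Fin ℓ ≃ X) :
    Function.Surjective (onX e) := by
  intro g
  refine ⟨fun a j => g (e (a, j)), ?_⟩
  funext x
  rw [onX_apply]
  exact congrArg g (e.apply_symm_apply x)

theorem norm_onX {A : Type} {ℓ : ℕ} (e : A × Fin ℓ ≃ X) (f : A → Fin ℓ → ZMod 2) :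
    hammingNorm (onX e f) = wt f := by
  classical
  unfold hammingNorm wt
  rw [← Set.ncard_coe_finset]
  apply Set.ncard_congr (fun x _ => e.symm x)
  · intro x hx
    exact (mem_filter.1 (mem_coe.1 hx)).2
  · intro x y _ _ h
    exact e.symm.injective h
  · intro q hq
    refine ⟨e q, ?_, e.symm_apply_apply q⟩
    rw [mem_coe, mem_filter]
    refine ⟨mem_univ _, ?_⟩
    rw [onX_apply, e.symm_apply_apply]
    exact hq

end lower

/-- number of solutions of `n a = 0` -/
theorem card_torsion (A : Type) [AddCommGroup A] [Finite A] (n : ℕ) :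
    Nat.card {a : A // n • a = 0} = (mulRange A n).index := by
  have h1 : Nat.card A = Nat.card (mulRange A n) * Nat.card (nsmulAddMonoidHom n : A →+ A).ker := by
    have h2 := AddSubgroup.card_eq_card_quotient_mul_card_addSubgroup
      (nsmulAddMonoidHom n : A →+ A).ker
    have h3 := Nat.card_congr
      (QuotientAddGroup.quotientKerEquivRange (nsmulAddMonoidHom n : A →+ A)).toEquiv
    rw [h3] at h2
    exact h2
  have h2 := AddSubgroup.card_mul_index (mulRange A n)
  have h3 : 0 < Nat.card (mulRange A n) := Nat.card_pos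
  have h4 : Nat.card (nsmulAddMonoidHom n : A →+ A).ker = (mulRange A n).index :=
    Nat.eq_of_mul_eq_mul_left h3 (h1.symm.trans h2.symm)
  rw [← h4]
  rfl

/-- the lower bound for the number of orbits -/
theorem lower {e n : ℕ} (he : Odd e) (hn : 0 < n) {ε δ : ℝ} (hε : 0 < ε) (hδ : 0 < δ) :
    ∃ c > (0 : ℝ), ∀ (X : Type) [Fintype X] [Nonempty X]
      (C : Submodule (ZMod 2) (X → ZMod 2)) (G : Subgroup (Equiv.Perm X)), Good ε δ C →
      FreeAbelian G C → ∀ s : ℕ, (∀ g ∈ G, g ^ (2 ^ s * e) = 1) →
      c * Real.log (Set.ncard {g | g ∈ G ∧ g ^ n = 1}) ≤ Fintype.card X / Nat.card G := by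
  classical
  obtain ⟨D, hD, hb⟩ := index_bound he hε hδ n hn
  refine ⟨D⁻¹, inv_pos.2 hD, ?_⟩
  intro X _ _ C G hgood hfree s hexp
  let _ : CommGroup G :=
    { (inferInstance : Group G) with
      mul_comm := fun a b => Subtype.ext (hfree.comm a a.2 b b.2) }
  let A := Additive G
  have hfA : Finite A := (inferInstance : Finite G)
  have hfr : ∀ (a : A) (x : X), a +ᵥ x = x → a = 0 := by
    intro a x hax
    by_contra hne
    apply hfree.free (Additive.toMul a : G) (Additive.toMul a).2 _ x hax
    intro h1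
    apply hne
    apply Additive.toMul.injective
    exact Subtype.ext h1
  obtain ⟨ℓ, e', he'⟩ := exists_coords A X hfr
  have hcard : Fintype.card X = Nat.card A * ℓ := by
    rw [← Nat.card_eq_fintype_card, ← Nat.card_congr e', Nat.card_prod, Nat.card_eq_fintype_card
      (α := Fin ℓ), Fintype.card_fin]
  have hA0 : 0 < Nat.card A := Nat.card_pos
  have hℓ : 1 ≤ ℓ := by
    have h1 : 0 < Fintype.card X := Fintype.card_pos
    rw [hcard] at h1
    exact Nat.pos_of_mul_pos_left h1
  have hcard' : (Fintype.card X : ℝ) = ℓ * Nat.card A := by rw [hcard]; push_cast; ring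
  let C' : Submodule (ZMod 2) (A → Fin ℓ → ZMod 2) := C.comap (onX e')
  have hInv : Pool.Agent.Lib.MP_0430e4_lc.Free.Inv C' := by
    intro a f hf
    have h1 := hfree.aut (Additive.toMul a : G) (Additive.toMul a).2 _ hf
    have h2 : onX e' (fun x => f (x + a)) = onX e' f ∘ ((Additive.toMul a : G) : Equiv.Perm X) := by
      funext x
      rw [Function.comp_apply, onX_apply, onX_apply]
      have h3 : e'.symm (((Additive.toMul a : G) : Equiv.Perm X) x) =
          ((e'.symm x).1 + a, (e'.symm x).2) := by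
        rw [Equiv.symm_apply_eq, add_comm, he' a (e'.symm x).1 (e'.symm x).2]
        show _ = a +ᵥ e' (e'.symm x)
        rw [Equiv.apply_symm_apply]
        rfl
      rw [h3]
    show onX e' (fun x => f (x + a)) ∈ C
    rw [h2]
    exact h1
  have hmap : C'.map (onX e') = C := Submodule.map_comap_eq_of_surjective (onX_surjective e') C
  have hrate : ε * (ℓ * Nat.card A) ≤ finrank (ZMod 2) C' := by
    have h1 : finrank (ZMod 2) C ≤ finrank (ZMod 2) C' := by
      rw [← hmap]
      exact Submodule.finrank_map_le _ _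
    have h2 := hgood.1
    rw [hcard'] at h2
    exact h2.trans (by exact_mod_cast h1)
  have hdist : ∀ f ∈ C', f ≠ 0 → δ * (ℓ * Nat.card A) ≤ wt f := by
    intro f hf h0
    have h1 : onX e' f ≠ 0 := by
      intro h1
      apply h0
      funext a j
      have h2 := congrFun h1 (e' (a, j))
      rw [onX_apply, e'.symm_apply_apply] at h2
      exact h2
    have h2 := hgood.2 _ hf h1
    rw [hcard', norm_onX] at h2
    exact h2
  have hexpA : ∀ a : A, (2 ^ s * e) • a = 0 := by
    intro a
    apply Additive.toMul.injective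
    apply Subtype.ext
    exact hexp (Additive.toMul a : G) (Additive.toMul a).2
  have key := hb A s hexpA ℓ hℓ C' hInv hrate hdist
  have htor : Set.ncard {g | g ∈ G ∧ g ^ n = 1} = (mulRange A n).index := by
    rw [← card_torsion, ← Nat.card_coe_set_eq]
    apply Nat.card_congr
    exact
      { toFun := fun g => ⟨Additive.ofMul ⟨g.1, g.2.1⟩, by
          apply Additive.toMul.injective
          exact Subtype.ext g.2.2⟩
        invFun := fun a => ⟨((Additive.toMul a.1 : G) : Equiv.Perm X), (Additive.toMul a.1).2, by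
          have h1 := congrArg Additive.toMul a.2
          exact congrArg Subtype.val h1⟩
        left_inv := fun g => rfl
        right_inv := fun a => rfl }
  rw [htor, hcard']
  have hcG : Nat.card G = Nat.card A := rfl
  rw [hcG, mul_div_assoc, div_self (by exact_mod_cast hA0.ne'), mul_one, inv_mul_le_iff₀ hD,
    mul_comm D]
  exact key

section upper

/-- translations of the first coordinate -/
def shiftHom (A : Type) [CommGroup A] (ℓ : ℕ) : A →* Equiv.Perm (A × Fin ℓ) where
  toFun a := (Equiv.mulLeft a).prodCongr (Equiv.refl _)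
  map_one' := by
    ext x
    · simp
    · simp
  map_mul' a b := by
    ext x
    · simp [mul_assoc]
    · simp

theorem shiftHom_apply (A : Type) [CommGroup A] (ℓ : ℕ) (a : A) (x : A × Fin ℓ) :
    shiftHom A ℓ a x = (a * x.1, x.2) := rfl

theorem upper (A : Type) [CommGroup A] [Fintype A] (ℓ : ℕ) (hℓ : 1 ≤ ℓ)
    (h : 720000 * Real.log (Fintype.card A) ≤ ℓ) :
    ∃ (X : Type) (_ : Fintype X) (C : Submodule (ZMod 2) (X → ZMod 2))
      (G : Subgroup (Equiv.Perm X)), Fintype.card X = ℓ * Fintype.card A ∧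
        Good (1 / 2) (1 / 20000) C ∧ FreeAbelian G C ∧ Nonempty (G ≃* A) := by
  classical
  obtain ⟨C, hC, hrate, hdist⟩ := exists_good (Additive A) ℓ hℓ (by rw [Fintype.card_additive]; exact h)
  have hcard : Fintype.card (A × Fin ℓ) = ℓ * Fintype.card A := by
    rw [Fintype.card_prod, Fintype.card_fin, mul_comm]
  have hcard' : (Fintype.card (A × Fin ℓ) : ℝ) = ℓ * Nat.card (Additive A) := by
    rw [hcard, Nat.card_eq_fintype_card, Fintype.card_additive]
    push_cast
    rfl
  let E : Additive A × Fin ℓ ≃ A × Fin ℓ := Additive.toMul.prodCongr (Equiv.refl _)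
  have hinj : Function.Injective (shiftHom A ℓ) := by
    intro a b hab
    have h1 := congrArg (fun g : Equiv.Perm (A × Fin ℓ) => (g (1, ⟨0, hℓ⟩)).1) hab
    simpa [shiftHom_apply] using h1
  refine ⟨A × Fin ℓ, inferInstance, C.map (onX E), (shiftHom A ℓ).range, hcard, ⟨?_, ?_⟩,
    ⟨?_, ?_, ?_⟩, ⟨(MonoidHom.ofInjective hinj).symm⟩⟩
  · rw [hcard']
    have h1 : finrank (ZMod 2) C ≤ finrank (ZMod 2) (C.map (onX E)) := by
      have hinjE : Function.Injective (onX E) := by
        intro f g hfg
        funext a j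
        have h2 := congrFun hfg (E (a, j))
        rw [onX_apply, onX_apply, E.symm_apply_apply] at h2
        exact h2
      exact (Submodule.equivMapOfInjective (onX E) hinjE C).finrank_eq.le
    exact hrate.trans (by exact_mod_cast h1)
  · rintro _ ⟨f, hf, rfl⟩ h0
    rw [hcard', norm_onX]
    apply hdist f hf
    rintro rfl
    exact h0 (map_zero _)
  · rintro _ ⟨a, rfl⟩ _ ⟨b, rfl⟩
    rw [← map_mul, ← map_mul, mul_comm]
  · rintro _ ⟨a, rfl⟩ hne x hx
    apply hne
    rw [shiftHom_apply] at hx
    have h1 : a * x.1 = x.1 := congrArg Prod.fst hx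
    have h2 : a = 1 := by simpa using h1
    rw [h2, map_one]
  · rintro _ ⟨a, rfl⟩ _ ⟨f, hf, rfl⟩
    refine ⟨fun x => f (x + Additive.ofMul a), hC _ _ hf, ?_⟩
    funext x
    rw [Function.comp_apply, onX_apply, onX_apply, shiftHom_apply]
    show f (Additive.ofMul x.1 + Additive.ofMul a) x.2 = f (Additive.ofMul (a * x.1)) x.2
    rw [← ofMul_mul, mul_comm]

end upper

end Pool.Agent.Lib.MP_0430e4_lc.Free
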